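import Pool.Agent.Y43.CH.Syll

/-!
Two elements of different factors of an amalgamated product, whose nontrivial powers lie outside
the amalgamated subgroup, generate a free group of rank two.
-/

set_option autoImplicit false
set_option linter.unusedSectionVars false

namespace Run7.h952

open Monoid Function Pool.Agent.Y43.CH

section
variable {E : Type} [Group E] {G : Bool → Type} [∀ b, Group (G b)] {φ : ∀ b, E →* G b}

theorem free_unit_eq (m : FreeGroup Unit) : ∃ k : ℤ, m = FreeGroup.of () ^ k := by
  induction m using FreeGroup.induction_on with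
  | C1 => exact ⟨0, by simp⟩
  | of x => exact ⟨1, by simp⟩
  | inv_of x hx => exact ⟨-1, by simp⟩
  | mul u v hu hv =>
    obtain ⟨k, rfl⟩ := hu
    obtain ⟨l, rfl⟩ := hv
    exact ⟨k + l, by rw [zpow_add]⟩

theorem pushout_free (hφ : ∀ b, Injective (φ b)) (x : ∀ b, G b)
    (hx : ∀ b, ∀ n : ℤ, n ≠ 0 → x b ^ n ∉ (φ b).range) :
    Injective (FreeGroup.lift fun b => (PushoutI.of b (x b) : PushoutI φ)) := by
  let h : ∀ b, FreeGroup Unit →* G b := fun b => FreeGroup.lift fun _ => x b
  have hh : ∀ b (m : FreeGroup Unit), m ≠ 1 → h b m ∉ (φ b).range := by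
    intro b m hm
    obtain ⟨k, rfl⟩ := free_unit_eq m
    have hk : k ≠ 0 := by
      rintro rfl
      exact hm (zpow_zero _)
    have : h b (FreeGroup.of () ^ k) = x b ^ k := by
      rw [map_zpow]
      simp [h]
    rw [this]
    exact hx b k hk
  let f' : CoprodI (fun _ : Bool => FreeGroup Unit) →* PushoutI φ :=
    CoprodI.lift fun b => (PushoutI.of b).comp (h b)
  have hf' : Injective f' := by
    rw [injective_iff_map_eq_one]
    intro z hz
    by_contra hne
    let w : CoprodI.Word (fun _ : Bool => FreeGroup Unit) := CoprodI.Word.equiv z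
    have hw : w.prod = z := CoprodI.Word.equiv.symm_apply_apply z
    have hwne : w.toList ≠ [] := by
      intro h0
      apply hne
      rw [← hw]
      have : w = CoprodI.Word.empty := CoprodI.Word.ext h0
      rw [this, CoprodI.Word.prod_empty]
    let L : List (Σ b, G b) := w.toList.map fun s => ⟨s.1, h s.1 s.2⟩
    have hL : Red φ L := by
      constructor
      · intro s hs
        obtain ⟨t, ht, rfl⟩ := List.mem_map.1 hs
        exact hh _ _ (w.ne_one t ht)
      · rw [List.isChain_map]
        exact w.chain_ne
    have hpr : pr φ L = f' z := by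
      rw [← hw]
      unfold CoprodI.Word.prod pr
      rw [map_list_prod, List.map_map, List.map_map]
      congr 1
    exact hL.ne_one hφ (by simpa [L] using hwne) (by rw [hpr, hz])
  have hcomp : (FreeGroup.lift fun b => (PushoutI.of b (x b) : PushoutI φ))
      = f'.comp (freeGroupEquivCoprodI : FreeGroup Bool ≃* _).toMonoidHom := by
    ext b
    simp [f', h, freeGroupEquivCoprodI]
  rw [hcomp]
  exact hf'.comp (freeGroupEquivCoprodI : FreeGroup Bool ≃* _).injective

end

end Run7.h952
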