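import Pool.Agent.Run7.h952.MV
import Pool.Agent.Run7.h952.Free2

/-!
Amalgamated free products: existence, torsion, and the gluing of functions.
-/

set_option autoImplicit false
set_option linter.unusedSectionVars false

open Filter Topology

namespace Run7.h952

open Monoid Function

/-- Every nontrivial element has infinite order. -/
def TF (G : Type) [Group G] : Prop := ∀ g : G, g ≠ 1 → ¬ IsOfFinOrder g

/-- `G` is generated by the copies `i A` and `j B`, which satisfy the universal property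
of the amalgamated free product over `C`. -/
structure IsAmalg {A B C G : Type} [Group A] [Group B] [Group C] [Group G] (φ : C →* A)
    (ψ : C →* B) (i : A →* G) (j : B →* G) : Prop where
  inj_i : Injective i
  inj_j : Injective j
  comm : ∀ c, i (φ c) = j (ψ c)
  gen : i.range ⊔ j.range = ⊤
  univ : ∀ (H : Type) [Group H] (f : A →* H) (g : B →* H), (∀ c, f (φ c) = g (ψ c)) →
    ∃ h : G →* H, (∀ a, h (i a) = f a) ∧ ∀ b, h (j b) = g b
  tf : TF A → TF B → TF G
  inter : ∀ a b, i a = j b → ∃ c, φ c = a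
  free : ∀ (x : A) (y : B), (∀ n : ℤ, n ≠ 0 → x ^ n ∉ φ.range) →
    (∀ n : ℤ, n ≠ 0 → y ^ n ∉ ψ.range) →
    Injective (FreeGroup.lift (β := G) fun b : Bool => match b with
      | true => i x
      | false => j y)

/-- The two factors as a family. -/
def Fam (A B : Type) : Bool → Type
  | true => A
  | false => B

instance famGroup (A B : Type) [Group A] [Group B] : ∀ b, Group (Fam A B b)
  | true => (inferInstance : Group A)
  | false => (inferInstance : Group B)

/-- The two embeddings as a family. -/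
def famHom {A B C : Type} [Group A] [Group B] [Group C] (φ : C →* A) (ψ : C →* B) :
    ∀ b, C →* Fam A B b
  | true => φ
  | false => ψ

theorem exists_amalg {A B C : Type} [Group A] [Group B] [Group C] (φ : C →* A)
    (ψ : C →* B) (hφ : Injective φ) (hψ : Injective ψ) :
    ∃ (G : Type) (_ : Group G) (i : A →* G) (j : B →* G), IsAmalg φ ψ i j := by
  have hinj : ∀ b, Injective (famHom φ ψ b) := by
    intro b
    cases b
    · exact hψ
    · exact hφ
  let i : A →* PushoutI (famHom φ ψ) := PushoutI.of (φ := famHom φ ψ) true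
  let j : B →* PushoutI (famHom φ ψ) := PushoutI.of (φ := famHom φ ψ) false
  have hcomm : ∀ c, i (φ c) = j (ψ c) := by
    intro c
    have h1 := PushoutI.of_apply_eq_base (famHom φ ψ) true c
    have h2 := PushoutI.of_apply_eq_base (famHom φ ψ) false c
    exact h1.trans h2.symm
  refine ⟨PushoutI (famHom φ ψ), inferInstance, i, j, ?_, ?_, hcomm, ?_, ?_, ?_, ?_, ?_⟩
  · exact PushoutI.of_injective hinj true
  · exact PushoutI.of_injective hinj false
  · rw [eq_top_iff]
    intro z _
    induction z using PushoutI.induction_on with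
    | of b g =>
      cases b
      · exact Subgroup.mem_sup_right ⟨g, rfl⟩
      · exact Subgroup.mem_sup_left ⟨g, rfl⟩
    | base h =>
      rw [← PushoutI.of_apply_eq_base (famHom φ ψ) true h]
      exact Subgroup.mem_sup_left ⟨φ h, rfl⟩
    | mul x y hx hy => exact mul_mem (hx trivial) (hy trivial)
  · intro H _ f g hfg
    let F : ∀ b, Fam A B b →* H := fun b => match b with
      | true => f
      | false => g
    have hF : ∀ b, (F b).comp (famHom φ ψ b) = f.comp φ := by
      intro b
      cases b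
      · ext c
        exact (hfg c).symm
      · rfl
    refine ⟨PushoutI.lift F (f.comp φ) hF, ?_, ?_⟩
    · intro a
      exact PushoutI.lift_of F (f.comp φ) hF (i := true) a
    · intro b
      exact PushoutI.lift_of F (f.comp φ) hF (i := false) b
  · intro hA hB z hz hfin
    obtain ⟨n, hn, hzn⟩ := isOfFinOrder_iff_pow_eq_one.1 hfin
    obtain ⟨c, b, x, hx, hxn⟩ := Pool.Agent.Y43.CH.amalg_torsion hinj z n hn.ne' hzn
    have hx1 : x = 1 := by
      by_contra hne
      cases b
      · exact hB x hne (isOfFinOrder_iff_pow_eq_one.2 ⟨n, hn, hxn⟩)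
      · exact hA x hne (isOfFinOrder_iff_pow_eq_one.2 ⟨n, hn, hxn⟩)
    apply hz
    rw [hx, hx1, map_one, mul_one, mul_inv_cancel]
  · intro a b hab
    have h1 : i a ∈ (PushoutI.of (φ := famHom φ ψ) true).range ⊓
        (PushoutI.of (φ := famHom φ ψ) false).range := ⟨⟨a, rfl⟩, ⟨b, hab.symm⟩⟩
    rw [PushoutI.inf_of_range_eq_base_range hinj (by decide)] at h1
    obtain ⟨c, hc⟩ := h1
    refine ⟨c, PushoutI.of_injective hinj true ?_⟩
    exact (PushoutI.of_apply_eq_base (famHom φ ψ) true c).trans hc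
  · intro x y hx hy
    let z : ∀ b, Fam A B b := fun b => match b with
      | true => x
      | false => y
    have hz : ∀ b, ∀ n : ℤ, n ≠ 0 → z b ^ n ∉ (famHom φ ψ b).range := by
      intro b
      cases b
      · exact hy
      · exact hx
    have h1 := pushout_free hinj z hz
    have h2 : (fun b : Bool => (PushoutI.of b (z b) : PushoutI (famHom φ ψ)))
        = fun b : Bool => match b with
          | true => i x
          | false => j y := by
      funext b
      cases b <;> rfl
    rw [h2] at h1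
    exact h1

section Glue
variable {G : Type} [Group G]

/-- A function on `G` and a homomorphism into `G` give an action on `G × ℂ`. -/
def actHom {A : Type} [Group A] (i : A →* G) (F : G → ℂ) : A →* Equiv.Perm (G × ℂ) where
  toFun a :=
    { toFun := fun p => (p.1 * (i a)⁻¹, p.2 + F (p.1 * (i a)⁻¹) - F p.1)
      invFun := fun p => (p.1 * i a, p.2 + F (p.1 * i a) - F p.1)
      left_inv := by
        rintro ⟨h, z⟩
        ext <;> simp
      right_inv := by
        rintro ⟨h, z⟩
        ext <;> simp }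
  map_one' := by
    ext ⟨h, z⟩ <;> simp
  map_mul' a b := by
    ext ⟨h, z⟩
    · simp [mul_assoc]
    · simp only [map_mul, mul_inv_rev, Equiv.coe_fn_mk, Equiv.Perm.coe_mul, comp_apply, mul_assoc]
      ring

theorem actHom_apply {A : Type} [Group A] (i : A →* G) (F : G → ℂ) (a : A) (p : G × ℂ) :
    actHom i F a p = (p.1 * (i a)⁻¹, p.2 + F (p.1 * (i a)⁻¹) - F p.1) := rfl

theorem actHom_fst {A : Type} [Group A] (i : A →* G) (F : G → ℂ) (a : A) (p : G × ℂ) :
    (actHom i F a p).1 = p.1 * (i a)⁻¹ := rfl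

theorem actHom_snd {A : Type} [Group A] (i : A →* G) (F : G → ℂ) (a : A) (p : G × ℂ) :
    (actHom i F a p).2 = p.2 + F (p.1 * (i a)⁻¹) - F p.1 := rfl

/-- The elements which translate the first coordinate. -/
def fstSub (Ψ : G →* Equiv.Perm (G × ℂ)) : Subgroup G where
  carrier := {g | ∀ p, (Ψ g p).1 = p.1 * g⁻¹}
  one_mem' := by
    intro p
    simp
  mul_mem' := by
    intro a b ha hb p
    have h1 : Ψ (a * b) p = Ψ a (Ψ b p) := by rw [map_mul]; rfl
    rw [h1, ha, hb, mul_inv_rev, mul_assoc]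
  inv_mem' := by
    intro a ha p
    have h1 : Ψ a (Ψ a⁻¹ p) = p := by
      have : Ψ a (Ψ a⁻¹ p) = (Ψ a * Ψ a⁻¹) p := rfl
      rw [this, ← map_mul, mul_inv_cancel, map_one]
      rfl
    have h2 := ha (Ψ a⁻¹ p)
    rw [h1] at h2
    rw [h2, inv_inv, inv_mul_cancel_right]

theorem glue_aux (Ψ : G →* Equiv.Perm (G × ℂ)) {A : Type} [Group A] (i : A →* G) (FA : G → ℂ)
    (hi : ∀ a, Ψ (i a) = actHom i FA a) (hfst : ∀ g : G, ∀ p, (Ψ g p).1 = p.1 * g⁻¹)
    (k : G) (a : A) :
    (Ψ (k * i a)⁻¹ (1, 0)).2 - (Ψ k⁻¹ (1, 0)).2 = FA (k * i a) - FA k := by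
  have h1 : Ψ (k * i a)⁻¹ (1, 0) = Ψ (i a⁻¹) (Ψ k⁻¹ (1, 0)) := by
    rw [mul_inv_rev, map_mul, map_inv i]
    rfl
  have h2 : (Ψ k⁻¹ (1, 0)).1 = k := by
    rw [hfst, inv_inv, one_mul]
  rw [h1, hi, actHom_snd, h2, map_inv i, inv_inv]
  ring

theorem IsAmalg.glue {A B C : Type} [Group A] [Group B] [Group C] {φ : C →* A}
    {ψ : C →* B} {i : A →* G} {j : B →* G} (h : IsAmalg φ ψ i j) :
    Glue i.range j.range (i.comp φ).range := by
  intro FA FB hF
  obtain ⟨Ψ, hΨA, hΨB⟩ := h.univ (Equiv.Perm (G × ℂ)) (actHom i FA) (actHom j FB) (by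
    intro c
    ext p : 1
    rw [actHom_apply, actHom_apply, ← h.comm]
    have h1 := hF p.1 (i (φ c))⁻¹ (inv_mem ⟨c, rfl⟩)
    rw [Prod.mk.injEq]
    refine ⟨rfl, ?_⟩
    linear_combination h1)
  have hfst : ∀ g : G, ∀ p, (Ψ g p).1 = p.1 * g⁻¹ := by
    have hle : i.range ⊔ j.range ≤ fstSub Ψ := by
      refine sup_le ?_ ?_
      · rintro _ ⟨a, rfl⟩ p
        rw [hΨA, actHom_fst]
      · rintro _ ⟨a, rfl⟩ p
        rw [hΨB, actHom_fst]
    intro g
    have hg : g ∈ i.range ⊔ j.range := by rw [h.gen]; trivial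
    exact hle hg
  refine ⟨fun g => (Ψ g⁻¹ (1, 0)).2, ?_, ?_⟩
  · rintro k _ ⟨a, rfl⟩
    exact glue_aux Ψ i FA hΨA hfst k a
  · rintro k _ ⟨a, rfl⟩
    exact glue_aux Ψ j FB hΨB hfst k a

end Glue

end Run7.h952
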