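import Pool.Agent.Run7.h952.Emb3

/-!
Amplification: a failure of the inequality gives groups of normal rank one with arbitrarily large
first L²-Betti number.
-/

set_option autoImplicit false
set_option linter.unusedSectionVars false

namespace Run7.h952

open Function Pool.Agent.H919R3.Stmt

theorem TF.infinite {G : Type} [Group G] (hG : TF G) {x : G} (hx : x ≠ 1) : Infinite G :=
  Infinite.of_injective _ (zpowers_inj hG x hx)

open Classical in
theorem dg_amalg {A B C G : Type} [Group A] [Group B] [Group C] [Group G] {φ : C →* A}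
    {ψ : C →* B} {i : A →* G} {j : B →* G} (h : IsAmalg φ ψ i j) (hφ : Injective φ)
    (SA : Finset A) (SB : Finset B) (SC : Finset C) (hA : Subgroup.closure (SA : Set A) = ⊤)
    (hB : Subgroup.closure (SB : Set B) = ⊤) (hC : Subgroup.closure (SC : Set C) = ⊤)
    (S : Finset G) (hS : Subgroup.closure (S : Set G) = ⊤) :
    dg SA + dg SB ≤ dg S + dg SC := by
  have e1 : Subgroup.closure ((SA.image i : Finset G) : Set G) = i.range := by
    rw [Finset.coe_image, ← MonoidHom.map_closure, hA, MonoidHom.range_eq_map]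
  have e2 : Subgroup.closure ((SB.image j : Finset G) : Set G) = j.range := by
    rw [Finset.coe_image, ← MonoidHom.map_closure, hB, MonoidHom.range_eq_map]
  have e3 : Subgroup.closure ((SC.image (i.comp φ) : Finset G) : Set G) = (i.comp φ).range := by
    rw [Finset.coe_image, ← MonoidHom.map_closure, hC, MonoidHom.range_eq_map]
  have h1 := dg_union (SA.image i) (SB.image j) (SC.image (i.comp φ)) i.range j.range
    (i.comp φ).range e1 e2 e3 (by
      rintro _ ⟨c, rfl⟩
      exact ⟨φ c, rfl⟩) (by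
      rintro _ ⟨c, rfl⟩
      exact ⟨ψ c, (h.comm c).symm⟩) h.glue
  rw [dg_image i h.inj_i, dg_image j h.inj_j, dg_image (i.comp φ) (h.inj_i.comp hφ)] at h1
  have h2 : dg (SA.image i ∪ SB.image j) = dg S := by
    apply dg_congr
    rw [hS, Finset.coe_union, Subgroup.closure_union, e1, e2, h.gen]
  rw [h2] at h1
  exact h1

theorem closure_ofAdd_one :
    Subgroup.closure ((({Multiplicative.ofAdd 1} : Finset (Multiplicative ℤ)) :
      Set (Multiplicative ℤ))) = ⊤ := by
  rw [eq_top_iff]
  intro x _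
  rw [Finset.coe_singleton, Subgroup.mem_closure_singleton]
  exact ⟨Multiplicative.toAdd x, by rw [← ofAdd_zsmul]; simp⟩

/-- Amalgamating two groups of normal rank one along normal generators. -/
theorem double {A B : Type} [Group A] [Group B] (hA : TF A) (hfA : FGen A) (hB : TF B)
    (hfB : FGen B) (a : A) (b : B) (ha1 : a ≠ 1) (hb1 : b ≠ 1)
    (ha : Subgroup.normalClosure {a} = ⊤) (hb : Subgroup.normalClosure {b} = ⊤) :
    ∃ (G : Type) (_ : Group G) (i : A →* G) (j : B →* G), Injective i ∧ Injective j ∧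
      i a = j b ∧ TF G ∧ FGen G ∧ Subgroup.normalClosure {i a} = ⊤ ∧
      ∀ (SA : Finset A) (SB : Finset B) (S : Finset G),
        Subgroup.closure (SA : Set A) = ⊤ → Subgroup.closure (SB : Set B) = ⊤ →
        Subgroup.closure (S : Set G) = ⊤ → dg SA + dg SB ≤ dg S + 1 := by
  obtain ⟨G, _, i, j, h⟩ := exists_amalg (zpowersHom A a) (zpowersHom B b)
    (zpowers_inj hA a ha1) (zpowers_inj hB b hb1)
  have hab : i a = j b := by
    have := h.comm (Multiplicative.ofAdd 1)
    simpa using this
  refine ⟨G, inferInstance, i, j, h.inj_i, h.inj_j, hab, h.tf hA hB, FGen.amalg h hfA hfB,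
    ?_, ?_⟩
  · have hn : (Subgroup.normalClosure {i a}).Normal := Subgroup.normalClosure_normal
    have hi : ∀ x, i x ∈ Subgroup.normalClosure {i a} :=
      map_mem_of_normalClosure i {a} ha _ hn (by
        rintro _ rfl
        exact Subgroup.subset_normalClosure rfl)
    have hj : ∀ x, j x ∈ Subgroup.normalClosure {i a} :=
      map_mem_of_normalClosure j {b} hb _ hn (by
        rintro _ rfl
        rw [← hab]
        exact Subgroup.subset_normalClosure rfl)
    rw [eq_top_iff, ← h.gen]
    refine sup_le ?_ ?_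
    · rintro _ ⟨x, rfl⟩
      exact hi x
    · rintro _ ⟨x, rfl⟩
      exact hj x
  · intro SA SB S hSA hSB hS
    have h1 := dg_amalg h (zpowers_inj hA a ha1) SA SB {Multiplicative.ofAdd 1} hSA hSB
      closure_ofAdd_one S hS
    have h2 := dg_le_card ({Multiplicative.ofAdd 1} : Finset (Multiplicative ℤ))
    rw [Finset.card_singleton] at h2
    push_cast at h2
    linarith

theorem one_le_dg {G : Type} [Group G] (hG : TF G) {x : G} (hx : x ≠ 1) (S : Finset G)
    (hS : Subgroup.closure (S : Set G) = ⊤) : 1 ≤ dg S := by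
  have : Infinite G := hG.infinite hx
  have h1 := l2Betti_eq_dg S hS
  have h2 := l2Betti_nonneg S
  linarith

/-- The subgroup generated by a finite set, with its finite generating set. -/
theorem exists_fin_sub {G : Type} [Group G] (T : Finset G) :
    ∃ T' : Finset (Subgroup.closure (T : Set G)),
      Subgroup.closure (T' : Set (Subgroup.closure (T : Set G))) = ⊤ ∧ T'.card ≤ T.card ∧
      ∀ x ∈ T, ∃ h, (⟨x, h⟩ : Subgroup.closure (T : Set G)) ∈ T' := by
  classical
  let e : {x // x ∈ T} → Subgroup.closure (T : Set G) :=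
    fun x => ⟨x.1, Subgroup.subset_closure x.2⟩
  refine ⟨Finset.image e T.attach, ?_, ?_, ?_⟩
  · apply Subgroup.map_injective (Subgroup.subtype_injective _)
    rw [MonoidHom.map_closure, ← MonoidHom.range_eq_map, Subgroup.range_subtype]
    congr 1
    ext x
    simp only [Finset.coe_image, Finset.coe_attach, Set.image_univ, e]
    constructor
    · rintro ⟨_, ⟨y, rfl⟩, rfl⟩
      exact y.2
    · intro hx
      exact ⟨_, ⟨⟨x, hx⟩, rfl⟩, rfl⟩
  · refine Finset.card_image_le.trans ?_
    rw [Finset.card_attach]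
  · intro x hx
    exact ⟨Subgroup.subset_closure hx, Finset.mem_image.2 ⟨⟨x, hx⟩, Finset.mem_attach _ _, rfl⟩⟩

/-- A subgroup `C`, generated by a finite set and normally generating, is embedded in a group of
normal rank one; amalgamation over `C`. -/
theorem embed_over {G : Type} [Group G] (hG : TF G) (hfG : FGen G) (T : Finset G)
    (hT : Subgroup.normalClosure (T : Set G) = ⊤) :
    ∃ (G' : Type) (_ : Group G') (K : Type) (_ : Group K)
      (φ : Subgroup.closure (T : Set G) →* G)
      (ψ : Subgroup.closure (T : Set G) →* K) (i : G →* G') (j : K →* G') (t : K),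
      φ = Subgroup.subtype _ ∧ IsAmalg φ ψ i j ∧ Injective ψ ∧ TF G' ∧ FGen G' ∧ TF K ∧ FGen K ∧
      Subgroup.normalClosure {t} = ⊤ ∧ Subgroup.normalClosure {j t} = ⊤ := by
  set C := Subgroup.closure (T : Set G) with hC
  obtain ⟨T', hT', -, -⟩ := exists_fin_sub T
  have hCtf : TF C := TF.of_injective C.subtype (Subgroup.subtype_injective C) hG
  obtain ⟨K, _, ψ, t, hψ, hK, hfK, ht⟩ := emb hCtf ⟨T', hT'⟩
  obtain ⟨G', _, i, j, h⟩ := exists_amalg C.subtype ψ (Subgroup.subtype_injective C) hψ
  refine ⟨G', inferInstance, K, inferInstance, C.subtype, ψ, i, j, t, rfl, h, hψ, h.tf hG hK,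
    FGen.amalg h hfG hfK, hK, hfK, ht, ?_⟩
  have hn : (Subgroup.normalClosure {j t}).Normal := Subgroup.normalClosure_normal
  have hj : ∀ x, j x ∈ Subgroup.normalClosure {j t} :=
    map_mem_of_normalClosure j {t} ht _ hn (by
      rintro _ rfl
      exact Subgroup.subset_normalClosure rfl)
  have hi : ∀ x, i x ∈ Subgroup.normalClosure {j t} :=
    map_mem_of_normalClosure i T hT _ hn (by
      intro x hx
      have hx' : x ∈ C := Subgroup.subset_closure hx
      have := h.comm ⟨x, hx'⟩
      have e : C.subtype ⟨x, hx'⟩ = x := rfl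
      rw [e] at this
      rw [this]
      exact hj _)
  rw [eq_top_iff, ← h.gen]
  refine sup_le ?_ ?_
  · rintro _ ⟨x, rfl⟩
    exact hi x
  · rintro _ ⟨x, rfl⟩
    exact hj x

/-- The inequality `dg S ≤ |T|` for all finitely generated torsion-free groups. -/
def IneqD : Prop :=
  ∀ (G : Type) [Group G] [Nontrivial G], TF G → ∀ S : Finset G,
    Subgroup.closure (S : Set G) = ⊤ → ∀ T : Finset G,
    Subgroup.normalClosure (T : Set G) = ⊤ → dg S ≤ T.card

theorem exists_gt_one (h : ¬ IneqD) :
    ∃ (G : Type) (_ : Group G) (t : G) (S : Finset G), Nontrivial G ∧ TF G ∧ 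
      Subgroup.closure (S : Set G) = ⊤ ∧ Subgroup.normalClosure {t} = ⊤ ∧ 1 < dg S := by
  unfold IneqD at h
  push Not at h
  obtain ⟨G, _, hnt, hG, S, hS, T, hT, hlt⟩ := h
  obtain ⟨G', _, K, _, φ, ψ, i, j, t, rfl, hA, hψ, hG', ⟨S', hS'⟩, hK, ⟨SK, hSK⟩, ht, hjt⟩ :=
    embed_over hG ⟨S, hS⟩ T hT
  obtain ⟨T', hT', hcard, -⟩ := exists_fin_sub T
  have h1 := dg_amalg hA (Subgroup.subtype_injective _) S SK T' hS hSK hT' S' hS'
  have h2 := dg_le_card T'
  have h3 : ((T'.card : ℕ) : ℝ) ≤ T.card := by exact_mod_cast hcard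
  have hnt' : Nontrivial G' := hA.inj_i.nontrivial
  have h4 : 1 ≤ dg SK := by
    have ht1 : t ≠ 1 := by
      rintro rfl
      rw [map_one] at hjt
      obtain ⟨x, hx⟩ := exists_ne (1 : G')
      have hx' : x ∈ Subgroup.normalClosure ({1} : Set G') := by rw [hjt]; trivial
      have h5 : Subgroup.normalClosure ({1} : Set G') = ⊥ := by
        rw [eq_bot_iff]
        refine Subgroup.normalClosure_le_normal ?_
        rintro _ rfl
        exact one_mem _
      rw [h5] at hx'
      exact hx (Subgroup.mem_bot.1 hx')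
    exact one_le_dg hK ht1 SK hSK
  exact ⟨G', inferInstance, j t, S', hnt', hG', hS', hjt, by linarith⟩

theorem exists_large (h : ¬ IneqD) (N : ℝ) :
    ∃ (G : Type) (_ : Group G) (t : G) (S : Finset G), Nontrivial G ∧ TF G ∧ 
      Subgroup.closure (S : Set G) = ⊤ ∧ Subgroup.normalClosure {t} = ⊤ ∧ N < dg S := by
  obtain ⟨G, _, t, S, hnt, hG, hS, ht, h1⟩ := exists_gt_one h
  have key : ∀ m : ℕ, ∃ (G' : Type) (_ : Group G') (t' : G') (S' : Finset G'),
      Nontrivial G' ∧ TF G' ∧ Subgroup.closure (S' : Set G') = ⊤ ∧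
      Subgroup.normalClosure {t'} = ⊤ ∧ 1 + m * (dg S - 1) < dg S' := by
    intro m
    induction m with
    | zero =>
      refine ⟨G, inferInstance, t, S, hnt, hG, hS, ht, ?_⟩
      push_cast
      linarith
    | succ m ih =>
      obtain ⟨G', _, t', S', hnt', hG', hS', ht', h1'⟩ := ih
      obtain ⟨G'', _, i, j, hi, hj, hij, hG'', ⟨S'', hS''⟩, ht'', hd⟩ :=
        double hG' ⟨S', hS'⟩ hG ⟨S, hS⟩ t' t (ne_one_of_normalClosure ht')
          (ne_one_of_normalClosure ht) ht' ht
      refine ⟨G'', inferInstance, i t', S'', hi.nontrivial, hG'', hS'', ht'', ?_⟩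
      have := hd S' S S'' hS' hS hS''
      push_cast
      linarith
  obtain ⟨m, hm⟩ := exists_nat_gt (N / (dg S - 1))
  obtain ⟨G', _, t', S', hnt', hG', hS', ht', h1'⟩ := key m
  refine ⟨G', inferInstance, t', S', hnt', hG', hS', ht', ?_⟩
  have hpos : 0 < dg S - 1 := by linarith
  rw [div_lt_iff₀ hpos] at hm
  linarith

end Run7.h952
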