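import Pool.Agent.H919R3.Stmt.Defs

/-!
The inequality of the question.
-/

set_option autoImplicit false

namespace Run7.h952

open Pool.Agent.H919R3.Stmt

/-- Every nontrivial finitely generated torsion-free group `Γ` satisfies
`β₁(Γ) ≤ nrk(Γ) - 1`: for every finite generating set `S` (from which the first `L²`-Betti number
is computed) and every finite set `T` whose normal closure is `Γ`. -/
def OsinThom : Prop :=
  ∀ (Γ : Type) [Group Γ] [Nontrivial Γ], (∀ g : Γ, g ≠ 1 → ¬ IsOfFinOrder g) →
    ∀ S : Finset Γ, Subgroup.closure (S : Set Γ) = ⊤ →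
    ∀ T : Finset Γ, Subgroup.normalClosure (T : Set Γ) = ⊤ → l2Betti S ≤ (T.card : ℝ) - 1

end Run7.h952
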