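import Pool.Agent.Run7.h952.Emb3
import Pool.Agent.Run7.h952.Amp
import Pool.Agent.Run7.h952.Stmt

/-!
The amplification theorem.
-/

set_option autoImplicit false
set_option linter.unusedSectionVars false

namespace Run7.h952

open Function Pool.Agent.H919R3.Stmt

theorem TF.infinite' {G : Type} [Group G] [Nontrivial G] (hG : TF G) : Infinite G := by
  obtain ⟨x, hx⟩ := exists_ne (1 : G)
  exact hG.infinite hx

theorem ineqD_iff : IneqD ↔ OsinThom := by
  constructor
  · intro h Γ _ _ hG S hS T hT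
    have : Infinite Γ := TF.infinite' hG
    have h1 := h Γ hG S hS T hT
    rw [l2Betti_eq_dg S hS]
    linarith
  · intro h Γ _ _ hG S hS T hT
    have : Infinite Γ := TF.infinite' hG
    have h1 := h Γ hG S hS T hT
    rw [l2Betti_eq_dg S hS] at h1
    linarith

theorem fgen_iff {G : Type} [Group G] : FGen G ↔ Group.FG G :=
  Group.fg_def.symm

theorem amplification (D : Type) [Group D] (hD : TF D) (hfD : FGen D) (X : Finset D)
    (hX : X.Nonempty) (h1 : (1 : D) ∉ X) :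
    OsinThom ↔ ∃ N : ℝ, ∀ (Γ : Type) [Group Γ] (ι : D →* Γ), Injective ι →
      (∀ g : Γ, g ≠ 1 → ¬ IsOfFinOrder g) → (∀ x ∈ X, Subgroup.normalClosure {ι x} = ⊤) →
      ∀ S : Finset Γ, Subgroup.closure (S : Set Γ) = ⊤ → l2Betti S ≤ N := by
  obtain ⟨x₀, hx₀⟩ := hX
  have hx₀1 : x₀ ≠ 1 := fun h => h1 (h ▸ hx₀)
  constructor
  · intro h
    refine ⟨0, ?_⟩
    intro Γ _ ι hι hΓ hX S hS
    have : Nontrivial D := ⟨⟨x₀, 1, hx₀1⟩⟩
    have : Nontrivial Γ := hι.nontrivial
    have h2 := h Γ hΓ S hS {ι x₀} (by rw [Finset.coe_singleton]; exact hX x₀ hx₀)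
    rw [Finset.card_singleton] at h2
    simpa using h2
  · rintro ⟨N, hN⟩
    rw [← ineqD_iff]
    by_contra hfail
    obtain ⟨E, _, i, hi, hE, ⟨SE, hSE⟩, hXE⟩ := emb_set hD hfD X h1
    obtain ⟨G, _, t, S, hnt, hG, hS, ht, hlt⟩ := exists_large hfail (N + 1)
    have : Nontrivial D := ⟨⟨x₀, 1, hx₀1⟩⟩
    have hntE : Nontrivial E := hi.nontrivial
    obtain ⟨Γ, _, i', j', hi', hj', hij, hΓ, ⟨SΓ, hSΓ⟩, hn, hd⟩ :=
      double hE ⟨SE, hSE⟩ hG ⟨S, hS⟩ (i x₀) t (ne_one_of_normalClosure (hXE x₀ hx₀))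
        (ne_one_of_normalClosure ht) (hXE x₀ hx₀) ht
    have hle := hN Γ (i'.comp i) (hi'.comp hi) hΓ (by
      intro x hx
      have hn' : (Subgroup.normalClosure {i'.comp i x}).Normal := Subgroup.normalClosure_normal
      have h3 : ∀ y, i' y ∈ Subgroup.normalClosure {i'.comp i x} :=
        map_mem_of_normalClosure i' {i x} (hXE x hx) _ hn' (by
          rintro _ rfl
          exact Subgroup.subset_normalClosure rfl)
      rw [eq_top_iff, ← hn]
      refine Subgroup.normalClosure_le_normal ?_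
      rintro _ rfl
      exact h3 _) SΓ hSΓ
    have : Nontrivial Γ := hi'.nontrivial
    have : Infinite Γ := TF.infinite' hΓ
    rw [l2Betti_eq_dg SΓ hSΓ] at hle
    have h4 := hd SE S SΓ hSE hS hSΓ
    have h5 := one_le_dg hE (ne_one_of_normalClosure (hXE x₀ hx₀)) SE hSE
    linarith

end Run7.h952
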