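import Pool.Agent.Run7.h952.Amalg

/-!
Every finitely generated torsion-free group embeds in a finitely generated torsion-free group
that is the normal closure of one element.
-/

set_option autoImplicit false
set_option linter.unusedSectionVars false

namespace Run7.h952

open Function

/-- Finite generation. -/
def FGen (G : Type) [Group G] : Prop := ∃ S : Finset G, Subgroup.closure (S : Set G) = ⊤

theorem FGen.amalg {A B C G : Type} [Group A] [Group B] [Group C] [Group G] {φ : C →* A}
    {ψ : C →* B} {i : A →* G} {j : B →* G} (h : IsAmalg φ ψ i j) (hA : FGen A) (hB : FGen B) :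
    FGen G := by
  classical
  obtain ⟨SA, hSA⟩ := hA
  obtain ⟨SB, hSB⟩ := hB
  refine ⟨SA.image i ∪ SB.image j, ?_⟩
  rw [Finset.coe_union, Finset.coe_image, Finset.coe_image, Subgroup.closure_union,
    ← MonoidHom.map_closure, ← MonoidHom.map_closure, hSA, hSB, ← MonoidHom.range_eq_map,
    ← MonoidHom.range_eq_map, h.gen]

theorem TF.of_injective {A B : Type} [Group A] [Group B] (f : A →* B) (hf : Injective f)
    (h : TF B) : TF A := by
  intro a ha hfin
  refine h (f a) (fun h1 => ha (hf (by rw [h1, map_one]))) ?_
  exact f.isOfFinOrder hfin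

/-- The substitution `a ↦ b`, `b ↦ a b` as an automorphism of the free group. -/
def aut : MulAut (FreeGroup Bool) :=
  MonoidHom.toMulEquiv
    (FreeGroup.lift fun x => match x with
      | true => FreeGroup.of false
      | false => FreeGroup.of true * FreeGroup.of false)
    (FreeGroup.lift fun x => match x with
      | true => FreeGroup.of false * (FreeGroup.of true)⁻¹
      | false => FreeGroup.of true)
    (by
      ext x
      cases x <;> simp)
    (by
      ext x
      cases x <;> simp)

theorem aut_true : aut (FreeGroup.of true) = FreeGroup.of false := by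
  simp [aut]

theorem aut_false : aut (FreeGroup.of false) = FreeGroup.of true * FreeGroup.of false := by
  simp [aut]

/-- The group `F₂ ⋊ Z`. -/
abbrev KK : Type := FreeGroup Bool ⋊[zpowersHom (MulAut (FreeGroup Bool)) aut] Multiplicative ℤ

/-- The generator of the infinite cyclic factor. -/
def kt : KK := SemidirectProduct.inr (Multiplicative.ofAdd 1)

theorem kt_conj (x : FreeGroup Bool) :
    (SemidirectProduct.inl (aut x) : KK) = kt * SemidirectProduct.inl x * kt⁻¹ := by
  have h := SemidirectProduct.inl_aut (φ := zpowersHom (MulAut (FreeGroup Bool)) aut)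
    (Multiplicative.ofAdd 1) x
  rw [zpowersHom_apply] at h
  simp only [toAdd_ofAdd, zpow_one] at h
  rw [h, map_inv]
  rfl

theorem kk_normalClosure : Subgroup.normalClosure ({kt} : Set KK) = ⊤ := by
  set N := Subgroup.normalClosure ({kt} : Set KK) with hN
  have hkt : kt ∈ N := Subgroup.subset_normalClosure rfl
  have h1 : ∀ x : FreeGroup Bool,
      (SemidirectProduct.inl (aut x) : KK) * (SemidirectProduct.inl x)⁻¹ ∈ N := by
    intro x
    rw [kt_conj]
    have h2 : (SemidirectProduct.inl x : KK) * kt⁻¹ * (SemidirectProduct.inl x)⁻¹ ∈ N :=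
      (Subgroup.normalClosure_normal (s := ({kt} : Set KK))).conj_mem _ (inv_mem hkt) _
    have h3 := mul_mem hkt h2
    have h4 : kt * SemidirectProduct.inl x * kt⁻¹ * (SemidirectProduct.inl x : KK)⁻¹
        = kt * ((SemidirectProduct.inl x : KK) * kt⁻¹ * (SemidirectProduct.inl x)⁻¹) := by
      group
    rw [h4]
    exact h3
  have ha : (SemidirectProduct.inl (FreeGroup.of true) : KK) ∈ N := by
    have := h1 (FreeGroup.of false)
    rw [aut_false, map_mul, mul_inv_cancel_right] at this
    exact this
  have hb : (SemidirectProduct.inl (FreeGroup.of false) : KK) ∈ N := by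
    have := h1 (FreeGroup.of true)
    rw [aut_true] at this
    have h2 := mul_mem this ha
    rw [inv_mul_cancel_right] at h2
    exact h2
  have hinl : ∀ x : FreeGroup Bool, (SemidirectProduct.inl x : KK) ∈ N := by
    intro x
    induction x using FreeGroup.induction_on with
    | C1 => rw [map_one]; exact one_mem _
    | of x => cases x
              · exact hb
              · exact ha
    | inv_of x hx => rw [map_inv]; exact inv_mem hx
    | mul u v hu hv => rw [map_mul]; exact mul_mem hu hv
  have hinr : ∀ m : Multiplicative ℤ, (SemidirectProduct.inr m : KK) ∈ N := by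
    intro m
    have : (SemidirectProduct.inr m : KK) = kt ^ (Multiplicative.toAdd m) := by
      rw [kt, ← map_zpow]
      congr 1
      rw [← ofAdd_zsmul]
      simp
    rw [this]
    exact zpow_mem hkt _
  rw [eq_top_iff]
  intro x _
  rw [← SemidirectProduct.inl_left_mul_inr_right x]
  exact mul_mem (hinl _) (hinr _)

theorem kk_fgen : FGen KK := by
  classical
  refine ⟨{SemidirectProduct.inl (FreeGroup.of true), SemidirectProduct.inl (FreeGroup.of false),
    kt}, ?_⟩
  set N := Subgroup.closure ((({SemidirectProduct.inl (FreeGroup.of true),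
    SemidirectProduct.inl (FreeGroup.of false), kt} : Finset KK) : Set KK)) with hN
  have hinl : ∀ x : FreeGroup Bool, (SemidirectProduct.inl x : KK) ∈ N := by
    intro x
    induction x using FreeGroup.induction_on with
    | C1 => rw [map_one]; exact one_mem _
    | of x => cases x
              · exact Subgroup.subset_closure (by simp)
              · exact Subgroup.subset_closure (by simp)
    | inv_of x hx => rw [map_inv]; exact inv_mem hx
    | mul u v hu hv => rw [map_mul]; exact mul_mem hu hv
  have hinr : ∀ m : Multiplicative ℤ, (SemidirectProduct.inr m : KK) ∈ N := by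
    intro m
    have : (SemidirectProduct.inr m : KK) = kt ^ (Multiplicative.toAdd m) := by
      rw [kt, ← map_zpow]
      congr 1
      rw [← ofAdd_zsmul]
      simp
    rw [this]
    exact zpow_mem (Subgroup.subset_closure (by simp)) _
  rw [eq_top_iff]
  intro x _
  rw [← SemidirectProduct.inl_left_mul_inr_right x]
  exact mul_mem (hinl _) (hinr _)

theorem free_tf {α : Type} (x : FreeGroup α) (hx : x ≠ 1) : ¬ IsOfFinOrder x := by
  intro h
  obtain ⟨n, hn, hxn⟩ := isOfFinOrder_iff_pow_eq_one.1 h
  exact hx (IsMulTorsionFree.pow_left_injective hn.ne' (by simp [hxn]))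

theorem mulInt_tf (x : Multiplicative ℤ) (hx : x ≠ 1) : ¬ IsOfFinOrder x := by
  intro h
  obtain ⟨n, hn, hxn⟩ := isOfFinOrder_iff_pow_eq_one.1 h
  exact hx (IsMulTorsionFree.pow_left_injective hn.ne' (by simp [hxn]))

theorem kk_tf : TF KK := by
  intro x hx hfin
  have h1 : SemidirectProduct.rightHom x = 1 := by
    by_contra hne
    exact mulInt_tf _ hne (SemidirectProduct.rightHom.isOfFinOrder hfin)
  have h2 : x ∈ (SemidirectProduct.inl : FreeGroup Bool →* KK).range := by
    rw [SemidirectProduct.range_inl_eq_ker_rightHom]
    exact h1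
  obtain ⟨y, rfl⟩ := h2
  have hy : y ≠ 1 := by
    rintro rfl
    exact hx (map_one _)
  obtain ⟨n, hn, hxn⟩ := isOfFinOrder_iff_pow_eq_one.1 hfin
  rw [← map_pow] at hxn
  exact free_tf y hy (isOfFinOrder_iff_pow_eq_one.2
    ⟨n, hn, SemidirectProduct.inl_injective (by rw [hxn, map_one])⟩)

end Run7.h952
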