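import Pool.Agent.Run7.h952.Emb

/-!
Every finitely generated torsion-free group embeds in a finitely generated torsion-free group
that is the normal closure of one element.
-/

set_option autoImplicit false
set_option linter.unusedSectionVars false

namespace Run7.h952

open Function

theorem zpowers_inj {G : Type} [Group G] (hG : TF G) (x : G) (hx : x ≠ 1) :
    Injective (zpowersHom G x) := by
  rw [injective_iff_map_eq_one]
  intro m hm
  rw [zpowersHom_apply] at hm
  by_contra hne
  have hm0 : Multiplicative.toAdd m ≠ 0 := fun h => hne (by rw [← ofAdd_toAdd m, h]; rfl)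
  exact hG x hx (isOfFinOrder_iff_zpow_eq_one.2 ⟨_, hm0, hm⟩)

/-- The preimage of a normal closure which contains a normally generating set. -/
theorem map_mem_of_normalClosure {A B : Type} [Group A] [Group B] (f : A →* B) (s : Set A)
    (hs : Subgroup.normalClosure s = ⊤) (N : Subgroup B) (hN : N.Normal)
    (h : ∀ x ∈ s, f x ∈ N) : ∀ x, f x ∈ N := by
  have h1 : Subgroup.normalClosure s ≤ N.comap f :=
    Subgroup.normalClosure_le_normal (fun x hx => h x hx)
  rw [hs] at h1
  intro x
  exact h1 (Subgroup.mem_top x)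

theorem attach {G : Type} [Group G] (hG : TF G) (hfg : FGen G) (x : G) (hx : x ≠ 1) :
    ∃ (G' : Type) (_ : Group G') (i : G →* G') (t : G'), Injective i ∧ TF G' ∧ FGen G' ∧
      (∀ N : Subgroup G', N.Normal → t ∈ N → i x ∈ N) ∧
      (∀ N : Subgroup G', N.Normal → t ∈ N → (∀ g, i g ∈ N) → N = ⊤) ∧
      ∀ (H : Type) [Group H] (f : G →* H) (h : H), f x = 1 →
        ∃ F : G' →* H, (∀ g, F (i g) = f g) ∧ F t = h := by
  have hane : (SemidirectProduct.inl (FreeGroup.of true) : KK) ≠ 1 := by
    intro h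
    have h2 : (SemidirectProduct.inl (FreeGroup.of true) : KK)
        = SemidirectProduct.inl (1 : FreeGroup Bool) := by rw [h, map_one]
    exact FreeGroup.of_ne_one true (SemidirectProduct.inl_injective h2)
  obtain ⟨G', _, i, j, hA⟩ := exists_amalg (zpowersHom G x)
    (zpowersHom KK (SemidirectProduct.inl (FreeGroup.of true))) (zpowers_inj hG x hx)
    (zpowers_inj kk_tf _ hane)
  have hix : i x = j (SemidirectProduct.inl (FreeGroup.of true)) := by
    have := hA.comm (Multiplicative.ofAdd 1)
    simpa using this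
  have hjN : ∀ N : Subgroup G', N.Normal → j kt ∈ N → ∀ y, j y ∈ N := by
    intro N hN ht
    exact map_mem_of_normalClosure j {kt} kk_normalClosure N hN (by
      rintro _ rfl
      exact ht)
  refine ⟨G', inferInstance, i, j kt, hA.inj_i, hA.tf hG kk_tf, FGen.amalg hA hfg kk_fgen,
    ?_, ?_, ?_⟩
  · intro N hN ht
    rw [hix]
    exact hjN N hN ht _
  · intro N hN ht hi
    rw [eq_top_iff, ← hA.gen]
    refine sup_le ?_ ?_
    · rintro _ ⟨a, rfl⟩
      exact hi a
    · rintro _ ⟨a, rfl⟩
      exact hjN N hN ht a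
  · intro H _ f h hf
    obtain ⟨F, hF1, hF2⟩ := hA.univ H f ((zpowersHom H h).comp
      (SemidirectProduct.rightHom : KK →* Multiplicative ℤ)) (by
        intro c
        rw [zpowersHom_apply, zpowersHom_apply, map_zpow, hf, one_zpow, map_zpow,
          MonoidHom.comp_apply, SemidirectProduct.rightHom_inl, map_one, one_zpow])
    refine ⟨F, hF1, ?_⟩
    rw [hF2, MonoidHom.comp_apply, kt, SemidirectProduct.rightHom_inr, zpowersHom_apply]
    simp

/-- Two normal generators can be replaced by one. -/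
theorem step {G : Type} [Group G] (hG : TF G) (hfg : FGen G) (x y : G) (hx : x ≠ 1)
    (hy : y ≠ 1) (T : Finset G)
    (hT : ∀ N : Subgroup G, N.Normal → x ∈ N → y ∈ N → (∀ g ∈ T, g ∈ N) → N = ⊤) :
    ∃ (G' : Type) (_ : Group G') (i : G →* G') (t : G'), Injective i ∧ TF G' ∧ FGen G' ∧
      ∀ N : Subgroup G', N.Normal → t ∈ N → (∀ g ∈ T, i g ∈ N) → N = ⊤ := by
  obtain ⟨G₁, _, i₁, t₁, hi₁, hG₁, hfg₁, hx₁, hN₁, hF₁⟩ := attach hG hfg x hx
  have hy' : i₁ y ≠ 1 := fun h => hy (hi₁ (by rw [h, map_one]))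
  obtain ⟨G₂, _, i₂, t₂, hi₂, hG₂, hfg₂, hx₂, hN₂, hF₂⟩ := attach hG₁ hfg₁ (i₁ y) hy'
  let f : FreeGroup Bool →* G₂ := FreeGroup.lift fun b => match b with
    | true => i₂ t₁
    | false => t₂
  have hft : f (FreeGroup.of true) = i₂ t₁ := by simp [f]
  have hff : f (FreeGroup.of false) = t₂ := by simp [f]
  have hf : Injective f := by
    obtain ⟨F₁, hF1, hF1'⟩ := hF₁ (FreeGroup Bool) 1 (FreeGroup.of true) (by simp)
    obtain ⟨F₂, hF2, hF2'⟩ := hF₂ (FreeGroup Bool) F₁ (FreeGroup.of false) (by
      rw [hF1]; rfl)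
    have hid : F₂.comp f = MonoidHom.id _ := by
      ext b
      cases b
      · rw [MonoidHom.comp_apply, hff, hF2']; rfl
      · rw [MonoidHom.comp_apply, hft, hF2, hF1']; rfl
    intro u v huv
    have h1 := DFunLike.congr_fun hid u
    have h2 := DFunLike.congr_fun hid v
    rw [MonoidHom.comp_apply, MonoidHom.id_apply] at h1 h2
    rw [← h1, ← h2, huv]
  obtain ⟨G', _, i, j, hA⟩ := exists_amalg f (SemidirectProduct.inl : FreeGroup Bool →* KK) hf
    SemidirectProduct.inl_injective
  refine ⟨G', inferInstance, i.comp (i₂.comp i₁), j kt, ?_, hA.tf hG₂ kk_tf,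
    FGen.amalg hA hfg₂ kk_fgen, ?_⟩
  · exact hA.inj_i.comp (hi₂.comp hi₁)
  · intro N hN ht hT'
    have hjN : ∀ z, j z ∈ N := map_mem_of_normalClosure j {kt} kk_normalClosure N hN (by
      rintro _ rfl
      exact ht)
    have ht₂ : i t₂ ∈ N := by
      rw [← hff, hA.comm]
      exact hjN _
    have ht₁ : i (i₂ t₁) ∈ N := by
      rw [← hft, hA.comm]
      exact hjN _
    have hix : i (i₂ (i₁ x)) ∈ N :=
      hx₁ (N.comap (i.comp i₂)) (hN.comap _) ht₁
    have hiy : i (i₂ (i₁ y)) ∈ N :=
      hx₂ (N.comap i) (hN.comap _) ht₂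
    have h0 : N.comap (i.comp (i₂.comp i₁)) = ⊤ :=
      hT _ (hN.comap _) hix hiy hT'
    have h1 : N.comap (i.comp i₂) = ⊤ := by
      refine hN₁ _ (hN.comap _) ht₁ (fun g => ?_)
      have : g ∈ N.comap (i.comp (i₂.comp i₁)) := by rw [h0]; trivial
      exact this
    have h2 : N.comap i = ⊤ := by
      refine hN₂ _ (hN.comap _) ht₂ (fun g => ?_)
      have : g ∈ N.comap (i.comp i₂) := by rw [h1]; trivial
      exact this
    rw [eq_top_iff, ← hA.gen]
    refine sup_le ?_ ?_
    · rintro _ ⟨a, rfl⟩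
      have : a ∈ N.comap i := by rw [h2]; trivial
      exact this
    · rintro _ ⟨a, rfl⟩
      exact hjN a

theorem emb_aux (k : ℕ) : ∀ {G : Type} [Group G], TF G → FGen G → ∀ T : Finset G,
    T.card ≤ k + 1 → (∀ N : Subgroup G, N.Normal → (∀ g ∈ T, g ∈ N) → N = ⊤) →
    ∃ (G' : Type) (_ : Group G') (i : G →* G') (t : G'), Injective i ∧ TF G' ∧ FGen G' ∧
      ∀ N : Subgroup G', N.Normal → t ∈ N → N = ⊤ := by
  classical
  induction k with
  | zero =>
    intro G _ hG hfg T hT hN
    by_cases hT0 : T = ∅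
    · refine ⟨G, inferInstance, MonoidHom.id G, 1, injective_id, hG, hfg, ?_⟩
      intro N hNn _
      exact hN N hNn (by rw [hT0]; simp)
    · obtain ⟨t, ht⟩ := Finset.card_eq_one.1
        (le_antisymm hT (Finset.card_pos.2 (Finset.nonempty_iff_ne_empty.2 hT0)))
      refine ⟨G, inferInstance, MonoidHom.id G, t, injective_id, hG, hfg, ?_⟩
      intro N hNn htN
      exact hN N hNn (by rw [ht]; simpa using htN)
  | succ k ih =>
    intro G _ hG hfg T hT hN
    by_cases h1 : (1 : G) ∈ T
    · refine ih hG hfg (T.erase 1) ?_ ?_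
      · rw [Finset.card_erase_of_mem h1]
        omega
      · intro N hNn hg
        refine hN N hNn (fun g hgT => ?_)
        by_cases hg1 : g = 1
        · rw [hg1]; exact one_mem _
        · exact hg g (Finset.mem_erase.2 ⟨hg1, hgT⟩)
    · by_cases hle : T.card ≤ k + 1
      · exact ih hG hfg T hle hN
      · have h2 : 1 < T.card := by omega
        obtain ⟨x, hx, y, hy, hxy⟩ := Finset.one_lt_card.1 h2
        obtain ⟨G', _, i, t, hi, hG', hfg', hN'⟩ := step hG hfg x y
          (fun h => h1 (h ▸ hx)) (fun h => h1 (h ▸ hy)) ((T.erase x).erase y) (by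
            intro N hNn hxN hyN hg
            refine hN N hNn (fun g hgT => ?_)
            by_cases hgx : g = x
            · rw [hgx]; exact hxN
            by_cases hgy : g = y
            · rw [hgy]; exact hyN
            exact hg g (Finset.mem_erase.2 ⟨hgy, Finset.mem_erase.2 ⟨hgx, hgT⟩⟩))
        have hcard : ((T.erase x).erase y).card + 2 = T.card := by
          rw [Finset.card_erase_of_mem (Finset.mem_erase.2 ⟨fun h => hxy h.symm, hy⟩),
            Finset.card_erase_of_mem hx]
          omega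
        obtain ⟨G'', _, i', t', hi', hG'', hfg'', hN''⟩ := ih hG' hfg'
          (insert t (((T.erase x).erase y).image i)) (by
            refine (Finset.card_insert_le _ _).trans ?_
            have := Finset.card_image_le (s := (T.erase x).erase y) (f := i)
            omega) (by
            intro N hNn hg
            refine hN' N hNn (hg t (Finset.mem_insert_self _ _)) (fun g hgT => ?_)
            exact hg _ (Finset.mem_insert_of_mem (Finset.mem_image_of_mem _ hgT)))
        exact ⟨G'', inferInstance, i'.comp i, t', hi'.comp hi, hG'', hfg'', hN''⟩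

/-- Embedding theorem. -/
theorem emb {G : Type} [Group G] (hG : TF G) (hfg : FGen G) :
    ∃ (G' : Type) (_ : Group G') (i : G →* G') (t : G'), Injective i ∧ TF G' ∧ FGen G' ∧
      Subgroup.normalClosure {t} = ⊤ := by
  obtain ⟨S, hS⟩ := hfg
  obtain ⟨G', _, i, t, hi, hG', hfg', hN⟩ := emb_aux S.card hG ⟨S, hS⟩ S (Nat.le_succ _) (by
    intro N _ hg
    rw [eq_top_iff, ← hS, Subgroup.closure_le]
    exact hg)
  exact ⟨G', inferInstance, i, t, hi, hG', hfg', hN _ Subgroup.normalClosure_normal
    (Subgroup.subset_normalClosure rfl)⟩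

end Run7.h952
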