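import Pool.Agent.Run7.h952.Emb2

/-!
Every nontrivial element of a finitely generated torsion-free group normally generates some
finitely generated torsion-free overgroup.
-/

set_option autoImplicit false
set_option linter.unusedSectionVars false

namespace Run7.h952

open Function

theorem ne_one_of_normalClosure {G : Type} [Group G] [Nontrivial G] {t : G}
    (h : Subgroup.normalClosure {t} = ⊤) : t ≠ 1 := by
  rintro rfl
  obtain ⟨x, hx⟩ := exists_ne (1 : G)
  have hx' : x ∈ Subgroup.normalClosure ({1} : Set G) := by rw [h]; trivial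
  have h5 : Subgroup.normalClosure ({1} : Set G) = ⊥ := by
    rw [eq_bot_iff]
    refine Subgroup.normalClosure_le_normal ?_
    rintro _ rfl
    exact one_mem _
  rw [h5] at hx'
  exact hx (Subgroup.mem_bot.1 hx')

/-- The generator `a` of the free group, in `F₂ ⋊ Z`. -/
def ka : KK := SemidirectProduct.inl (FreeGroup.of true)

theorem ka_ne : ka ≠ 1 := by
  intro h
  have h2 : (SemidirectProduct.inl (FreeGroup.of true) : KK)
      = SemidirectProduct.inl (1 : FreeGroup Bool) := by
    rw [map_one]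
    exact h
  exact FreeGroup.of_ne_one true (SemidirectProduct.inl_injective h2)

theorem kt_ne : kt ≠ 1 := by
  intro h
  have h2 : SemidirectProduct.rightHom kt = 1 := by rw [h, map_one]
  rw [kt, SemidirectProduct.rightHom_inr] at h2
  have := congrArg Multiplicative.toAdd h2
  simp at this

theorem right_kt (n : ℤ) : SemidirectProduct.rightHom (kt ^ n) = Multiplicative.ofAdd n := by
  rw [map_zpow, kt, SemidirectProduct.rightHom_inr, ← ofAdd_zsmul]
  simp

theorem right_ka (n : ℤ) : SemidirectProduct.rightHom (ka ^ n) = 1 := by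
  rw [map_zpow, ka, SemidirectProduct.rightHom_inl, one_zpow]

theorem kt_not (n : ℤ) (hn : n ≠ 0) : kt ^ n ∉ (zpowersHom KK ka).range := by
  rintro ⟨c, hc⟩
  rw [zpowersHom_apply] at hc
  have := congrArg SemidirectProduct.rightHom hc
  rw [right_kt, right_ka] at this
  exact hn (by simpa using (congrArg Multiplicative.toAdd this).symm)

theorem ka_not (n : ℤ) (hn : n ≠ 0) : ka ^ n ∉ (zpowersHom KK kt).range := by
  rintro ⟨c, hc⟩
  rw [zpowersHom_apply] at hc
  have := congrArg SemidirectProduct.rightHom hc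
  rw [right_kt, right_ka] at this
  have h0 : Multiplicative.toAdd c = 0 := by simpa using (congrArg Multiplicative.toAdd this)
  rw [h0, zpow_zero] at hc
  exact kk_tf ka ka_ne (isOfFinOrder_iff_zpow_eq_one.2 ⟨n, hn, hc.symm⟩)

/-- Attaching a copy of `F₂ ⋊ Z` along `t = a`. -/
theorem attachK {G : Type} [Group G] (hG : TF G) (hfg : FGen G) (t : G) (ht : t ≠ 1)
    (htn : Subgroup.normalClosure {t} = ⊤) :
    ∃ (G' : Type) (_ : Group G') (i : G →* G') (j : KK →* G'),
      IsAmalg (zpowersHom G t) (zpowersHom KK ka) i j ∧ TF G' ∧ FGen G' ∧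
      Subgroup.normalClosure {j kt} = ⊤ ∧ ∀ (g : G) (n : ℤ), n ≠ 0 → i g ≠ j kt ^ n := by
  obtain ⟨G', _, i, j, hA⟩ := exists_amalg (zpowersHom G t) (zpowersHom KK ka)
    (zpowers_inj hG t ht) (zpowers_inj kk_tf ka ka_ne)
  refine ⟨G', inferInstance, i, j, hA, hA.tf hG kk_tf, FGen.amalg hA hfg kk_fgen, ?_, ?_⟩
  · have hn : (Subgroup.normalClosure {j kt}).Normal := Subgroup.normalClosure_normal
    have hj : ∀ x, j x ∈ Subgroup.normalClosure {j kt} :=
      map_mem_of_normalClosure j {kt} kk_normalClosure _ hn (by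
        rintro _ rfl
        exact Subgroup.subset_normalClosure rfl)
    have hti : i t = j ka := by
      have := hA.comm (Multiplicative.ofAdd 1)
      simpa using this
    have hi : ∀ x, i x ∈ Subgroup.normalClosure {j kt} :=
      map_mem_of_normalClosure i {t} htn _ hn (by
        rintro _ rfl
        rw [hti]
        exact hj _)
    rw [eq_top_iff, ← hA.gen]
    refine sup_le ?_ ?_
    · rintro _ ⟨x, rfl⟩
      exact hi x
    · rintro _ ⟨x, rfl⟩
      exact hj x
  · intro g n hn h
    rw [← map_zpow] at h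
    obtain ⟨c, hc⟩ := hA.inter g (kt ^ n) h
    rw [← hc, hA.comm] at h
    exact kt_not n hn ⟨c, hA.inj_j h⟩

/-- The auxiliary group `P`: normally generated by `p`, with `p, q` free. -/
theorem exists_P : ∃ (P : Type) (_ : Group P) (p q : P), TF P ∧ FGen P ∧
    Subgroup.normalClosure {p} = ⊤ ∧
    Injective (FreeGroup.lift (β := P) fun b : Bool => match b with
      | true => p
      | false => q) := by
  obtain ⟨P, _, i, j, hA⟩ := exists_amalg (zpowersHom KK ka) (zpowersHom KK kt)
    (zpowers_inj kk_tf ka ka_ne) (zpowers_inj kk_tf kt kt_ne)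
  refine ⟨P, inferInstance, i kt, j ka, hA.tf kk_tf kk_tf, FGen.amalg hA kk_fgen kk_fgen, ?_,
    hA.free kt ka kt_not ka_not⟩
  have hn : (Subgroup.normalClosure {i kt}).Normal := Subgroup.normalClosure_normal
  have hi : ∀ x, i x ∈ Subgroup.normalClosure {i kt} :=
    map_mem_of_normalClosure i {kt} kk_normalClosure _ hn (by
      rintro _ rfl
      exact Subgroup.subset_normalClosure rfl)
  have hti : i ka = j kt := by
    have := hA.comm (Multiplicative.ofAdd 1)
    simpa using this
  have hj : ∀ x, j x ∈ Subgroup.normalClosure {i kt} :=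
    map_mem_of_normalClosure j {kt} kk_normalClosure _ hn (by
      rintro _ rfl
      rw [← hti]
      exact hi _)
  rw [eq_top_iff, ← hA.gen]
  refine sup_le ?_ ?_
  · rintro _ ⟨x, rfl⟩
    exact hi x
  · rintro _ ⟨x, rfl⟩
    exact hj x

theorem emb_elt {D : Type} [Group D] (hD : TF D) (hfD : FGen D) (d : D) (hd : d ≠ 1) :
    ∃ (E : Type) (_ : Group E) (i : D →* E), Injective i ∧ TF E ∧ FGen E ∧
      Subgroup.normalClosure {i d} = ⊤ := by
  obtain ⟨D₁, _, i₁, t₀, hi₁, hD₁, hfD₁, ht₀⟩ := emb hD hfD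
  have hnt : Nontrivial D := ⟨⟨d, 1, hd⟩⟩
  have hnt₁ : Nontrivial D₁ := hi₁.nontrivial
  have hd₁ : i₁ d ≠ 1 := fun h => hd (hi₁ (by rw [h, map_one]))
  obtain ⟨D₂, _, i₂, j₂, hA₂, hD₂, hfD₂, ht₁, hd₂⟩ :=
    attachK hD₁ hfD₁ t₀ (ne_one_of_normalClosure ht₀) ht₀
  have hnt₂ : Nontrivial D₂ := hA₂.inj_i.nontrivial
  obtain ⟨D₃, _, i₃, j₃, hA₃, hD₃, hfD₃, ht₂, hd₃⟩ :=
    attachK hD₂ hfD₂ (j₂ kt) (ne_one_of_normalClosure ht₁) ht₁
  obtain ⟨P, _, p, q, hP, hfP, hp, hpq⟩ := exists_P
  have hfree := hA₃.free (i₂ (i₁ d)) kt (by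
    rintro n hn ⟨c, hc⟩
    rw [zpowersHom_apply, ← map_zpow i₂] at hc
    by_cases hc0 : Multiplicative.toAdd c = 0
    · rw [hc0, zpow_zero] at hc
      have h1 : i₁ d ^ n = 1 := hA₂.inj_i (by rw [map_one]; exact hc.symm)
      exact hD₁ _ hd₁ (isOfFinOrder_iff_zpow_eq_one.2 ⟨n, hn, h1⟩)
    · exact hd₂ _ _ hc0 hc.symm) kt_not
  obtain ⟨E, _, i, j, hA⟩ := exists_amalg _ _ hfree hpq
  refine ⟨E, inferInstance, i.comp (i₃.comp (i₂.comp i₁)), ?_, hA.tf hD₃ hP,
    FGen.amalg hA hfD₃ hfP, ?_⟩
  · exact hA.inj_i.comp (hA₃.inj_i.comp (hA₂.inj_i.comp hi₁))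
  · set N := Subgroup.normalClosure {i.comp (i₃.comp (i₂.comp i₁)) d} with hN
    have hn : N.Normal := Subgroup.normalClosure_normal
    have hdN : i (i₃ (i₂ (i₁ d))) ∈ N := Subgroup.subset_normalClosure rfl
    have h1 : i (i₃ (i₂ (i₁ d))) = j p := by
      have := hA.comm (FreeGroup.of true)
      simpa using this
    have h2 : i (j₃ kt) = j q := by
      have := hA.comm (FreeGroup.of false)
      simpa using this
    have hj : ∀ x, j x ∈ N := map_mem_of_normalClosure j {p} hp _ hn (by
      rintro _ rfl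
      rw [← h1]
      exact hdN)
    have hi : ∀ x, i x ∈ N := map_mem_of_normalClosure i {j₃ kt} ht₂ _ hn (by
      rintro _ rfl
      rw [h2]
      exact hj _)
    rw [eq_top_iff, ← hA.gen]
    refine sup_le ?_ ?_
    · rintro _ ⟨x, rfl⟩
      exact hi x
    · rintro _ ⟨x, rfl⟩
      exact hj x

/-- All elements of a finite set of nontrivial elements can be made normal generators. -/
theorem emb_set {D : Type} [Group D] (hD : TF D) (hfD : FGen D) (X : Finset D)
    (hX : (1 : D) ∉ X) :
    ∃ (E : Type) (_ : Group E) (i : D →* E), Injective i ∧ TF E ∧ FGen E ∧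
      ∀ x ∈ X, Subgroup.normalClosure {i x} = ⊤ := by
  classical
  induction X using Finset.induction_on with
  | empty => exact ⟨D, inferInstance, MonoidHom.id D, injective_id, hD, hfD, by simp⟩
  | insert d X hdX ih =>
    obtain ⟨E, _, i, hi, hE, hfE, hX'⟩ := ih (fun h => hX (Finset.mem_insert_of_mem h))
    have hd : d ≠ 1 := fun h => hX (by rw [h]; exact Finset.mem_insert_self _ _)
    obtain ⟨E', _, i', hi', hE', hfE', hd'⟩ := emb_elt hE hfE (i d)
      (fun h => hd (hi (by rw [h, map_one])))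
    refine ⟨E', inferInstance, i'.comp i, hi'.comp hi, hE', hfE', ?_⟩
    intro x hx
    rcases Finset.mem_insert.1 hx with rfl | hx
    · exact hd'
    · have hn : (Subgroup.normalClosure {i'.comp i x}).Normal := Subgroup.normalClosure_normal
      have h1 : ∀ y, i' y ∈ Subgroup.normalClosure {i'.comp i x} :=
        map_mem_of_normalClosure i' {i x} (hX' x hx) _ hn (by
          rintro _ rfl
          exact Subgroup.subset_normalClosure rfl)
      rw [eq_top_iff, ← hd']
      refine Subgroup.normalClosure_le_normal ?_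
      rintro _ rfl
      exact h1 _

end Run7.h952
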