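import Mathlib

/-!
An integer matrix `b` with trivial left kernel: the traces of the powers of `1 - K⁻¹ b bᵀ` are
small.
-/

set_option autoImplicit false
set_option linter.unusedSectionVars false

namespace Run7.h952

open Matrix

/-- harmonic sums -/
noncomputable def hs (J : ℕ) : ℝ := ∑ l ∈ Finset.range J, 1 / ((l : ℝ) + 1)

theorem log_bound (x : ℝ) (h0 : 0 ≤ x) (h1 : x < 1) (J : ℕ) :
    x ^ J * hs J ≤ -Real.log (1 - x) := by
  have h := Real.hasSum_pow_div_log_of_abs_lt_one (x := x) (by rw [abs_of_nonneg h0]; exact h1)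
  have h2 := sum_le_hasSum (Finset.range J) (fun n _ => by positivity) h
  refine le_trans ?_ h2
  unfold hs
  rw [Finset.mul_sum]
  refine Finset.sum_le_sum fun l hl => ?_
  rw [mul_one_div]
  have h3 : x ^ J ≤ x ^ (l + 1) :=
    pow_le_pow_of_le_one h0 h1.le (by have := Finset.mem_range.1 hl; omega)
  gcongr

theorem trace_pow_eq {ι : Type} [Fintype ι] [DecidableEq ι] (M : Matrix ι ι ℝ)
    (hM : M.IsHermitian) (J : ℕ) : (M ^ J).trace = ∑ i, hM.eigenvalues i ^ J := by
  have h1 : M ^ J = Unitary.conjStarAlgAut ℝ _ hM.eigenvectorUnitary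
      (diagonal (hM.eigenvalues ^ J)) := by
    conv_lhs => rw [hM.spectral_theorem]
    rw [← map_pow, diagonal_pow]
    rfl
  rw [h1, Unitary.conjStarAlgAut_apply, Matrix.trace_mul_comm, ← mul_assoc]
  simp

theorem trace_bound {ι κ : Type} [Fintype ι] [Fintype κ] [DecidableEq ι] (b : Matrix ι κ ℤ)
    (hb : ∀ u : ι → ℤ, Matrix.vecMul u b = 0 → u = 0) (K : ℝ) (hK : 1 ≤ K)
    (hbd : ∀ f : ι → ℝ, ∑ k, (∑ i, f i * (b i k : ℝ)) ^ 2 ≤ K * ∑ i, f i ^ 2) (J : ℕ) :
    (((1 : Matrix ι ι ℝ) - K⁻¹ • ((b.map (Int.cast : ℤ → ℝ)) *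
      (b.map (Int.cast : ℤ → ℝ))ᵀ)) ^ J).trace * hs J ≤ Fintype.card ι * Real.log K := by
  set B : Matrix ι κ ℝ := b.map (Int.cast : ℤ → ℝ) with hB
  set M : Matrix ι ι ℝ := 1 - K⁻¹ • (B * Bᵀ) with hM
  have hKpos : 0 < K := by linarith
  have hMh : M.IsHermitian := by
    rw [Matrix.IsHermitian, conjTranspose_eq_transpose_of_trivial, hM, transpose_sub,
      transpose_one, transpose_smul, transpose_mul, transpose_transpose]
  -- quadratic form
  have hquad : ∀ f : ι → ℝ, f ⬝ᵥ (B * Bᵀ) *ᵥ f = ∑ k, (∑ i, f i * (b i k : ℝ)) ^ 2 := by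
    intro f
    rw [← Matrix.mulVec_mulVec, Matrix.dotProduct_mulVec, ← Matrix.mulVec_transpose,
      dotProduct]
    refine Finset.sum_congr rfl fun k _ => ?_
    rw [pow_two]
    have : (Bᵀ *ᵥ f) k = ∑ i, f i * (b i k : ℝ) := by
      simp only [Matrix.mulVec, dotProduct, Matrix.transpose_apply, hB, Matrix.map_apply]
      exact Finset.sum_congr rfl fun i _ => mul_comm _ _
    rw [this]
  -- the determinant
  have hdetne : (b * bᵀ).det ≠ 0 := by
    intro h0
    obtain ⟨u, hu, hu0⟩ := Matrix.exists_mulVec_eq_zero_iff.2 h0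
    apply hu
    apply hb
    have h1 : u ⬝ᵥ (b * bᵀ) *ᵥ u = 0 := by rw [hu0, dotProduct_zero]
    rw [← Matrix.mulVec_mulVec, Matrix.dotProduct_mulVec, ← Matrix.mulVec_transpose,
      dotProduct] at h1
    rw [Finset.sum_eq_zero_iff_of_nonneg (fun i _ => mul_self_nonneg _)] at h1
    ext k
    have h2 := h1 k (Finset.mem_univ k)
    have h3 : (bᵀ *ᵥ u) k = 0 := mul_self_eq_zero.1 h2
    rw [Matrix.mulVec_transpose] at h3
    exact h3
  have hdet : (B * Bᵀ).det = (((b * bᵀ).det : ℤ) : ℝ) := by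
    have h1 := RingHom.map_det (Int.castRingHom ℝ) (b * bᵀ)
    have h2 : (Int.castRingHom ℝ).mapMatrix (b * bᵀ) = B * Bᵀ := by
      rw [RingHom.mapMatrix_apply, Matrix.map_mul]
      rfl
    rw [h2] at h1
    exact h1.symm
  have hpsd : (B * Bᵀ).PosSemidef := by
    have := Matrix.posSemidef_self_mul_conjTranspose B
    rwa [conjTranspose_eq_transpose_of_trivial] at this
  have hdet1 : 1 ≤ (B * Bᵀ).det := by
    have h1 : 0 ≤ (B * Bᵀ).det := hpsd.det_nonneg
    rw [hdet] at h1 ⊢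
    have h2 : 0 ≤ (b * bᵀ).det := by exact_mod_cast h1
    have h3 : 1 ≤ (b * bᵀ).det := by omega
    exact_mod_cast h3
  -- the product of `1 - μ`
  have hprod : ∏ i, (1 - hMh.eigenvalues i) = K⁻¹ ^ Fintype.card ι * (B * Bᵀ).det := by
    have h1 := congrArg (Polynomial.eval 1) hMh.charpoly_eq
    rw [Matrix.eval_charpoly, Polynomial.eval_prod] at h1
    have h2 : (Matrix.scalar ι (1 : ℝ) - M) = K⁻¹ • (B * Bᵀ) := by
      rw [hM]
      simp
    rw [h2, Matrix.det_smul] at h1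
    rw [h1]
    refine Finset.prod_congr rfl fun i _ => ?_
    simp
  -- bounds of the eigenvalues
  have hev : ∀ i, 0 ≤ hMh.eigenvalues i ∧ hMh.eigenvalues i ≤ 1 := by
    intro i
    set v : ι → ℝ := ⇑(hMh.eigenvectorBasis i) with hv
    have hMv : M *ᵥ v = hMh.eigenvalues i • v := hMh.mulVec_eigenvectorBasis i
    have hnorm : v ⬝ᵥ v = 1 := by
      have h1 := hMh.eigenvectorBasis.orthonormal.1 i
      have h2 : ‖hMh.eigenvectorBasis i‖ ^ 2 = ∑ j, v j ^ 2 := by
        rw [EuclideanSpace.norm_sq_eq]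
        refine Finset.sum_congr rfl fun j _ => ?_
        rw [Real.norm_eq_abs, sq_abs]
      rw [h1] at h2
      rw [dotProduct]
      simp only [← pow_two]
      rw [← h2]
      norm_num
    have h3 : v ⬝ᵥ M *ᵥ v = hMh.eigenvalues i := by
      rw [hMv, dotProduct_smul, hnorm]
      simp
    have h4 : v ⬝ᵥ M *ᵥ v = 1 - K⁻¹ * ∑ k, (∑ i, v i * (b i k : ℝ)) ^ 2 := by
      rw [hM, Matrix.sub_mulVec, dotProduct_sub, Matrix.one_mulVec, hnorm, Matrix.smul_mulVec,
        dotProduct_smul, hquad, smul_eq_mul]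
    have h5 := hbd v
    have h6 : ∑ i, v i ^ 2 = 1 := by
      rw [← hnorm, dotProduct]
      exact Finset.sum_congr rfl fun j _ => pow_two _
    rw [h6, mul_one] at h5
    have h7 : 0 ≤ ∑ k, (∑ i, v i * (b i k : ℝ)) ^ 2 := by positivity
    have h8 : K⁻¹ * ∑ k, (∑ i, v i * (b i k : ℝ)) ^ 2 ≤ 1 := by
      rw [inv_mul_le_iff₀ hKpos, mul_one]
      exact h5
    have h9 : 0 ≤ K⁻¹ * ∑ k, (∑ i, v i * (b i k : ℝ)) ^ 2 := by positivity
    rw [← h3, h4]
    constructor <;> linarith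
  have hprodpos : 0 < ∏ i, (1 - hMh.eigenvalues i) := by
    rw [hprod]
    have : 0 < (B * Bᵀ).det := by linarith
    positivity
  have hlt : ∀ i, hMh.eigenvalues i < 1 := by
    intro i
    refine lt_of_le_of_ne (hev i).2 fun h => ?_
    have : ∏ i, (1 - hMh.eigenvalues i) = 0 :=
      Finset.prod_eq_zero (Finset.mem_univ i) (by rw [h, sub_self])
    linarith
  have hlog : ∑ i, -Real.log (1 - hMh.eigenvalues i) ≤ Fintype.card ι * Real.log K := by
    rw [Finset.sum_neg_distrib, ← Real.log_prod (fun i _ => by have := hlt i; linarith), hprod,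
      Real.log_mul (by positivity) (by linarith), Real.log_pow, Real.log_inv]
    have := Real.log_nonneg hdet1
    linarith
  rw [trace_pow_eq M hMh, Finset.sum_mul]
  refine le_trans ?_ hlog
  exact Finset.sum_le_sum fun i _ => log_bound _ (hev i).1 (hlt i) J

end Run7.h952
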