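import Mathlib

/-!
Fox derivatives as finitely supported functions, and push-forwards.
-/

set_option autoImplicit false
set_option linter.unusedSectionVars false

namespace Run7.h952

section
variable {G Y : Type} [Group G] {R : Type} [CommRing R]

/-- left translation -/
noncomputable def ltr (w : G) : ((G × Y) →₀ R) →ₗ[R] ((G × Y) →₀ R) :=
  Finsupp.lmapDomain R R fun p => (w * p.1, p.2)

theorem ltr_single (w : G) (p : G × Y) (a : R) :
    ltr w (Finsupp.single p a) = Finsupp.single (w * p.1, p.2) a := by
  unfold ltr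
  rw [Finsupp.lmapDomain_apply, Finsupp.mapDomain_single]

theorem ltr_mul (v w : G) (L : (G × Y) →₀ R) : ltr (v * w) L = ltr v (ltr w L) := by
  induction L using Finsupp.induction_linear with
  | zero => simp
  | add f g hf hg => rw [map_add, map_add, map_add, hf, hg]
  | single p a => rw [ltr_single, ltr_single, ltr_single, mul_assoc]

theorem ltr_one (L : (G × Y) →₀ R) : ltr (1 : G) L = L := by
  induction L using Finsupp.induction_linear with
  | zero => simp
  | add f g hf hg => rw [map_add, hf, hg]
  | single p a => rw [ltr_single, one_mul]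

end

section
variable {X : Type}

/-- The affine map `f ↦ x f + δ₍₁,ₓ₎`. -/
noncomputable def affZ (x : X) : Equiv.Perm ((FreeGroup X × X) →₀ ℤ) where
  toFun f := ltr (FreeGroup.of x) f + Finsupp.single (1, x) 1
  invFun f := ltr (FreeGroup.of x)⁻¹ (f - Finsupp.single (1, x) 1)
  left_inv f := by
    change ltr (FreeGroup.of x)⁻¹ (ltr (FreeGroup.of x) f + Finsupp.single (1, x) 1
      - Finsupp.single (1, x) 1) = f
    rw [add_sub_cancel_right, ← ltr_mul, inv_mul_cancel, ltr_one]
  right_inv f := by
    change ltr (FreeGroup.of x) (ltr (FreeGroup.of x)⁻¹ (f - Finsupp.single (1, x) 1))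
      + Finsupp.single (1, x) 1 = f
    rw [← ltr_mul, mul_inv_cancel, ltr_one, sub_add_cancel]

/-- The Fox derivatives of a word. -/
noncomputable def Dz (w : FreeGroup X) : (FreeGroup X × X) →₀ ℤ :=
  FreeGroup.lift (fun x => affZ x) w 0

theorem affZ_apply (w : FreeGroup X) (f : (FreeGroup X × X) →₀ ℤ) :
    FreeGroup.lift (fun x => affZ x) w f = ltr w f + Dz w := by
  unfold Dz
  induction w using FreeGroup.induction_on generalizing f with
  | C1 =>
    rw [map_one, ltr_one]
    simp
  | of x =>
    rw [FreeGroup.lift_apply_of]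
    change ltr (FreeGroup.of x) f + Finsupp.single (1, x) 1
      = ltr (FreeGroup.of x) f + (ltr (FreeGroup.of x) 0 + Finsupp.single (1, x) 1)
    rw [map_zero, zero_add]
  | inv_of x _ =>
    rw [map_inv, FreeGroup.lift_apply_of]
    change ltr (FreeGroup.of x)⁻¹ (f - Finsupp.single (1, x) 1) = ltr (FreeGroup.of x)⁻¹ f
      + ltr (FreeGroup.of x)⁻¹ (0 - Finsupp.single (1, x) 1)
    rw [← map_add]
    congr 1
    abel
  | mul u v hu hv =>
    rw [map_mul, Equiv.Perm.mul_apply, Equiv.Perm.mul_apply, hv f, hu, hu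
      ((FreeGroup.lift (fun x => affZ x) v) 0), map_add, ← ltr_mul]
    rw [add_assoc]

theorem Dz_of (x : X) : Dz (FreeGroup.of x) = Finsupp.single (1, x) 1 := by
  unfold Dz
  rw [FreeGroup.lift_apply_of]
  change ltr (FreeGroup.of x) 0 + Finsupp.single ((1 : FreeGroup X), x) (1 : ℤ) = _
  rw [map_zero, zero_add]

theorem Dz_one : Dz (1 : FreeGroup X) = 0 := by
  unfold Dz; rw [map_one]; rfl

theorem Dz_mul (u v : FreeGroup X) : Dz (u * v) = Dz u + ltr u (Dz v) := by
  conv_lhs => unfold Dz
  rw [map_mul, Equiv.Perm.mul_apply, affZ_apply]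
  rw [add_comm]
  rfl

theorem Dz_inv (u : FreeGroup X) : Dz u⁻¹ = - ltr u⁻¹ (Dz u) := by
  have h := Dz_mul u⁻¹ u
  rw [inv_mul_cancel, Dz_one] at h
  exact eq_neg_of_add_eq_zero_left h.symm

/-- The exponent sums of a word. -/
noncomputable def abz (w : FreeGroup X) : X →₀ ℤ := Finsupp.mapDomain Prod.snd (Dz w)

theorem mapDomain_snd_ltr (w : FreeGroup X) (L : (FreeGroup X × X) →₀ ℤ) :
    Finsupp.mapDomain Prod.snd (ltr w L) = Finsupp.mapDomain Prod.snd L := by
  induction L using Finsupp.induction_linear with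
  | zero => simp
  | add f g hf hg => rw [map_add, Finsupp.mapDomain_add, Finsupp.mapDomain_add, hf, hg]
  | single p a => rw [ltr_single, Finsupp.mapDomain_single, Finsupp.mapDomain_single]

theorem abz_mul (u v : FreeGroup X) : abz (u * v) = abz u + abz v := by
  unfold abz
  rw [Dz_mul, Finsupp.mapDomain_add, mapDomain_snd_ltr]

theorem abz_one : abz (1 : FreeGroup X) = 0 := by
  unfold abz; rw [Dz_one, Finsupp.mapDomain_zero]

theorem abz_of (x : X) : abz (FreeGroup.of x) = Finsupp.single x 1 := by
  unfold abz; rw [Dz_of, Finsupp.mapDomain_single]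

/-- The exponent sums as a homomorphism. -/
noncomputable def abH : FreeGroup X →* Multiplicative (X →₀ ℤ) where
  toFun w := Multiplicative.ofAdd (abz w)
  map_one' := by rw [abz_one]; rfl
  map_mul' u v := by rw [abz_mul]; rfl

/-- If `K` normally generates the free group, the exponent sums of `K` generate. -/
theorem closure_abz (K : Set (FreeGroup X)) (hK : Subgroup.normalClosure K = ⊤) :
    AddSubgroup.closure (abz '' K) = ⊤ := by
  set Λ := AddSubgroup.closure (abz '' K) with hΛ
  let N : Subgroup (FreeGroup X) := (AddSubgroup.toSubgroup Λ).comap abH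
  have hN : N.Normal := Subgroup.Normal.comap inferInstance _
  have h1 : Subgroup.normalClosure K ≤ N := by
    refine Subgroup.normalClosure_le_normal ?_
    intro w hw
    change abz w ∈ Λ
    exact AddSubgroup.subset_closure ⟨w, hw, rfl⟩
  rw [hK] at h1
  rw [eq_top_iff]
  intro z _
  induction z using Finsupp.induction_linear with
  | zero => exact zero_mem _
  | add f g hf hg => exact add_mem (hf trivial) (hg trivial)
  | single x a =>
    have h2 : abz (FreeGroup.of x) ∈ Λ := h1 (Subgroup.mem_top (FreeGroup.of x))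
    rw [abz_of] at h2
    have h3 : Finsupp.single x a = a • Finsupp.single x (1 : ℤ) := by
      rw [Finsupp.smul_single, smul_eq_mul, mul_one]
    rw [h3]
    exact AddSubgroup.zsmul_mem _ h2 a

theorem exists_fin_closure {A B : Type} [AddCommGroup B] (f : A → B) (K : Set A) (y : B)
    (hy : y ∈ AddSubgroup.closure (f '' K)) :
    ∃ U : Finset A, (U : Set A) ⊆ K ∧ y ∈ AddSubgroup.closure (f '' (U : Set A)) := by
  classical
  induction hy using AddSubgroup.closure_induction with
  | mem y hy =>
    obtain ⟨a, ha, rfl⟩ := hy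
    exact ⟨{a}, by simpa using ha, AddSubgroup.subset_closure ⟨a, by simp, rfl⟩⟩
  | zero => exact ⟨∅, by simp, zero_mem _⟩
  | add y z _ _ hy hz =>
    obtain ⟨U, hU, hy⟩ := hy
    obtain ⟨V, hV, hz⟩ := hz
    refine ⟨U ∪ V, by rw [Finset.coe_union]; exact Set.union_subset hU hV, ?_⟩
    exact add_mem (AddSubgroup.closure_mono (Set.image_mono (by simp)) hy)
      (AddSubgroup.closure_mono (Set.image_mono (by simp)) hz)
  | neg y _ hy =>
    obtain ⟨U, hU, hy⟩ := hy
    exact ⟨U, hU, neg_mem hy⟩

/-- Finitely many words whose exponent sums generate. -/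
theorem exists_U [Fintype X] (K : Set (FreeGroup X)) (hK : Subgroup.normalClosure K = ⊤) :
    ∃ U : Finset (FreeGroup X), (U : Set (FreeGroup X)) ⊆ K ∧
      AddSubgroup.closure (abz '' (U : Set (FreeGroup X))) = ⊤ := by
  classical
  have h := closure_abz K hK
  have h1 : ∀ x : X, ∃ U : Finset (FreeGroup X), (U : Set (FreeGroup X)) ⊆ K ∧
      Finsupp.single x (1 : ℤ) ∈ AddSubgroup.closure (abz '' (U : Set (FreeGroup X))) :=
    fun x => exists_fin_closure abz K _ (by rw [h]; trivial)
  choose U hU hx using h1
  refine ⟨Finset.univ.biUnion U, ?_, ?_⟩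
  · intro w hw
    obtain ⟨x, _, hw⟩ := Finset.mem_biUnion.1 (Finset.mem_coe.1 hw)
    exact hU x hw
  · rw [eq_top_iff]
    intro z _
    induction z using Finsupp.induction_linear with
    | zero => exact zero_mem _
    | add f g hf hg => exact add_mem (hf trivial) (hg trivial)
    | single x a =>
      have h3 : Finsupp.single x a = a • Finsupp.single x (1 : ℤ) := by
        rw [Finsupp.smul_single, smul_eq_mul, mul_one]
      rw [h3]
      refine AddSubgroup.zsmul_mem _ ?_ a
      refine AddSubgroup.closure_mono (Set.image_mono ?_) (hx x)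
      intro w hw
      exact Finset.mem_coe.2 (Finset.mem_biUnion.2 ⟨x, Finset.mem_univ x, hw⟩)

end

end Run7.h952
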