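import Pool.Agent.Run7.h952.Pot

/-!
The dimension of the space of gradients does not change under injective homomorphisms.
-/

set_option autoImplicit false
set_option linter.unusedSectionVars false

open scoped InnerProductSpace InnerProduct ENNReal
open Filter Topology

namespace Run7.h952

open Pool.Agent.H919R3.L2 Pool.Agent.H919R3.Stmt Pool.Agent.TH714.L2

section
variable {A G : Type} [Group A] [Group G] (i : A →* G) (hi : Function.Injective i)

open Classical in
/-- the image of an element of `S` -/
noncomputable def imS (S : Finset A) (s : S) : (S.image i : Finset G) :=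
  ⟨i s, Finset.mem_image_of_mem i s.2⟩

include hi in
open Classical in
theorem exists_res (S : Finset A) : ∃ R : EE G (S.image i : Finset G) →L[ℂ] EE A S,
    ∀ f a s, R f (a, s) = f (i a, imS i S s) := by
  obtain ⟨T, hT⟩ := exists_op (X := G × (S.image i : Finset G)) (Y := A × S)
    { toFun := fun f y => f (i y.1, imS i S y.2)
      map_add' := by intro f g; ext y; rfl
      map_smul' := by intro c f; ext y; rfl }
    (by
      intro y
      exact continuous_apply (i y.1, imS i S y.2))
    (by
      intro f
      apply memlp_prod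
      intro s
      exact memlp_comp_inj (fun a : A => (i a, imS i S s)) (by
        intro a b hab
        exact hi (Prod.ext_iff.1 hab).1) _ f.2)
  exact ⟨T, fun f a s => hT f (a, s)⟩

include hi in
open Classical in
theorem dg_image (S : Finset A) : dg (S.image i) = dg S := by
  obtain ⟨R, hR⟩ := exists_res i hi S
  set P := (finCycles S)ᗮ with hP
  set Q := (finCycles (S.image i))ᗮ with hQ
  have himS : Function.Injective (imS i S) := by
    intro s t hst
    have := congrArg (fun z : (S.image i : Finset G) => (z : G)) hst
    exact Subtype.ext (hi this)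
  -- restriction of gradients
  have hRQ : ∀ w ∈ Q, R w ∈ P := by
    intro w hw
    obtain ⟨F, hF⟩ := exists_potential _ w hw
    refine grad_orth S (fun a => F (i a)) _ ?_
    intro a s
    rw [hR, hF, map_mul]
    rfl
  have hRdl : ∀ (g : G) (t : (S.image i : Finset G)) (a : A) (s : S),
      R (dl (g, t)) (a, s) = if (g, t) = (i a, imS i S s) then 1 else 0 := by
    intro g t a s
    rw [hR]
    split_ifs with h
    · rw [h, dl_apply_self]
    · rw [dl_apply_ne]
      exact fun h' => h h'.symm
  -- extension by zero
  have hE1 : ∀ (v : EE A S) (a : A) (s : S),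
      ContinuousLinearMap.adjoint R v (i a, imS i S s) = v (a, s) := by
    intro v a s
    rw [← inner_dl_left, ContinuousLinearMap.adjoint_inner_right]
    have : R (dl (i a, imS i S s)) = dl (a, s) := by
      ext ⟨b, t⟩
      rw [hRdl]
      split_ifs with h
      · have h1 : a = b := hi (Prod.ext_iff.1 h).1
        have h2 : s = t := himS (Prod.ext_iff.1 h).2
        rw [h1, h2, dl_apply_self]
      · rw [dl_apply_ne]
        intro h'
        apply h
        have e1 : b = a := (Prod.ext_iff.1 h').1
        have e2 : t = s := (Prod.ext_iff.1 h').2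
        rw [e1, e2]
    rw [this, inner_dl_left]
  have hE0 : ∀ (v : EE A S) (g : G) (t : (S.image i : Finset G)), g ∉ i.range →
      ContinuousLinearMap.adjoint R v (g, t) = 0 := by
    intro v g t hg
    rw [← inner_dl_left, ContinuousLinearMap.adjoint_inner_right]
    have : R (dl (g, t)) = 0 := by
      ext ⟨b, s⟩
      rw [hRdl, if_neg]
      · rfl
      · intro h
        exact hg ⟨b, (Prod.ext_iff.1 h).1.symm⟩
    rw [this, inner_zero_left]
  have hRE : ∀ v : EE A S, R (ContinuousLinearMap.adjoint R v) = v := by
    intro v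
    ext ⟨a, s⟩
    rw [hR, hE1]
  have hEQ : ∀ u ∈ P, ContinuousLinearMap.adjoint R u ∈ Q := by
    intro u hu
    obtain ⟨F, hF⟩ := exists_potential _ u hu
    let F' : G → ℂ := fun g => if h : ∃ a, i a = g then F h.choose else 0
    have hF' : ∀ a, F' (i a) = F a := by
      intro a
      have hex : ∃ b, i b = i a := ⟨a, rfl⟩
      have h1 : hex.choose = a := hi hex.choose_spec
      change (if h : ∃ b, i b = i a then F h.choose else 0) = F a
      rw [dif_pos hex, h1]
    have hF0 : ∀ g, g ∉ i.range → F' g = 0 := by
      intro g hg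
      exact dif_neg (fun ⟨a, ha⟩ => hg ⟨a, ha⟩)
    refine grad_orth _ F' _ ?_
    intro g t
    obtain ⟨s, rfl⟩ : ∃ s, imS i S s = t := by
      obtain ⟨t, ht⟩ := t
      obtain ⟨s, hs, rfl⟩ := Finset.mem_image.1 ht
      exact ⟨⟨s, hs⟩, rfl⟩
    by_cases hg : g ∈ i.range
    · obtain ⟨a, rfl⟩ := hg
      rw [hE1, hF]
      have : i a * ((imS i S s : (S.image i : Finset G)) : G) = i (a * s) := (map_mul i a s).symm
      rw [this, hF', hF']
    · rw [hE0 _ _ _ hg, hF0 g hg, hF0 _ ?_, sub_zero]
      intro h
      apply hg
      have h1 : i (s : A) ∈ i.range := ⟨_, rfl⟩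
      have h2 := mul_mem h (inv_mem h1)
      have h3 : g * ((imS i S s : (S.image i : Finset G)) : G) * (i (s : A))⁻¹ = g := by
        change g * i (s : A) * (i (s : A))⁻¹ = g
        group
      rwa [h3] at h2
  have hproj : ∀ s : S, Q.starProjection (dl ((1 : G), imS i S s))
      = ContinuousLinearMap.adjoint R (P.starProjection (dl ((1 : A), s))) := by
    intro s
    apply Submodule.eq_starProjection_of_mem_of_inner_eq_zero
    · exact hEQ _ (Submodule.starProjection_apply_mem _ _)
    · intro w hw
      rw [inner_sub_left, ContinuousLinearMap.adjoint_inner_left, inner_dl_left]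
      have h1 := Submodule.starProjection_inner_eq_zero (dl ((1 : A), s)) (R w) (hRQ w hw)
      rw [inner_sub_left, inner_dl_left, hR, map_one] at h1
      exact h1
  have hnorm : ∀ v : EE A S, ‖ContinuousLinearMap.adjoint R v‖ ^ 2 = ‖v‖ ^ 2 := by
    intro v
    have h1 : ⟪ContinuousLinearMap.adjoint R v, ContinuousLinearMap.adjoint R v⟫_ℂ = ⟪v, v⟫_ℂ := by
      rw [ContinuousLinearMap.adjoint_inner_left, hRE]
    rw [inner_self_eq_norm_sq_to_K, inner_self_eq_norm_sq_to_K] at h1
    exact_mod_cast h1
  unfold dg
  change tau Q = tau P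
  unfold tau
  have hbij : Function.Bijective (imS i S) := ⟨himS, by
    rintro ⟨t, ht⟩
    obtain ⟨s, hs, rfl⟩ := Finset.mem_image.1 ht
    exact ⟨⟨s, hs⟩, rfl⟩⟩
  rw [← Function.Bijective.sum_comp hbij]
  refine Finset.sum_congr rfl fun s _ => ?_
  rw [hproj, hnorm]

end

end Run7.h952
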