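import Pool.Agent.Run7.h952.Amp2

/-!
Rigidity: if the first L²-Betti number vanishes, a function with square-summable gradient which is
right invariant under an element of infinite order is constant.
-/

set_option autoImplicit false
set_option linter.unusedSectionVars false

open scoped InnerProductSpace InnerProduct ENNReal
open Filter Topology

namespace Run7.h952

open Pool.Agent.H919R3.L2 Pool.Agent.H919R3.Stmt Pool.Agent.TH714.L2

section
variable {G : Type} [Group G]

theorem inv_eq_zero_of_right_inv (t : G) (ht : ∀ n : ℤ, n ≠ 0 → t ^ n ≠ 1) (f : EE G Unit)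
    (hf : ∀ h, f (h * t, ()) = f (h, ())) : f = 0 := by
  have h1 : ∀ (n : ℕ) (h : G), f (h * t ^ n, ()) = f (h, ()) := by
    intro n
    induction n with
    | zero => intro h; simp
    | succ n ih => intro h; rw [pow_succ, ← mul_assoc, hf, ih]
  ext ⟨h, u⟩
  change f (h, ()) = 0
  have h4 : Tendsto (fun n : ℕ => f (h * t ^ n, ())) atTop (𝓝 0) := by
    refine tendsto_zero_of_inj (fun x => f x) f.2 (fun n : ℕ => (h * t ^ n, ())) ?_
    intro a b hab
    have h2 : h * t ^ a = h * t ^ b := (Prod.ext_iff.1 hab).1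
    have h3 : t ^ a = t ^ b := mul_left_cancel h2
    by_contra hne
    apply ht ((a : ℤ) - b) (by omega)
    rw [zpow_sub, zpow_natCast, zpow_natCast, h3, mul_inv_cancel]
  simp only [h1] at h4
  exact tendsto_nhds_unique tendsto_const_nhds h4

/-- A closed invariant space of gradients which contains no gradient of a square-summable function
has dimension at most `dg S - 1`. -/
theorem tau_le_of_disjoint (S : Finset G) (V : Submodule ℂ (EE G S))
    [V.HasOrthogonalProjection] (hVi : Pool.Agent.TH714.L2.Inv V) (hV : V ≤ (finCycles S)ᗮ)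
    (hT : ∀ f, T0 S f ∈ V → f = 0) : tau V + 1 ≤ dg S := by
  set W := (finCycles S)ᗮ with hW
  have hWcl : IsClosed (W : Set (EE G S)) := Submodule.isClosed_orthogonal _
  have hQcl : IsClosed ((W ⊓ Vᗮ : Submodule ℂ (EE G S)) : Set (EE G S)) := by
    rw [Submodule.coe_inf]
    exact hWcl.inter (Submodule.isClosed_orthogonal _)
  have c : CompleteSpace (W ⊓ Vᗮ : Submodule ℂ (EE G S)) := hQcl.completeSpace_coe
  have hsub := tau_sub V W (W ⊓ Vᗮ) hV rfl
  have hQinv : Pool.Agent.TH714.L2.Inv (W ⊓ Vᗮ) := by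
    intro k f hf
    exact ⟨(finCycles_inv S).orth _ _ hf.1, hVi.orth _ _ hf.2⟩
  let R : EE G Unit →L[ℂ] EE G S := (W ⊓ Vᗮ).starProjection.comp (T0 S)
  have hR : Eqv R := by
    intro k f
    change (W ⊓ Vᗮ).starProjection (T0 S (tr k f)) = _
    rw [T0_eqv, hQinv.proj]
    rfl
  have hinj : Function.Injective R := by
    rw [injective_iff_map_eq_zero]
    intro f hf
    apply hT
    have h1 : T0 S f ∈ W := grad_orth S (fun h => f (h, ())) _ (fun h s => T0_apply S f h s)
    have h2 : (W ⊓ Vᗮ).starProjection (T0 S f) = 0 := hf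
    have h3 : T0 S f - V.starProjection (T0 S f) ∈ W ⊓ Vᗮ := by
      refine ⟨W.sub_mem h1 (hV (Submodule.starProjection_apply_mem _ _)), ?_⟩
      exact Submodule.sub_starProjection_mem_orthogonal _
    have h4 : ⟪T0 S f, T0 S f - V.starProjection (T0 S f)⟫_ℂ = 0 := by
      rw [Submodule.starProjection_apply_eq_zero_iff] at h2
      exact Submodule.inner_left_of_mem_orthogonal h3 h2
    have h5 : ⟪V.starProjection (T0 S f), T0 S f - V.starProjection (T0 S f)⟫_ℂ = 0 :=
      Submodule.inner_right_of_mem_orthogonal (Submodule.starProjection_apply_mem _ _) h3.2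
    have h6 : T0 S f - V.starProjection (T0 S f) = 0 := by
      rw [← inner_self_eq_zero (𝕜 := ℂ), inner_sub_left, h4, h5, sub_zero]
    rw [sub_eq_zero.1 h6]
    exact Submodule.starProjection_apply_mem _ _
  have h1 := card_le_tau R hR hinj _ rfl
  have h2 : (LinearMap.range (R : EE G Unit →ₗ[ℂ] EE G S)).topologicalClosure ≤ W ⊓ Vᗮ := by
    apply Submodule.topologicalClosure_minimal _ _ hQcl
    rintro _ ⟨f, rfl⟩
    exact Submodule.starProjection_apply_mem _ _
  have h3 := tau_mono _ _ h2
  simp only [Fintype.card_unit, Nat.cast_one] at h1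
  have h4 : tau W = dg S := rfl
  linarith

theorem rigid (S : Finset G) (hS : Subgroup.closure (S : Set G) = ⊤) (hd : dg S ≤ 1) (t : G)
    (ht : ∀ n : ℤ, n ≠ 0 → t ^ n ≠ 1) (F : G → ℂ) (f : EE G S) (hf : IsGrad S F f)
    (hF : ∀ h, F (h * t) = F h) : ∀ h, F h = F 1 := by
  classical
  obtain ⟨T, hT, hTF⟩ := exists_transport' S {t} (fun s _ => by rw [hS]; trivial)
  set W := (finCycles S)ᗮ with hW
  let V : Submodule ℂ (EE G S) := W ⊓ LinearMap.ker (T : EE G S →ₗ[ℂ] EE G ({t} : Finset G))
  have hVmem : ∀ f, f ∈ V ↔ f ∈ W ∧ T f = 0 := fun f => Iff.rfl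
  have hWcl : IsClosed (W : Set (EE G S)) := Submodule.isClosed_orthogonal _
  have hVcl : IsClosed (V : Set (EE G S)) := by
    have : (V : Set (EE G S)) = (W : Set (EE G S)) ∩ T ⁻¹' {0} := rfl
    rw [this]
    exact hWcl.inter (isClosed_singleton.preimage T.continuous)
  have hVc : CompleteSpace V := hVcl.completeSpace_coe
  have hVi : Pool.Agent.TH714.L2.Inv V := by
    intro k f hf
    rw [hVmem] at hf ⊢
    refine ⟨(finCycles_inv S).orth _ _ hf.1, ?_⟩
    rw [hT, hf.2, tr_zero']
  have h1 := tau_le_of_disjoint S V hVi inf_le_left (by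
    intro g hg
    have h2 : IsGrad S (fun h => g (h, ())) (T0 S g) := fun h s => T0_apply S g h s
    have h3 := hTF _ _ h2
    rw [((hVmem _).1 hg).2] at h3
    apply inv_eq_zero_of_right_inv t ht
    intro h
    have h4 := h3 h ⟨t, Finset.mem_singleton_self t⟩
    exact (sub_eq_zero.1 h4.symm))
  have h2 : tau V ≤ 0 := by linarith
  have hfV : f ∈ V := by
    rw [hVmem]
    refine ⟨grad_orth S F f hf, ?_⟩
    ext ⟨h, s⟩
    rw [hTF f F hf]
    have hs : (s : G) = t := Finset.mem_singleton.1 s.2
    rw [hs, hF, sub_self]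
    rfl
  have hf0 : f = 0 := by
    by_contra hne
    have h3 := dm_pos V hVi f hfV hne
    rw [dm_eq_tau V hVcl] at h3
    linarith
  have h3 : ∀ k, ∀ c ∈ Subgroup.closure (S : Set G), F (k * c) - F k
      = (fun _ => (0 : ℂ)) (k * c) - (fun _ => (0 : ℂ)) k := by
    refine grad_closure F (fun _ => (0 : ℂ)) S ?_
    intro h s hs
    have := hf h ⟨s, hs⟩
    rw [hf0] at this
    simpa using this.symm
  intro h
  have h4 := h3 1 h (by rw [hS]; trivial)
  rw [one_mul] at h4
  simpa [sub_eq_zero] using h4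

end

end Run7.h952
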