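import Pool.Agent.Run7.h952.PEst
import Pool.Agent.Run7.h952.Rig

/-!
The kernel of the adjoint of the operator of the rows is trivial if the group is a limit of finite
groups of prime power order.
-/

set_option autoImplicit false
set_option linter.unusedSectionVars false

open scoped InnerProductSpace InnerProduct ENNReal
open Filter Topology

namespace Run7.h952

open Pool.Agent.H919R3.L2 Pool.Agent.H919R3.Stmt Pool.Agent.TH714.L2

section
variable {X G Y : Type} [Group G] (ρ : FreeGroup X →* G)

/-- The push-forward in the Hilbert space. -/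
noncomputable def ev (L : (FreeGroup X × Y) →₀ ℝ) : EE G Y :=
  L.sum fun p a => (a : ℂ) • dl (ρ p.1, p.2)

theorem ev_zero : ev ρ (0 : (FreeGroup X × Y) →₀ ℝ) = 0 := by
  unfold ev; simp

theorem ev_add (L L' : (FreeGroup X × Y) →₀ ℝ) : ev ρ (L + L') = ev ρ L + ev ρ L' := by
  classical
  unfold ev
  rw [Finsupp.sum_add_index' (by simp)]
  intro p a b
  rw [Complex.ofReal_add, add_smul]

theorem ev_single (p : FreeGroup X × Y) (a : ℝ) :
    ev ρ (Finsupp.single p a) = (a : ℂ) • dl (ρ p.1, p.2) := by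
  unfold ev
  rw [Finsupp.sum_single_index (by simp)]

theorem ev_smul (c : ℝ) (L : (FreeGroup X × Y) →₀ ℝ) : ev ρ (c • L) = (c : ℂ) • ev ρ L := by
  induction L using Finsupp.induction_linear with
  | zero => simp [ev_zero]
  | add f g hf hg => rw [smul_add, ev_add, ev_add, smul_add, hf, hg]
  | single p a =>
    rw [Finsupp.smul_single, ev_single, ev_single, smul_smul, smul_eq_mul, Complex.ofReal_mul]

theorem ev_sub (L L' : (FreeGroup X × Y) →₀ ℝ) : ev ρ (L - L') = ev ρ L - ev ρ L' := by
  have h : L - L' = L + (-1 : ℝ) • L' := by rw [neg_one_smul, sub_eq_add_neg]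
  rw [h, ev_add, ev_smul]
  push_cast
  rw [neg_one_smul, sub_eq_add_neg]

open Classical in
theorem dl_apply_ite (x y : G × Y) : (dl x : EE G Y) y = if y = x then 1 else 0 := by
  by_cases h : y = x
  · rw [if_pos h, h, dl_apply_self]
  · rw [if_neg h, dl_apply_ne _ _ h]

theorem ev_apply (L : (FreeGroup X × Y) →₀ ℝ) (y : G × Y) :
    ev ρ L y = ((rv ρ L y : ℝ) : ℂ) := by
  classical
  induction L using Finsupp.induction_linear with
  | zero => rw [ev_zero, map_zero]; simp
  | add f g hf hg =>
    rw [ev_add, map_add, Pi.add_apply, Complex.ofReal_add, ← hf, ← hg]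
    rfl
  | single p a =>
    rw [ev_single, rv_single]
    change (a : ℂ) * (dl (ρ p.1, p.2) : EE G Y) y = _
    rw [dl_apply_ite]
    split_ifs <;> simp

theorem ev_ltr (w : FreeGroup X) (L : (FreeGroup X × Y) →₀ ℝ) :
    ev ρ (ltr w L) = tr (ρ w) (ev ρ L) := by
  ext y
  rw [ev_apply, tr_apply, ev_apply, rv_ltr]

theorem norm_ev (L : (FreeGroup X × Y) →₀ ℝ) : ‖ev ρ L‖ ^ 2 = nn ρ L := by
  classical
  have h1 : ⟪ev ρ L, ev ρ L⟫_ℂ = ((nn ρ L : ℝ) : ℂ) := by
    unfold nn
    conv_lhs => unfold ev Finsupp.sum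
    rw [sum_inner]
    push_cast
    refine Finset.sum_congr rfl fun p _ => ?_
    rw [inner_sum]
    refine Finset.sum_congr rfl fun q _ => ?_
    rw [inner_smul_left, inner_smul_right, inner_dl_left, dl_apply_ite, Complex.conj_ofReal]
    split_ifs <;> simp
  rw [inner_self_eq_norm_sq_to_K] at h1
  apply Complex.ofReal_injective
  rw [Complex.ofReal_pow]
  exact h1

end

section
variable {G : Type} [Group G]

/-- An operator with given rows. -/
theorem exists_B {I J : Type} [Fintype I] [Fintype J] (v : I → EE G J)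
    (hv : ∀ i, v i ∈ FS (H := G) J) :
    ∃ B : EE G I →L[ℂ] EE G J, Eqv B ∧ ∀ (h : G) (i : I), B (dl (h, i)) = tr h (v i) := by
  classical
  choose T hT hTd using fun i => exists_opv (H := G) (J := J) (v i) (hv i)
  choose ι hι hι' using fun i : I => exists_reidx (H := G) (I := Unit) (J := I) (fun _ => i)
  have happ : ∀ z : EE G I, (∑ i : I, (T i).comp (ι i)) z = ∑ i : I, T i (ι i z) := by
    intro z
    rw [_root_.sum_apply]
    rfl
  refine ⟨∑ i : I, (T i).comp (ι i), ?_, ?_⟩
  · intro k f
    rw [happ, happ]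
    have e2 : ∀ (s : Finset I) (z : I → EE G J), tr k (∑ i ∈ s, z i) = ∑ i ∈ s, tr k (z i) := by
      intro s z
      induction s using Finset.induction_on with
      | empty => simp [tr_zero']
      | insert a s ha ih => rw [Finset.sum_insert ha, Finset.sum_insert ha, tr_add, ih]
    rw [e2]
    refine Finset.sum_congr rfl fun i _ => ?_
    rw [hι, hT]
  · intro h i
    rw [happ, Finset.sum_eq_single i]
    · have : ι i (dl (h, i)) = dl (h, ()) := by
        ext ⟨g, z⟩
        rw [hι', dl_apply_ite, dl_apply_ite]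
        congr 1
        simp [Prod.ext_iff]
      rw [this, hTd]
    · intro i' _ hi'
      have : ι i' (dl (h, i)) = 0 := by
        ext ⟨g, z⟩
        rw [hι', dl_apply_ite, if_neg]
        · rfl
        · intro h1
          exact hi' (Prod.ext_iff.1 h1).2
      rw [this, map_zero]
    · intro h1
      exact absurd (Finset.mem_univ i) h1

theorem FS_smul_dl {J : Type} (x : G × J) (a : ℂ) : a • dl x ∈ FS (H := G) J :=
  Submodule.smul_mem _ _ (Submodule.subset_span ⟨x, rfl⟩)

theorem ev_mem_FS {X J : Type} (ρ : FreeGroup X →* G) (L : (FreeGroup X × J) →₀ ℝ) :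
    ev ρ L ∈ FS (H := G) J := by
  unfold ev Finsupp.sum
  exact Submodule.sum_mem _ fun p _ => FS_smul_dl _ _

theorem inner_tr_ev {X : Type} (ρ : FreeGroup X →* G) (u : FreeGroup X) (h : G)
    (f : EE G X) : ⟪tr h (ev ρ (Dr u)), f⟫_ℂ = rowf ρ (Dz u) (fun y => f y) h := by
  classical
  have h1 : tr h (ev ρ (Dr u)) = ∑ q ∈ (Dz u).support,
      (((Dz u q : ℤ) : ℝ) : ℂ) • (dl (h * ρ q.1, q.2) : EE G X) := by
    have h2 : ∀ L : (FreeGroup X × X) →₀ ℝ, tr h (ev ρ L)
        = L.sum fun q a => (a : ℂ) • (dl (h * ρ q.1, q.2) : EE G X) := by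
      intro L
      induction L using Finsupp.induction_linear with
      | zero => rw [ev_zero, tr_zero']; simp
      | add f g hf hg =>
        rw [ev_add, tr_add, hf, hg, Finsupp.sum_add_index' (by simp)]
        intro p a b
        rw [Complex.ofReal_add, add_smul]
      | single p a =>
        rw [ev_single, tr_smul, tr_dl, Finsupp.sum_single_index (by simp)]
    rw [h2]
    unfold Dr
    rw [Finsupp.sum_mapRange_index (by simp), Finsupp.sum]
  rw [h1, sum_inner]
  unfold rowf Finsupp.sum
  refine Finset.sum_congr rfl fun q _ => ?_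
  rw [inner_smul_left, inner_dl_left, Complex.conj_ofReal]
  push_cast
  rfl

theorem rowf_ofReal {X : Type} (ρ : FreeGroup X →* G) (D : (FreeGroup X × X) →₀ ℤ)
    (f : G × X → ℝ) (h : G) :
    rowf ρ D (fun y => ((f y : ℝ) : ℂ)) h = ((rowf ρ D f h : ℝ) : ℂ) := by
  unfold rowf Finsupp.sum
  push_cast
  rfl

/-- The main estimate of this file. -/
theorem ker_zero {X : Type} [Fintype X] (ρ : FreeGroup X →* G) (U : Finset (FreeGroup X))
    (hU : AddSubgroup.closure (abz '' (U : Set (FreeGroup X))) = ⊤)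
    (hC : ∀ E : Finset (FreeGroup X), ∃ (p : ℕ) (_ : Fact p.Prime) (P : Type) (_ : Group P)
      (_ : Finite P) (ρ' : FreeGroup X →* P), IsPGroup p P ∧ Function.Surjective ρ' ∧
      ∀ w ∈ E, (ρ' w = 1 ↔ ρ w = 1))
    (B : EE G U →L[ℂ] EE G X) (hB : Eqv B)
    (hBd : ∀ (h : G) (u : U), B (dl (h, u)) = tr h (ev ρ (Dr (u : FreeGroup X)))) :
    dm (LinearMap.range (B : EE G U →ₗ[ℂ] EE G X)) = Fintype.card X := by
  classical
  set K := Kc U with hK
  set N : Submodule ℂ (EE G X) := (LinearMap.range (B : EE G U →ₗ[ℂ] EE G X))ᗮ with hN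
  have hNinv : Pool.Agent.TH714.L2.Inv N := by
    apply Inv.orth
    rintro k _ ⟨f, rfl⟩
    exact ⟨tr k f, hB k f⟩
  -- intertwining
  have hBev : ∀ L : (FreeGroup X × U) →₀ ℝ, B (ev ρ L) = ev ρ (opB U L) := by
    intro L
    induction L using Finsupp.induction_linear with
    | zero => rw [ev_zero, map_zero, map_zero, ev_zero]
    | add f g hf hg => rw [ev_add, map_add, hf, hg, map_add, ev_add]
    | single p a => rw [ev_single, map_smul, hBd, opB_single, ev_smul, ev_ltr]
  have hBs : ∀ (f : EE G X) (h : G) (u : U), ContinuousLinearMap.adjoint B f (h, u)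
      = rowf ρ (Dz (u : FreeGroup X)) (fun y => f y) h := by
    intro f h u
    rw [← inner_dl_left, ContinuousLinearMap.adjoint_inner_right, hBd, inner_tr_ev]
  have hBsev : ∀ L : (FreeGroup X × X) →₀ ℝ,
      ContinuousLinearMap.adjoint B (ev ρ L) = ev ρ (opBs U L) := by
    intro L
    ext ⟨h, u⟩
    rw [hBs, ev_apply, rv_opBs, ← rowf_ofReal]
    congr 1
    funext y
    rw [ev_apply]
  let M : EE G X →L[ℂ] EE G X :=
    ContinuousLinearMap.id ℂ _ - ((K⁻¹ : ℝ) : ℂ) • (B.comp (ContinuousLinearMap.adjoint B))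
  have hMapp : ∀ f, M f = f - ((K⁻¹ : ℝ) : ℂ) • B (ContinuousLinearMap.adjoint B f) :=
    fun f => rfl
  have hMev : ∀ L : (FreeGroup X × X) →₀ ℝ, M (ev ρ L) = ev ρ (opM U K L) := by
    intro L
    rw [hMapp, hBsev, hBev]
    unfold opM
    rw [LinearMap.sub_apply, LinearMap.id_apply, LinearMap.smul_apply, LinearMap.comp_apply,
      ev_sub, ev_smul]
  have hPM : ∀ f, N.starProjection (M f) = N.starProjection f := by
    intro f
    rw [hMapp, map_sub, map_smul]
    have : N.starProjection (B (ContinuousLinearMap.adjoint B f)) = 0 := by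
      rw [Submodule.starProjection_apply_eq_zero_iff, hN]
      exact Submodule.le_orthogonal_orthogonal _ ⟨_, rfl⟩
    rw [this, smul_zero, sub_zero]
  have hpow : ∀ (j : ℕ) (x : X), ‖N.starProjection (dl ((1 : G), x))‖ ^ 2
      ≤ nn ρ (((opM U K) ^ j) (Finsupp.single (1, x) 1)) := by
    intro j x
    have h1 : ∀ j : ℕ, ∀ L : (FreeGroup X × X) →₀ ℝ, N.starProjection (ev ρ (((opM U K) ^ j) L))
        = N.starProjection (ev ρ L) := by
      intro j
      induction j with
      | zero => intro L; simp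
      | succ j ih =>
        intro L
        rw [pow_succ', Module.End.mul_apply, ← hMev, hPM, ih]
    have h2 : (dl ((1 : G), x) : EE G X) = ev ρ (Finsupp.single (1, x) 1) := by
      rw [ev_single, map_one]
      simp
    rw [h2, ← h1 j, ← norm_ev]
    gcongr
    exact Submodule.norm_starProjection_apply_le _ _
  have hbound : ∀ j : ℕ, tau N * hs (2 * j) ≤ Fintype.card X * Real.log K := by
    intro j
    let A : Finset (FreeGroup X × X) := Finset.univ.biUnion fun x : X =>
      (((opM U K) ^ j) (Finsupp.single (1, x) 1)).support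
    obtain ⟨p, hp, P, _, _, ρ', hP, hsurj, hE⟩ := hC ((A ×ˢ A).image fun z => z.1.1⁻¹ * z.2.1)
    have h1 := est U ρ' p hP hsurj hU j
    have h2 : ∀ x : X, nn ρ (((opM U K) ^ j) (Finsupp.single (1, x) 1))
        = nn ρ' (((opM U K) ^ j) (Finsupp.single (1, x) 1)) := by
      intro x
      apply nn_congr
      intro a ha b hb
      have ha' : a ∈ A := Finset.mem_biUnion.2 ⟨x, Finset.mem_univ x, ha⟩
      have hb' : b ∈ A := Finset.mem_biUnion.2 ⟨x, Finset.mem_univ x, hb⟩
      have h3 := hE (a.1⁻¹ * b.1) (Finset.mem_image.2 ⟨(a, b), Finset.mem_product.2 ⟨ha', hb'⟩,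
        rfl⟩)
      rw [map_mul, map_inv, map_mul, map_inv, inv_mul_eq_one, inv_mul_eq_one] at h3
      exact h3.symm
    have h3 : tau N ≤ ∑ x : X, nn ρ' (((opM U K) ^ j) (Finsupp.single (1, x) 1)) := by
      unfold tau
      refine Finset.sum_le_sum fun x _ => ?_
      rw [← h2]
      exact hpow j x
    refine le_trans ?_ h1
    refine mul_le_mul_of_nonneg_right h3 ?_
    unfold hs
    positivity
  have htau0 : tau N ≤ 0 := by
    by_contra hpos
    rw [not_le] at hpos
    have h1 : Tendsto (fun j : ℕ => hs (2 * j)) atTop atTop := by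
      have h2 := Real.tendsto_sum_range_one_div_nat_succ_atTop
      exact h2.comp (tendsto_atTop_mono (fun n => (by change n ≤ 2 * n; omega)) tendsto_id)
    obtain ⟨j, hj⟩ := (h1.eventually_gt_atTop (Fintype.card X * Real.log K / tau N)).exists
    rw [div_lt_iff₀ hpos] at hj
    have := hbound j
    linarith
  have h4 : tau N = Fintype.card X - dm (LinearMap.range (B : EE G U →ₗ[ℂ] EE G X)) := by
    have h5 := tau_orth (LinearMap.range (B : EE G U →ₗ[ℂ] EE G X)).topologicalClosure
    have h6 : tau N = tau ((LinearMap.range (B : EE G U →ₗ[ℂ] EE G X)).topologicalClosure)ᗮ :=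
      tau_congr (by rw [hN, Submodule.orthogonal_closure])
    rw [h6, h5]
    rfl
  have h7 : 0 ≤ tau N := by unfold tau; positivity
  linarith

end

end Run7.h952
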