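import Pool.Agent.Run7.h952.Ind

/-!
The Mayer-Vietoris inequality for the dimension of the space of gradients.
-/

set_option autoImplicit false
set_option linter.unusedSectionVars false

open scoped InnerProductSpace InnerProduct ENNReal
open Filter Topology

namespace Run7.h952

open Pool.Agent.H919R3.L2 Pool.Agent.H919R3.Stmt Pool.Agent.TH714.L2

section
variable {G : Type} [Group G]

/-- If `T` maps the closed invariant space `W` into `Q` and `V` is the kernel of `T` in `W`, then
`dim W ≤ dim V + dim Q`. -/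
theorem tau_ker {I J : Type} [Fintype I] [Fintype J] (T : EE G I →L[ℂ] EE G J) (hT : Eqv T)
    (W V : Submodule ℂ (EE G I)) [W.HasOrthogonalProjection] [V.HasOrthogonalProjection]
    (hW : Pool.Agent.TH714.L2.Inv W) (Q : Submodule ℂ (EE G J)) [Q.HasOrthogonalProjection]
    (hWcl : IsClosed (W : Set (EE G I)))
    (hQ : ∀ w ∈ W, T w ∈ Q) (hV : ∀ w, w ∈ V ↔ w ∈ W ∧ T w = 0) :
    tau W ≤ tau V + tau Q := by
  let R : EE G I →L[ℂ] EE G J := T.comp W.starProjection
  have hR : Eqv R := by
    intro k f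
    change T (W.starProjection (tr k f)) = _
    rw [hW.proj, hT]
    rfl
  have hVW : V ≤ W := fun w hw => ((hV w).1 hw).1
  have hUcl : IsClosed ((W ⊓ Vᗮ : Submodule ℂ (EE G I)) : Set (EE G I)) := by
    rw [Submodule.coe_inf]
    exact hWcl.inter (Submodule.isClosed_orthogonal _)
  have c : CompleteSpace (W ⊓ Vᗮ : Submodule ℂ (EE G I)) := hUcl.completeSpace_coe
  have hsub := tau_sub V W (W ⊓ Vᗮ) hVW rfl
  have h1 := dm_range_le (ContinuousLinearMap.adjoint R) hR.adjoint Q (by
    intro x hx
    apply ext_inner_right ℂ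
    intro y
    rw [inner_zero_left, ContinuousLinearMap.adjoint_inner_left]
    exact Submodule.inner_left_of_mem_orthogonal
      (hQ _ (Submodule.starProjection_apply_mem W y)) hx)
  have h2 : (W ⊓ Vᗮ : Submodule ℂ (EE G I)) ≤
      (LinearMap.range (ContinuousLinearMap.adjoint R : EE G J →ₗ[ℂ] EE G I)).topologicalClosure := by
    intro x hx
    rw [← Submodule.orthogonal_orthogonal_eq_closure]
    rw [Submodule.mem_orthogonal]
    intro y hy
    -- `R y = 0`
    have hRy : R y = 0 := by
      apply ext_inner_left ℂ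
      intro v
      rw [inner_zero_right, ← ContinuousLinearMap.adjoint_inner_left]
      exact Submodule.inner_right_of_mem_orthogonal
        (show ContinuousLinearMap.adjoint R v ∈ LinearMap.range
          (ContinuousLinearMap.adjoint R : EE G J →ₗ[ℂ] EE G I) from ⟨v, rfl⟩) hy
    have hyV : W.starProjection y ∈ V :=
      (hV _).2 ⟨Submodule.starProjection_apply_mem W y, hRy⟩
    have h3 : ⟪W.starProjection y, x⟫_ℂ = 0 :=
      Submodule.inner_right_of_mem_orthogonal hyV hx.2
    rw [Submodule.inner_starProjection_left_eq_right,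
      Submodule.starProjection_eq_self_iff.2 hx.1] at h3
    exact h3
  have h4 : tau (W ⊓ Vᗮ : Submodule ℂ (EE G I)) ≤ tau Q := (tau_mono _ _ h2).trans h1
  linarith

/-- The gluing property: two functions with the same gradient along `C` come, up to functions
invariant under `A` respectively `B`, from one function. -/
def Glue (A B C : Subgroup G) : Prop :=
  ∀ FA FB : G → ℂ, (∀ h, ∀ c ∈ C, FA (h * c) - FA h = FB (h * c) - FB h) →
    ∃ F : G → ℂ, (∀ h, ∀ a ∈ A, F (h * a) - F h = FA (h * a) - FA h) ∧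
      ∀ h, ∀ b ∈ B, F (h * b) - F h = FB (h * b) - FB h

theorem grad_closure (F F' : G → ℂ) (S : Finset G)
    (h : ∀ h, ∀ s ∈ S, F (h * s) - F h = F' (h * s) - F' h) :
    ∀ k, ∀ c ∈ Subgroup.closure (S : Set G), F (k * c) - F k = F' (k * c) - F' k := by
  intro k c hc
  induction hc using Subgroup.closure_induction generalizing k with
  | mem x hx => exact h k x hx
  | one => simp
  | mul x y _ _ hx hy =>
    have h1 := hx k
    have h2 := hy (k * x)
    rw [mul_assoc] at h2
    linear_combination h1 + h2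
  | inv x _ hx =>
    have h1 := hx (k * x⁻¹)
    rw [inv_mul_cancel_right] at h1
    linear_combination -h1

open Classical in
/-- The Mayer-Vietoris inequality. -/
theorem dg_union (SA SB SC : Finset G) (A B C : Subgroup G)
    (hA : Subgroup.closure (SA : Set G) = A) (hB : Subgroup.closure (SB : Set G) = B)
    (hC : Subgroup.closure (SC : Set G) = C) (hCA : C ≤ A) (hCB : C ≤ B) (hg : Glue A B C) :
    dg SA + dg SB ≤ dg (SA ∪ SB) + dg SC := by
  classical
  set X := (SA : Type) ⊕ (SB : Type) with hX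
  obtain ⟨TA, hTA, hTA'⟩ := exists_transport' SA SC (fun s hs => by
    rw [hA]; exact hCA (by rw [← hC]; exact Subgroup.subset_closure hs))
  obtain ⟨TB, hTB, hTB'⟩ := exists_transport' SB SC (fun s hs => by
    rw [hB]; exact hCB (by rw [← hC]; exact Subgroup.subset_closure hs))
  obtain ⟨ia, hia, hia'⟩ := exists_reidx (H := G) (I := SA) (J := X) Sum.inl
  obtain ⟨ib, hib, hib'⟩ := exists_reidx (H := G) (I := SB) (J := X) Sum.inr
  set PA := (finCycles SA)ᗮ with hPA
  set PB := (finCycles SB)ᗮ with hPB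
  set PC := (finCycles SC)ᗮ with hPC
  let W : Submodule ℂ (EE G X) := (PA.comap (ia : EE G X →ₗ[ℂ] EE G SA)) ⊓
    (PB.comap (ib : EE G X →ₗ[ℂ] EE G SB))
  have hWmem : ∀ f, f ∈ W ↔ ia f ∈ PA ∧ ib f ∈ PB := fun f => Iff.rfl
  have hPAcl : IsClosed (PA : Set (EE G SA)) := Submodule.isClosed_orthogonal _
  have hPBcl : IsClosed (PB : Set (EE G SB)) := Submodule.isClosed_orthogonal _
  have hWcl : IsClosed (W : Set (EE G X)) := by
    have : (W : Set (EE G X)) = ia ⁻¹' (PA : Set (EE G SA)) ∩ ib ⁻¹' (PB : Set (EE G SB)) := rfl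
    rw [this]
    exact (hPAcl.preimage ia.continuous).inter (hPBcl.preimage ib.continuous)
  have hWc : CompleteSpace W := hWcl.completeSpace_coe
  have hWinv : Pool.Agent.TH714.L2.Inv W := by
    intro k f hf
    rw [hWmem] at hf ⊢
    rw [hia, hib]
    exact ⟨(finCycles_inv SA).orth _ _ hf.1, (finCycles_inv SB).orth _ _ hf.2⟩
  let T : EE G X →L[ℂ] EE G SC := TA.comp ia - TB.comp ib
  have hTapp : ∀ f, T f = TA (ia f) - TB (ib f) := fun f => rfl
  have hT : Eqv T := by
    intro k f
    rw [hTapp, hTapp, hia, hib, hTA, hTB, tr_sub]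
  let V : Submodule ℂ (EE G X) := W ⊓ LinearMap.ker (T : EE G X →ₗ[ℂ] EE G SC)
  have hVmem : ∀ f, f ∈ V ↔ f ∈ W ∧ T f = 0 := fun f => Iff.rfl
  have hVcl : IsClosed (V : Set (EE G X)) := by
    have : (V : Set (EE G X)) = (W : Set (EE G X)) ∩ T ⁻¹' {0} := rfl
    rw [this]
    exact hWcl.inter (isClosed_singleton.preimage T.continuous)
  have hVc : CompleteSpace V := hVcl.completeSpace_coe
  have hTQ : ∀ w ∈ W, T w ∈ PC := by
    intro w hw
    obtain ⟨h1, h2⟩ := (hWmem w).1 hw
    obtain ⟨FA, hFA⟩ := exists_potential SA _ h1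
    obtain ⟨FB, hFB⟩ := exists_potential SB _ h2
    rw [hTapp]
    exact Submodule.sub_mem _ (grad_orth SC FA _ (hTA' _ _ hFA)) (grad_orth SC FB _ (hTB' _ _ hFB))
  have key1 := tau_ker T hT W V hWinv PC hWcl hTQ hVmem
  -- dimension of `W`
  have hadj : ∀ (v : EE G SA) (g : G) (s : SA),
      ContinuousLinearMap.adjoint ia v (g, Sum.inl s) = v (g, s) := by
    intro v g s
    rw [← inner_dl_left, ContinuousLinearMap.adjoint_inner_right]
    have : ia (dl (g, Sum.inl s)) = dl (g, s) := by
      ext ⟨b, t⟩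
      rw [hia']
      by_cases h : (b, t) = (g, s)
      · rw [Prod.mk.injEq] at h
        rw [h.1, h.2, dl_apply_self, dl_apply_self]
      · rw [dl_apply_ne, dl_apply_ne _ _ h]
        intro h'
        rw [Prod.mk.injEq, Sum.inl.injEq] at h'
        exact h (by rw [h'.1, h'.2])
    rw [this, inner_dl_left]
  have hadj0 : ∀ (v : EE G SA) (g : G) (s : SB),
      ContinuousLinearMap.adjoint ia v (g, Sum.inr s) = 0 := by
    intro v g s
    rw [← inner_dl_left, ContinuousLinearMap.adjoint_inner_right]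
    have : ia (dl (g, Sum.inr s)) = 0 := by
      ext ⟨b, t⟩
      rw [hia', dl_apply_ne]
      · rfl
      · intro h'
        rw [Prod.mk.injEq] at h'
        exact absurd h'.2 (by simp)
    rw [this, inner_zero_left]
  have hbdj : ∀ (v : EE G SB) (g : G) (s : SB),
      ContinuousLinearMap.adjoint ib v (g, Sum.inr s) = v (g, s) := by
    intro v g s
    rw [← inner_dl_left, ContinuousLinearMap.adjoint_inner_right]
    have : ib (dl (g, Sum.inr s)) = dl (g, s) := by
      ext ⟨b, t⟩
      rw [hib']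
      by_cases h : (b, t) = (g, s)
      · rw [Prod.mk.injEq] at h
        rw [h.1, h.2, dl_apply_self, dl_apply_self]
      · rw [dl_apply_ne, dl_apply_ne _ _ h]
        intro h'
        rw [Prod.mk.injEq, Sum.inr.injEq] at h'
        exact h (by rw [h'.1, h'.2])
    rw [this, inner_dl_left]
  have hbdj0 : ∀ (v : EE G SB) (g : G) (s : SA),
      ContinuousLinearMap.adjoint ib v (g, Sum.inl s) = 0 := by
    intro v g s
    rw [← inner_dl_left, ContinuousLinearMap.adjoint_inner_right]
    have : ib (dl (g, Sum.inl s)) = 0 := by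
      ext ⟨b, t⟩
      rw [hib', dl_apply_ne]
      · rfl
      · intro h'
        rw [Prod.mk.injEq] at h'
        exact absurd h'.2 (by simp)
    rw [this, inner_zero_left]
  have ea : ∀ v, ia (ContinuousLinearMap.adjoint ia v) = v := by
    intro v; ext ⟨g, s⟩; rw [hia', hadj]
  have eb : ∀ v, ib (ContinuousLinearMap.adjoint ia v) = 0 := by
    intro v; ext ⟨g, s⟩; rw [hib', hadj0]; rfl
  have fa : ∀ v, ia (ContinuousLinearMap.adjoint ib v) = 0 := by
    intro v; ext ⟨g, s⟩; rw [hia', hbdj0]; rfl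
  have fb : ∀ v, ib (ContinuousLinearMap.adjoint ib v) = v := by
    intro v; ext ⟨g, s⟩; rw [hib', hbdj]
  have hda : ∀ s : SA, (dl ((1 : G), Sum.inl s) : EE G X)
      = ContinuousLinearMap.adjoint ia (dl ((1 : G), s)) := by
    intro s
    ext ⟨g, x⟩
    rcases x with t | t
    · rw [hadj]
      by_cases h : (g, t) = (1, s)
      · rw [Prod.mk.injEq] at h
        rw [h.1, h.2, dl_apply_self, dl_apply_self]
      · rw [dl_apply_ne _ _ h, dl_apply_ne]
        intro h'
        rw [Prod.mk.injEq, Sum.inl.injEq] at h'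
        exact h (by rw [h'.1, h'.2])
    · rw [hadj0, dl_apply_ne]
      intro h'
      rw [Prod.mk.injEq] at h'
      exact absurd h'.2 (by simp)
  have hdb : ∀ s : SB, (dl ((1 : G), Sum.inr s) : EE G X)
      = ContinuousLinearMap.adjoint ib (dl ((1 : G), s)) := by
    intro s
    ext ⟨g, x⟩
    rcases x with t | t
    · rw [hbdj0, dl_apply_ne]
      intro h'
      rw [Prod.mk.injEq] at h'
      exact absurd h'.2 (by simp)
    · rw [hbdj]
      by_cases h : (g, t) = (1, s)
      · rw [Prod.mk.injEq] at h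
        rw [h.1, h.2, dl_apply_self, dl_apply_self]
      · rw [dl_apply_ne _ _ h, dl_apply_ne]
        intro h'
        rw [Prod.mk.injEq, Sum.inr.injEq] at h'
        exact h (by rw [h'.1, h'.2])
  have hna : ∀ v : EE G SA, ‖ContinuousLinearMap.adjoint ia v‖ ^ 2 = ‖v‖ ^ 2 := by
    intro v
    have h1 : ⟪ContinuousLinearMap.adjoint ia v, ContinuousLinearMap.adjoint ia v⟫_ℂ
        = ⟪v, v⟫_ℂ := by
      rw [ContinuousLinearMap.adjoint_inner_left, ea]
    rw [inner_self_eq_norm_sq_to_K, inner_self_eq_norm_sq_to_K] at h1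
    exact_mod_cast h1
  have hnb : ∀ v : EE G SB, ‖ContinuousLinearMap.adjoint ib v‖ ^ 2 = ‖v‖ ^ 2 := by
    intro v
    have h1 : ⟪ContinuousLinearMap.adjoint ib v, ContinuousLinearMap.adjoint ib v⟫_ℂ
        = ⟪v, v⟫_ℂ := by
      rw [ContinuousLinearMap.adjoint_inner_left, fb]
    rw [inner_self_eq_norm_sq_to_K, inner_self_eq_norm_sq_to_K] at h1
    exact_mod_cast h1
  have hpa : ∀ s : SA, W.starProjection (dl ((1 : G), Sum.inl s))
      = ContinuousLinearMap.adjoint ia (PA.starProjection (dl ((1 : G), s))) := by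
    intro s
    apply Submodule.eq_starProjection_of_mem_of_inner_eq_zero
    · rw [hWmem, ea, eb]
      exact ⟨Submodule.starProjection_apply_mem _ _, Submodule.zero_mem _⟩
    · intro w hw
      rw [hda, ← map_sub, ContinuousLinearMap.adjoint_inner_left]
      exact Submodule.starProjection_inner_eq_zero _ _ ((hWmem w).1 hw).1
  have hpb : ∀ s : SB, W.starProjection (dl ((1 : G), Sum.inr s))
      = ContinuousLinearMap.adjoint ib (PB.starProjection (dl ((1 : G), s))) := by
    intro s
    apply Submodule.eq_starProjection_of_mem_of_inner_eq_zero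
    · rw [hWmem, fa, fb]
      exact ⟨Submodule.zero_mem _, Submodule.starProjection_apply_mem _ _⟩
    · intro w hw
      rw [hdb, ← map_sub, ContinuousLinearMap.adjoint_inner_left]
      exact Submodule.starProjection_inner_eq_zero _ _ ((hWmem w).1 hw).2
  have hdimW : tau W = dg SA + dg SB := by
    unfold dg tau
    rw [Fintype.sum_sum_type]
    congr 1
    · refine Finset.sum_congr rfl fun s _ => ?_
      rw [hpa, hna]
    · refine Finset.sum_congr rfl fun s _ => ?_
      rw [hpb, hnb]
  -- the kernel consists of gradients along the union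
  let σ : X → (SA ∪ SB : Finset G) := fun x => match x with
    | Sum.inl s => ⟨s, Finset.mem_union_left _ s.2⟩
    | Sum.inr s => ⟨s, Finset.mem_union_right _ s.2⟩
  let ρ : (SA ∪ SB : Finset G) → X := fun s =>
    if h : (s : G) ∈ SA then Sum.inl ⟨s, h⟩
    else Sum.inr ⟨s, (Finset.mem_union.1 s.2).resolve_left h⟩
  obtain ⟨U, hU, hU'⟩ := exists_reidx (H := G) σ
  obtain ⟨U2, -, hU2'⟩ := exists_reidx (H := G) ρ
  set P := (finCycles (SA ∪ SB))ᗮ with hP
  let R : EE G (SA ∪ SB : Finset G) →L[ℂ] EE G X := U.comp P.starProjection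
  have hR : Eqv R := by
    intro k f
    change U (P.starProjection (tr k f)) = _
    rw [(finCycles_inv (SA ∪ SB)).orth.proj, hU]
    rfl
  have h1 := dm_range_le R hR P (by
    intro x hx
    change U (P.starProjection x) = 0
    rw [(Submodule.starProjection_apply_eq_zero_iff _).2 hx, map_zero])
  have h2 : V ≤ (LinearMap.range (R : EE G (SA ∪ SB : Finset G) →ₗ[ℂ] EE G X)).topologicalClosure := by
    refine le_trans ?_ (Submodule.le_topologicalClosure _)
    intro f hf
    obtain ⟨hfW, hfT⟩ := (hVmem f).1 hf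
    obtain ⟨hfa, hfb⟩ := (hWmem f).1 hfW
    obtain ⟨FA, hFA⟩ := exists_potential SA _ hfa
    obtain ⟨FB, hFB⟩ := exists_potential SB _ hfb
    have hgC : ∀ h, ∀ c ∈ C, FA (h * c) - FA h = FB (h * c) - FB h := by
      rw [← hC]
      apply grad_closure
      intro h s hs
      have e1 := hTA' _ _ hFA h ⟨s, hs⟩
      have e2 := hTB' _ _ hFB h ⟨s, hs⟩
      rw [hTapp, sub_eq_zero] at hfT
      rw [hfT, e2] at e1
      exact e1.symm
    obtain ⟨F, hF1, hF2⟩ := hg FA FB hgC
    have hFa : ∀ h (s : SA), f (h, Sum.inl s) = F (h * s) - F h := by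
      intro h s
      rw [← hia', hFA, hF1 h s (by rw [← hA]; exact Subgroup.subset_closure s.2)]
    have hFb : ∀ h (s : SB), f (h, Sum.inr s) = F (h * s) - F h := by
      intro h s
      rw [← hib', hFB, hF2 h s (by rw [← hB]; exact Subgroup.subset_closure s.2)]
    have hgr : IsGrad (SA ∪ SB) F (U2 f) := by
      intro h s
      rw [hU2']
      by_cases hs : (s : G) ∈ SA
      · have : ρ s = Sum.inl ⟨s, hs⟩ := dif_pos hs
        rw [this, hFa]
      · have : ρ s = Sum.inr ⟨s, (Finset.mem_union.1 s.2).resolve_left hs⟩ := dif_neg hs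
        rw [this, hFb]
    have hmem : U2 f ∈ P := grad_orth _ F _ hgr
    refine ⟨U2 f, ?_⟩
    change U (P.starProjection (U2 f)) = f
    rw [Submodule.starProjection_eq_self_iff.2 hmem]
    ext ⟨h, x⟩
    rw [hU', hgr]
    rcases x with s | s
    · rw [hFa]
    · rw [hFb]
  have h3 : tau V ≤ dg (SA ∪ SB) := (tau_mono _ _ h2).trans h1
  rw [hdimW] at key1
  have h4 : tau PC = dg SC := rfl
  linarith

end

end Run7.h952
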