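import Pool.Agent.Run7.h952.Rig2

/-!
The inequality of the question is equivalent to a rigidity property of normally generating
subgroups and to the monotonicity of the first L²-Betti number.
-/

set_option autoImplicit false
set_option linter.unusedSectionVars false

open scoped InnerProductSpace InnerProduct ENNReal
open Filter Topology

namespace Run7.h952

open Pool.Agent.H919R3.L2 Pool.Agent.H919R3.Stmt Pool.Agent.TH714.L2

/-- If gradients which vanish along `S'` vanish, then `dg S ≤ dg S'`. -/
theorem dg_le_of_inj {G : Type} [Group G] (S S' : Finset G)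
    (hS : Subgroup.closure (S : Set G) = ⊤)
    (h : ∀ (f : EE G S) (F : G → ℂ), IsGrad S F f → (∀ h, ∀ s ∈ S', F (h * s) = F h) → f = 0) :
    dg S ≤ dg S' := by
  classical
  obtain ⟨T, hT, hTF⟩ := exists_transport' S S' (fun s _ => by rw [hS]; trivial)
  have hbot : tau (⊥ : Submodule ℂ (EE G S)) = 0 := by
    unfold tau
    simp
  have h1 := tau_ker T hT (finCycles S)ᗮ ⊥ (finCycles_inv S).orth (finCycles S')ᗮ
    (Submodule.isClosed_orthogonal _) (by
      intro w hw
      obtain ⟨F, hF⟩ := exists_potential S w hw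
      exact grad_orth S' F _ (hTF w F hF)) (by
      intro w
      rw [Submodule.mem_bot]
      constructor
      · rintro rfl
        exact ⟨Submodule.zero_mem _, map_zero T⟩
      · rintro ⟨hw, hTw⟩
        obtain ⟨F, hF⟩ := exists_potential S w hw
        refine h w F hF ?_
        intro k s hs
        have h2 := hTF w F hF k ⟨s, hs⟩
        rw [hTw] at h2
        exact (sub_eq_zero.1 h2.symm))
  rw [hbot, zero_add] at h1
  exact h1

theorem summable_of_isGrad {G : Type} [Group G] (S : Finset G) (F : G → ℂ) (f : EE G S)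
    (hf : IsGrad S F f) (s : G) (hs : s ∈ S) : Summable fun h => ‖F (h * s) - F h‖ ^ 2 := by
  have h1 := (memlp_two_iff _).1 f.2
  have h2 : Summable fun h : G => ‖f (h, ⟨s, hs⟩)‖ ^ 2 :=
    h1.comp_injective (i := fun h : G => (h, (⟨s, hs⟩ : S)))
      (fun a b hab => (Prod.ext_iff.1 hab).1)
  refine h2.congr fun h => ?_
  rw [hf h ⟨s, hs⟩]

theorem monot_of_rigid (h : Rigid) : Monot := by
  classical
  intro Γ _ _ hΓ S hS K hK S' hS'
  have : Infinite Γ := TF.infinite' hΓ
  have hKtf : TF K := TF.of_injective K.subtype (Subgroup.subtype_injective K) hΓ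
  have hKne : K ≠ ⊥ := by
    rintro rfl
    obtain ⟨x, hx⟩ := exists_ne (1 : Γ)
    have hx' : x ∈ Subgroup.normalClosure ((⊥ : Subgroup Γ) : Set Γ) := by rw [hK]; trivial
    have h5 : Subgroup.normalClosure ((⊥ : Subgroup Γ) : Set Γ) ≤ ⊥ :=
      Subgroup.normalClosure_le_normal (le_refl _)
    exact hx (Subgroup.mem_bot.1 (h5 hx'))
  have hKnt : Nontrivial K := (Subgroup.nontrivial_iff_ne_bot K).2 hKne
  have : Infinite K := TF.infinite' hKtf
  rw [l2Betti_eq_dg S hS, l2Betti_eq_dg S' hS', ← dg_image K.subtype (Subgroup.subtype_injective K)]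
  have h1 : dg S ≤ dg (S'.image K.subtype) := by
    apply dg_le_of_inj S _ hS
    intro f F hF hFK
    have h2 : ∀ k, ∀ c ∈ Subgroup.closure ((S'.image K.subtype : Finset Γ) : Set Γ),
        F (k * c) - F k = (fun _ => (0 : ℂ)) (k * c) - (fun _ => (0 : ℂ)) k := by
      refine grad_closure F (fun _ => (0 : ℂ)) _ ?_
      intro k s hs
      rw [hFK k s hs]
      simp
    have h3 : Subgroup.closure ((S'.image K.subtype : Finset Γ) : Set Γ) = K := by
      rw [Finset.coe_image, ← MonoidHom.map_closure, hS', ← MonoidHom.range_eq_map,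
        Subgroup.range_subtype]
    rw [h3] at h2
    have h4 := h Γ hΓ S hS K hK F (fun s hs => summable_of_isGrad S F f hF s hs) (by
      intro k c hc
      have := h2 k c hc
      simpa [sub_eq_zero] using this)
    ext ⟨k, s⟩
    rw [hF, h4, h4 k, sub_self]
    rfl
  linarith

theorem osinThom_of_monot (h : Monot) : OsinThom := by
  classical
  intro Γ _ _ hΓ S hS T hT
  obtain ⟨T', hT', hcard, -⟩ := exists_fin_sub T
  have hK : Subgroup.normalClosure ((Subgroup.closure (T : Set Γ) : Subgroup Γ) : Set Γ) = ⊤ := by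
    rw [eq_top_iff, ← hT]
    exact Subgroup.normalClosure_mono Subgroup.subset_closure
  have h1 := h Γ hΓ S hS (Subgroup.closure (T : Set Γ)) hK T' hT'
  have hKtf : TF (Subgroup.closure (T : Set Γ)) :=
    TF.of_injective _ (Subgroup.subtype_injective _) hΓ
  have hKne : Subgroup.closure (T : Set Γ) ≠ ⊥ := by
    intro h0
    rw [h0] at hK
    obtain ⟨x, hx⟩ := exists_ne (1 : Γ)
    have hx' : x ∈ Subgroup.normalClosure ((⊥ : Subgroup Γ) : Set Γ) := by rw [hK]; trivial
    have h5 : Subgroup.normalClosure ((⊥ : Subgroup Γ) : Set Γ) ≤ ⊥ :=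
      Subgroup.normalClosure_le_normal (le_refl _)
    exact hx (Subgroup.mem_bot.1 (h5 hx'))
  have hKnt : Nontrivial (Subgroup.closure (T : Set Γ)) :=
    (Subgroup.nontrivial_iff_ne_bot _).2 hKne
  have : Infinite (Subgroup.closure (T : Set Γ)) := TF.infinite' hKtf
  rw [l2Betti_eq_dg T' hT'] at h1
  have h2 := dg_le_card T'
  have h3 : ((T'.card : ℕ) : ℝ) ≤ T.card := by exact_mod_cast hcard
  linarith

theorem tfae : List.TFAE [OsinThom, Rigid, Monot] := by
  tfae_have 1 → 2 := fun h => rigid_of_ineqD (ineqD_iff.2 h)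
  tfae_have 2 → 3 := monot_of_rigid
  tfae_have 3 → 1 := osinThom_of_monot
  tfae_finish

end Run7.h952
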