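import Pool.Agent.Run7.h952.Kap
import Pool.Agent.Run7.h952.Rig3

/-!
Limits of finite groups of prime power order satisfy the inequality.
-/

set_option autoImplicit false
set_option linter.unusedSectionVars false

open scoped InnerProductSpace InnerProduct ENNReal
open Filter Topology

namespace Run7.h952

open Pool.Agent.H919R3.L2 Pool.Agent.H919R3.Stmt Pool.Agent.TH714.L2

section
variable {X : Type}

theorem mapRange_ltr (w : FreeGroup X) (L : (FreeGroup X × X) →₀ ℤ) :
    Finsupp.mapRange (Int.cast : ℤ → ℝ) Int.cast_zero (ltr w L)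
      = ltr w (Finsupp.mapRange (Int.cast : ℤ → ℝ) Int.cast_zero L) := by
  induction L using Finsupp.induction_linear with
  | zero => simp
  | add f g hf hg =>
    rw [map_add, Finsupp.mapRange_add (by intro a b; push_cast; rfl),
      Finsupp.mapRange_add (by intro a b; push_cast; rfl), map_add, hf, hg]
  | single p a =>
    rw [ltr_single, Finsupp.mapRange_single, Finsupp.mapRange_single, ltr_single]

theorem Dr_mul (u v : FreeGroup X) : Dr (u * v) = Dr u + ltr u (Dr v) := by
  unfold Dr
  rw [Dz_mul, Finsupp.mapRange_add (by intro a b; push_cast; rfl), mapRange_ltr]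

theorem Dr_one : Dr (1 : FreeGroup X) = 0 := by
  unfold Dr
  rw [Dz_one, Finsupp.mapRange_zero]

theorem Dr_of (x : X) : Dr (FreeGroup.of x) = Finsupp.single (1, x) 1 := by
  unfold Dr
  rw [Dz_of, Finsupp.mapRange_single, Int.cast_one]

theorem Dr_inv (u : FreeGroup X) : Dr u⁻¹ = - ltr u⁻¹ (Dr u) := by
  have h := Dr_mul u⁻¹ u
  rw [inv_mul_cancel, Dr_one] at h
  exact eq_neg_of_add_eq_zero_left h.symm

end

section
variable {G : Type} [Group G]

theorem ev_Dr (S : Finset G) (u : FreeGroup S) :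
    ev (ph S (id : S → S)) (Dr u) = DD S id u := by
  induction u using FreeGroup.induction_on with
  | C1 => rw [Dr_one, ev_zero, DD_one]
  | of x =>
    rw [Dr_of, ev_single, DD_of, map_one, Complex.ofReal_one, one_smul]
    rfl
  | inv_of x hx =>
    rw [Dr_inv, DD_inv, ← hx, ← map_inv, ← ev_ltr]
    have h : -ltr (FreeGroup.of x)⁻¹ (Dr (FreeGroup.of x))
        = (-1 : ℝ) • ltr (FreeGroup.of x)⁻¹ (Dr (FreeGroup.of x)) := by
      rw [neg_one_smul]
    rw [h, ev_smul]
    push_cast
    rw [neg_one_smul]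
  | mul u v hu hv => rw [Dr_mul, DD_mul, ev_add, ev_ltr, hu, hv]

theorem dg_le_of_approx (S : Finset G) (hS : Subgroup.closure (S : Set G) = ⊤) (T : Finset G)
    (hT : Subgroup.normalClosure (T : Set G) = ⊤)
    (hC : ∀ E : Finset (FreeGroup S), ∃ (p : ℕ) (_ : Fact p.Prime) (P : Type) (_ : Group P)
      (_ : Finite P) (ρ' : FreeGroup S →* P), IsPGroup p P ∧ Function.Surjective ρ' ∧
      ∀ w ∈ E, (ρ' w = 1 ↔ ph S (id : S → S) w = 1)) : dg S ≤ T.card := by
  classical
  set ρ := ph S (id : S → S) with hρ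
  have hsurj : Function.Surjective ρ := by
    intro g
    have hg : g ∈ ρ.range := by
      rw [hρ, range_ph, hS]
      trivial
    exact hg
  choose w hw using fun t : T => hsurj (t : G)
  let Kset : Set (FreeGroup S) := {u | ρ u = 1} ∪ Set.range w
  have hK : Subgroup.normalClosure Kset = ⊤ := by
    set N := Subgroup.normalClosure Kset with hN
    have hNn : N.Normal := Subgroup.normalClosure_normal
    have hker : ∀ u, ρ u = 1 → u ∈ N := fun u hu => Subgroup.subset_normalClosure (Or.inl hu)
    have hmap : (N.map ρ).Normal := Subgroup.Normal.map hNn ρ hsurj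
    have h1 : Subgroup.normalClosure (T : Set G) ≤ N.map ρ := by
      refine Subgroup.normalClosure_le_normal ?_
      intro t ht
      exact ⟨w ⟨t, ht⟩, Subgroup.subset_normalClosure (Or.inr ⟨⟨t, ht⟩, rfl⟩), hw ⟨t, ht⟩⟩
    rw [hT] at h1
    rw [eq_top_iff]
    intro u _
    obtain ⟨v, hv, hvu⟩ := h1 (Subgroup.mem_top (ρ u))
    have h2 : v⁻¹ * u ∈ N := hker _ (by rw [map_mul, map_inv, hvu, inv_mul_cancel])
    have h3 := mul_mem hv h2
    rwa [mul_inv_cancel_left] at h3
  obtain ⟨U, hUK, hU⟩ := exists_U Kset hK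
  obtain ⟨B, hB, hBd⟩ := exists_B (G := G) (I := U) (J := S)
    (fun u => ev ρ (Dr (u : FreeGroup S))) (fun u => ev_mem_FS ρ _)
  have hdm := ker_zero ρ U hU hC B hB hBd
  obtain ⟨C, hCe, hCd⟩ := exists_B (G := G) (I := T) (J := S)
    (fun t => DD S id (w t)) (fun t => DD_mem_FS S id _)
  set RC := LinearMap.range (C : EE G T →ₗ[ℂ] EE G S) with hRC
  have hRCi : Pool.Agent.TH714.L2.Inv RC := by
    rintro k _ ⟨f, rfl⟩
    exact ⟨tr k f, hCe k f⟩
  have hle : LinearMap.range (B : EE G U →ₗ[ℂ] EE G S) ≤ (finCycles S ⊔ RC).topologicalClosure := by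
    rw [← Submodule.orthogonal_orthogonal_eq_closure]
    rintro _ ⟨g, rfl⟩
    rw [Submodule.mem_orthogonal]
    intro f hf
    have h1 : ContinuousLinearMap.adjoint B f = 0 := by
      ext ⟨h, u⟩
      rw [← inner_dl_left, ContinuousLinearMap.adjoint_inner_right, hBd]
      have h2 : tr h (ev ρ (Dr (u : FreeGroup S))) ∈ finCycles S ⊔ RC := by
        rw [ev_Dr]
        rcases hUK u.2 with h3 | ⟨t, ht⟩
        · exact Submodule.mem_sup_left (finCycles_inv S _ _ (DD_mem_finCycles S id _ h3))
        · refine Submodule.mem_sup_right ?_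
          rw [← ht, ← hCd]
          exact ⟨_, rfl⟩
      exact Submodule.inner_right_of_mem_orthogonal h2 hf
    change ⟪f, B g⟫_ℂ = 0
    rw [← ContinuousLinearMap.adjoint_inner_left, h1, inner_zero_left]
  have h4 := dm_mono hle
  rw [dm_closure, hdm] at h4
  have h5 := dm_sup_le (finCycles_inv S) hRCi
  have h6 : dm RC ≤ Fintype.card T := tau_le_card C hCe _ rfl
  have h7 : dg S = S.card - dm (finCycles S) := tau_finCycles_orth S
  rw [Fintype.card_coe] at h4 h6
  linarith

theorem val_eq_zero_of_inv {t : G} (ht : ∀ n : ℤ, n ≠ 0 → t ^ n ≠ 1) (c : G → ℂ)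
    (hc : Summable fun h => ‖c h‖ ^ 2) (hinv : ∀ h, c (h * t) = c h) : ∀ h, c h = 0 := by
  have h1 : Memℓp (fun y : G × Unit => c y.1) 2 := by
    apply memlp_prod
    intro u
    rw [memlp_two_iff]
    exact hc
  have h2 := inv_eq_zero_of_right_inv t ht ⟨fun y : G × Unit => c y.1, h1⟩ (fun h => hinv h)
  intro h
  have h3 := congrArg (fun f : EE G Unit => f (h, ())) h2
  exact h3

/-- Two nontrivial elements with commuting normal closures. -/
theorem dg_le_one_of_comm (hG : TF G) (S : Finset G) (hS : Subgroup.closure (S : Set G) = ⊤)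
    (x y : G) (hx : x ≠ 1) (hy : y ≠ 1) (hxy : ∀ g : G, g * x * g⁻¹ * y = y * (g * x * g⁻¹)) :
    dg S ≤ 1 := by
  classical
  have h0 : dg S ≤ dg ({y} : Finset G) := by
    apply dg_le_of_inj S {y} hS
    intro f F hF hFy
    have hFy' : ∀ h, F (h * y) = F h := fun h => hFy h y (Finset.mem_singleton_self y)
    have hsum : ∀ g : G, Summable fun h => ‖F (h * g) - F h‖ ^ 2 := by
      intro g
      obtain ⟨T, -, hTF⟩ := exists_transport' S {g} (fun s _ => by rw [hS]; trivial)
      exact summable_of_isGrad {g} F (T f) (hTF f F hF) g (Finset.mem_singleton_self g)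
    have hk : ∀ g h : G, F (h * (g * x * g⁻¹)) = F h := by
      intro g h
      have h1 := val_eq_zero_of_inv (fun n hn => pow_ne_of_tf hG hy n hn)
        (fun h => F (h * (g * x * g⁻¹)) - F h) (hsum _) (by
          intro h
          have h2 : h * y * (g * x * g⁻¹) = h * (g * x * g⁻¹) * y := by
            rw [mul_assoc, ← hxy g, ← mul_assoc]
          change F (h * y * (g * x * g⁻¹)) - F (h * y) = _
          rw [h2, hFy', hFy'])
      exact sub_eq_zero.1 (h1 h)
    ext ⟨h, s⟩
    rw [hF]
    have hs1 : (s : G) * x * (s : G)⁻¹ ≠ 1 := by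
      intro h1
      apply hx
      have h2 : x = (s : G)⁻¹ * ((s : G) * x * (s : G)⁻¹) * s := by group
      rw [h2, h1]
      group
    have h1 := val_eq_zero_of_inv (fun n hn => pow_ne_of_tf hG hs1 n hn)
      (fun h => F (h * s) - F h) (hsum _) (by
        intro h
        have h2 : h * ((s : G) * x * (s : G)⁻¹) * s = h * s * (1 * x * 1⁻¹) := by group
        change F (h * ((s : G) * x * (s : G)⁻¹) * s) - F (h * ((s : G) * x * (s : G)⁻¹)) = _
        rw [hk, h2, hk])
    exact h1 h
  have h1 := dg_le_card ({y} : Finset G)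
  rw [Finset.card_singleton] at h1
  push_cast at h1
  linarith

end

end Run7.h952
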