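import Pool.Agent.Run7.h952.NilA
import Pool.Agent.Helper111.EN.Resid

/-!
Finitely generated torsion-free limits of nilpotent groups satisfy the inequality.
-/

set_option autoImplicit false
set_option linter.unusedSectionVars false

namespace Run7.h952

open Pool.Agent.H919R3.L2 Pool.Agent.H919R3.Stmt Pool.Agent.TH714.L2

/-- Local embeddability into nilpotent groups: every finite subset embeds, together with its
partial multiplication, in a nilpotent group. -/
def LocNilp (Γ : Type) [Group Γ] : Prop :=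
  ∀ E : Finset Γ, ∃ (Q : Type) (_ : Group Q) (φ : Γ → Q), Group.IsNilpotent Q ∧
    Set.InjOn φ (E : Set Γ) ∧
    ∀ x ∈ E, ∀ y ∈ E, x * y ∈ E → φ (x * y) = φ x * φ y

section
variable {G : Type} [Group G]

/-- An element of all the normal subgroups which contain one of finitely many elements. -/
theorem exists_common [Nontrivial G] {F : Type} [Group F] (ρ : F →* G)
    (hρ : Function.Surjective ρ)
    (hcomm : ∀ x y : G, x ≠ 1 → y ≠ 1 → ∃ g, g * x * g⁻¹ * y ≠ y * (g * x * g⁻¹))
    (E : Finset F) (hE : ∀ w ∈ E, ρ w ≠ 1) :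
    ∃ z : F, ρ z ≠ 1 ∧ ∀ w ∈ E, ∀ N : Subgroup F, N.Normal → w ∈ N → z ∈ N := by
  classical
  induction E using Finset.induction_on with
  | empty =>
    obtain ⟨x, hx⟩ := exists_ne (1 : G)
    obtain ⟨z, rfl⟩ := hρ x
    exact ⟨z, hx, by simp⟩
  | insert w E _ ih =>
    obtain ⟨z, hz, hzE⟩ := ih (fun w hw => hE w (Finset.mem_insert_of_mem hw))
    obtain ⟨g, hg⟩ := hcomm (ρ z) (ρ w) hz (hE w (Finset.mem_insert_self _ _))
    obtain ⟨v, rfl⟩ := hρ g
    refine ⟨v * z * v⁻¹ * w * (v * z * v⁻¹)⁻¹ * w⁻¹, ?_, ?_⟩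
    · intro h
      apply hg
      have h1 : ρ (v * z * v⁻¹ * w * (v * z * v⁻¹)⁻¹ * w⁻¹)
          = (ρ v * ρ z * (ρ v)⁻¹ * ρ w) * (ρ w * (ρ v * ρ z * (ρ v)⁻¹))⁻¹ := by
        simp only [map_mul, map_inv, mul_inv_rev, mul_assoc, inv_inv]
      rw [h1, mul_inv_eq_one] at h
      exact h
    · intro w' hw' N hN hw'N
      rcases Finset.mem_insert.1 hw' with rfl | hw'
      · have h1 := hN.conj_mem w' hw'N (v * z * v⁻¹)
        exact mul_mem h1 (inv_mem hw'N)
      · have h0 := hzE w' hw' N hN hw'N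
        have h1 := hN.conj_mem z h0 v
        have h2 := hN.conj_mem _ (inv_mem h1) w
        have h3 := mul_mem h1 h2
        have h4 : v * z * v⁻¹ * w * (v * z * v⁻¹)⁻¹ * w⁻¹
            = v * z * v⁻¹ * (w * (v * z * v⁻¹)⁻¹ * w⁻¹) := by group
        rw [h4]
        exact h3

theorem approx_of_nil [Nontrivial G] {X : Type} [Finite X] (ρ : FreeGroup X →* G)
    (hρ : Function.Surjective ρ)
    (hB : ∀ E : Finset (FreeGroup X), ∃ (Q : Type) (_ : Group Q) (ρ' : FreeGroup X →* Q),
      Group.IsNilpotent Q ∧ ∀ w ∈ E, (ρ' w = 1 ↔ ρ w = 1))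
    (hcomm : ∀ x y : G, x ≠ 1 → y ≠ 1 → ∃ g, g * x * g⁻¹ * y ≠ y * (g * x * g⁻¹))
    (E : Finset (FreeGroup X)) : ∃ (p : ℕ) (_ : Fact p.Prime) (P : Type) (_ : Group P)
      (_ : Finite P) (ρ' : FreeGroup X →* P), IsPGroup p P ∧ Function.Surjective ρ' ∧
      ∀ w ∈ E, (ρ' w = 1 ↔ ρ w = 1) := by
  classical
  obtain ⟨z, hz, hzE⟩ := exists_common ρ hρ hcomm (E.filter fun w => ρ w ≠ 1)
    (fun w hw => (Finset.mem_filter.1 hw).2)
  obtain ⟨Q, _, ρ', hnil, hρ'⟩ := hB (insert z E)
  have hnil' : Group.IsNilpotent ρ'.range := inferInstance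
  have hfgF : Group.FG (FreeGroup X) := inferInstance
  have hfg : Group.FG ρ'.range := inferInstance
  have hz' : ρ'.rangeRestrict z ≠ 1 := by
    intro h
    have h1 : ρ' z = 1 := congrArg Subtype.val h
    exact hz ((hρ' z (Finset.mem_insert_self _ _)).1 h1)
  obtain ⟨r, hr, -, N, hN, hzN, hfin, hP⟩ := Pool.Agent.Helper111.EN.resid (K := ρ'.range) ∅
    (by simp) 2 Nat.prime_two (by simp) (by simp) (ρ'.rangeRestrict z) hz'
  refine ⟨r, ⟨hr⟩, ρ'.range ⧸ N, inferInstance, hfin,
    (QuotientGroup.mk' N).comp ρ'.rangeRestrict, hP, ?_, ?_⟩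
  · exact (QuotientGroup.mk'_surjective N).comp ρ'.rangeRestrict_surjective
  · intro w hw
    constructor
    · intro h
      by_contra hne
      have h1 := hzE w (Finset.mem_filter.2 ⟨hw, hne⟩)
        ((QuotientGroup.mk' N).comp ρ'.rangeRestrict).ker inferInstance h
      apply hzN
      exact (QuotientGroup.eq_one_iff _).1 h1
    · intro h
      have h1 : ρ' w = 1 := (hρ' w (Finset.mem_insert_of_mem hw)).2 h
      have h2 : ρ'.rangeRestrict w = 1 := Subtype.ext h1
      rw [MonoidHom.comp_apply, h2, map_one]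

/-- Local embeddings of a finitely generated group give homomorphisms of the free group. -/
theorem marked_of_locNilp (h : LocNilp G) (S : Finset G) (E : Finset (FreeGroup S)) :
    ∃ (Q : Type) (_ : Group Q) (ρ' : FreeGroup S →* Q),
      Group.IsNilpotent Q ∧ ∀ w ∈ E, (ρ' w = 1 ↔ ph S (id : S → S) w = 1) := by
  classical
  set ρ := ph S (id : S → S) with hρ
  let A : Finset G := insert 1 ((S ∪ S.image fun s => s⁻¹) ∪
    E.biUnion fun w => ((w.toWord.tails).map fun L => ρ (FreeGroup.mk L)).toFinset)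
  obtain ⟨Q, _, φ, hnil, hinj, hmul⟩ := h A
  have h1A : (1 : G) ∈ A := Finset.mem_insert_self _ _
  have hSA : ∀ s : S, (s : G) ∈ A := fun s => Finset.mem_insert_of_mem
    (Finset.mem_union_left _ (Finset.mem_union_left _ s.2))
  have hSA' : ∀ s : S, (s : G)⁻¹ ∈ A := fun s => Finset.mem_insert_of_mem
    (Finset.mem_union_left _ (Finset.mem_union_right _ (Finset.mem_image_of_mem _ s.2)))
  have hφ1 : φ 1 = 1 := by
    have h1 := hmul 1 h1A 1 h1A (by rw [mul_one]; exact h1A)
    rw [mul_one] at h1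
    exact (mul_eq_left.1 h1.symm)
  have hφinv : ∀ s : S, φ (s : G)⁻¹ = (φ s)⁻¹ := by
    intro s
    have h1 := hmul (s : G) (hSA s) (s : G)⁻¹ (hSA' s) (by rw [mul_inv_cancel]; exact h1A)
    rw [mul_inv_cancel, hφ1] at h1
    exact (inv_eq_of_mul_eq_one_right h1.symm).symm
  let ρ' : FreeGroup S →* Q := FreeGroup.lift fun s => φ (s : G)
  have key : ∀ L : List (S × Bool), (∀ L' ∈ L.tails, ρ (FreeGroup.mk L') ∈ A) →
      ρ' (FreeGroup.mk L) = φ (ρ (FreeGroup.mk L)) := by
    intro L
    induction L with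
    | nil =>
      intro _
      have h0 : (FreeGroup.mk ([] : List (S × Bool))) = 1 := rfl
      rw [h0, map_one, map_one, hφ1]
    | cons a L ih =>
      intro hL
      have hL' := ih (fun L' hL'' => hL L' (by rw [List.tails_cons]; exact List.mem_cons_of_mem _ hL''))
      have hmem1 : ρ (FreeGroup.mk L) ∈ A := hL L (by
        rw [List.tails_cons]
        exact List.mem_cons_of_mem _ ((List.mem_tails _ _).2 (List.suffix_refl L)))
      have hmem2 : ρ (FreeGroup.mk (a :: L)) ∈ A := hL (a :: L)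
        ((List.mem_tails _ _).2 (List.suffix_refl _))
      have hsplit : (FreeGroup.mk (a :: L)) = FreeGroup.mk [a] * FreeGroup.mk L := by
        rw [FreeGroup.mul_mk]
        rfl
      rw [hsplit, map_mul, map_mul, hL']
      rw [hsplit, map_mul] at hmem2
      obtain ⟨s, b⟩ := a
      cases b
      · have e1 : FreeGroup.mk [(s, false)] = (FreeGroup.of s)⁻¹ := by
          rw [FreeGroup.of, FreeGroup.inv_mk]
          rfl
        have e2 : ρ (FreeGroup.mk [(s, false)]) = (s : G)⁻¹ := by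
          rw [e1, map_inv, hρ, ph_of]
          rfl
        have e3 : ρ' (FreeGroup.mk [(s, false)]) = (φ s)⁻¹ := by
          rw [e1, map_inv]
          simp [ρ']
        rw [e2] at hmem2 ⊢
        rw [e3, ← hφinv, hmul _ (hSA' s) _ hmem1 hmem2]
      · have e1 : FreeGroup.mk [(s, true)] = FreeGroup.of s := rfl
        have e2 : ρ (FreeGroup.mk [(s, true)]) = (s : G) := by
          rw [e1, hρ, ph_of]
          rfl
        have e3 : ρ' (FreeGroup.mk [(s, true)]) = φ s := by
          rw [e1]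
          simp [ρ']
        rw [e2] at hmem2 ⊢
        rw [e3, hmul _ (hSA s) _ hmem1 hmem2]
  refine ⟨Q, inferInstance, ρ', hnil, ?_⟩
  intro w hw
  have hwA : ∀ L' ∈ w.toWord.tails, ρ (FreeGroup.mk L') ∈ A := by
    intro L' hL'
    refine Finset.mem_insert_of_mem (Finset.mem_union_right _ (Finset.mem_biUnion.2 ⟨w, hw, ?_⟩))
    rw [List.mem_toFinset, List.mem_map]
    exact ⟨L', hL', rfl⟩
  have h1 := key w.toWord hwA
  rw [FreeGroup.mk_toWord] at h1
  have hwmem : ρ w ∈ A := by
    have := hwA w.toWord ((List.mem_tails _ _).2 (List.suffix_refl _))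
    rwa [FreeGroup.mk_toWord] at this
  rw [h1]
  constructor
  · intro h2
    exact hinj (Finset.mem_coe.2 hwmem) (Finset.mem_coe.2 h1A) (by rw [h2, hφ1])
  · intro h2
    rw [h2, hφ1]

/-- The inequality for torsion-free limits of nilpotent groups. -/
theorem limit_nilpotent [Nontrivial G] (hG : TF G) (h : LocNilp G) (S : Finset G)
    (hS : Subgroup.closure (S : Set G) = ⊤) (T : Finset G)
    (hT : Subgroup.normalClosure (T : Set G) = ⊤) : l2Betti S ≤ (T.card : ℝ) - 1 := by
  classical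
  have : Infinite G := TF.infinite' hG
  rw [l2Betti_eq_dg S hS]
  have hsurj : Function.Surjective (ph S (id : S → S)) := by
    intro g
    have hg : g ∈ (ph S (id : S → S)).range := by
      rw [range_ph, hS]
      trivial
    exact hg
  have hT1 : 1 ≤ T.card := by
    rw [Nat.one_le_iff_ne_zero, Finset.card_ne_zero, Finset.nonempty_iff_ne_empty]
    rintro rfl
    obtain ⟨x, hx⟩ := exists_ne (1 : G)
    have h1 : x ∈ Subgroup.normalClosure ((∅ : Finset G) : Set G) := by rw [hT]; trivial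
    rw [Finset.coe_empty, Subgroup.normalClosure_empty] at h1
    exact hx (Subgroup.mem_bot.1 h1)
  have hT1' : (1 : ℝ) ≤ T.card := by exact_mod_cast hT1
  by_cases hcomm : ∀ x y : G, x ≠ 1 → y ≠ 1 → ∃ g, g * x * g⁻¹ * y ≠ y * (g * x * g⁻¹)
  · have := dg_le_of_approx S hS T hT (approx_of_nil (ph S (id : S → S)) hsurj
      (marked_of_locNilp h S) hcomm)
    linarith
  · push Not at hcomm
    obtain ⟨x, y, hx, hy, hxy⟩ := hcomm
    have := dg_le_one_of_comm hG S hS x y hx hy hxy
    linarith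

end

end Run7.h952
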