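import Pool.Agent.Run7.h952.MV
import Pool.Agent.H919R3.L2.Compare

/-!
An ordered version of a theorem of Szegő: a closed invariant subspace whose orthogonal complement
contains vectors with prescribed leading terms is trivial.
-/

set_option autoImplicit false
set_option linter.unusedSectionVars false

open scoped InnerProductSpace InnerProduct ENNReal
open Filter Topology

namespace Run7.h952

open Pool.Agent.H919R3.L2 Pool.Agent.H919R3.Stmt Pool.Agent.TH714.L2

section
variable {G I Ω : Type} [Group G] [Fintype I] [LinearOrder Ω] [MulAction G Ω]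

theorem tr_closure (A : Set (EE G I)) (P : Submodule ℂ (EE G I)) (hP : IsClosed (P : Set (EE G I)))
    (k : G) (h : ∀ f ∈ A, tr k f ∈ P) : ∀ f ∈ (Submodule.span ℂ A).topologicalClosure,
    tr k f ∈ P := by
  let Q : Submodule ℂ (EE G I) :=
    { carrier := {f | tr k f ∈ P}
      add_mem' := by
        intro f g hf hg
        change tr k (f + g) ∈ P
        rw [tr_add]
        exact P.add_mem hf hg
      zero_mem' := by
        change tr k (0 : EE G I) ∈ P
        rw [tr_zero']
        exact P.zero_mem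
      smul_mem' := by
        intro c f hf
        change tr k (c • f) ∈ P
        rw [tr_smul]
        exact P.smul_mem c hf }
  have hQ : IsClosed (Q : Set (EE G I)) := hP.preimage (continuous_tr k)
  have h1 : (Submodule.span ℂ A).topologicalClosure ≤ Q :=
    Submodule.topologicalClosure_minimal _ (Submodule.span_le.2 h) hQ
  intro f hf
  exact h1 hf

theorem apply_closure (A : Set (EE G I)) (q : G × I) (h : ∀ f ∈ A, f q = 0) :
    ∀ f ∈ (Submodule.span ℂ A).topologicalClosure, f q = 0 := by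
  let Q : Submodule ℂ (EE G I) :=
    { carrier := {f | f q = 0}
      add_mem' := by
        intro f g hf hg
        change f q + g q = 0
        rw [show f q = 0 from hf, show g q = 0 from hg, add_zero]
      zero_mem' := rfl
      smul_mem' := by
        intro c f hf
        change c * f q = 0
        rw [show f q = 0 from hf, mul_zero] }
  have hQ : IsClosed (Q : Set (EE G I)) := by
    have : (Q : Set (EE G I)) = (fun f : EE G I => f q) ⁻¹' {0} := rfl
    rw [this]
    exact isClosed_singleton.preimage (continuous_eval q)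
  have h1 : (Submodule.span ℂ A).topologicalClosure ≤ Q :=
    Submodule.topologicalClosure_minimal _ (Submodule.span_le.2 h) hQ
  intro f hf
  exact h1 hf

/-- Generators of level larger than `α`; the level of the translate of `w i` by `h` is `h • ω i`. -/
def Agt (ω : I → Ω) (w : I → EE G I) (α : Ω) : Set (EE G I) :=
  {f | ∃ (h : G) (i : I), α < h • ω i ∧ f = tr h (w i)}

/-- Generators of level at least `α`. -/
def Age (ω : I → Ω) (w : I → EE G I) (α : Ω) : Set (EE G I) :=
  {f | ∃ (h : G) (i : I), α ≤ h • ω i ∧ f = tr h (w i)}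

noncomputable def Mgt (ω : I → Ω) (w : I → EE G I) (α : Ω) : Submodule ℂ (EE G I) :=
  (Submodule.span ℂ (Agt ω w α)).topologicalClosure

noncomputable def Mge (ω : I → Ω) (w : I → EE G I) (α : Ω) : Submodule ℂ (EE G I) :=
  (Submodule.span ℂ (Age ω w α)).topologicalClosure

/-- The innovation space. -/
noncomputable def NN (ω : I → Ω) (w : I → EE G I) (α : Ω) : Submodule ℂ (EE G I) :=
  Mge ω w α ⊓ (Mgt ω w α)ᗮ

variable (ω : I → Ω) (w : I → EE G I) (α : Ω)

theorem isClosed_Mgt : IsClosed (Mgt ω w α : Set (EE G I)) :=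
  Submodule.isClosed_topologicalClosure _

theorem isClosed_Mge : IsClosed (Mge ω w α : Set (EE G I)) :=
  Submodule.isClosed_topologicalClosure _

theorem isClosed_NN : IsClosed (NN ω w α : Set (EE G I)) := by
  unfold NN
  rw [Submodule.coe_inf]
  exact (isClosed_Mge ω w α).inter (Submodule.isClosed_orthogonal _)

instance NN_complete : CompleteSpace (NN ω w α) := (isClosed_NN ω w α).completeSpace_coe

instance Mgt_complete : CompleteSpace (Mgt ω w α) := (isClosed_Mgt ω w α).completeSpace_coe

variable (hmono : ∀ (g : G) (a b : Ω), a < b → g • a < g • b)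

include hmono in
theorem mono_le (g : G) (a b : Ω) (h : a ≤ b) : g • a ≤ g • b := by
  rcases h.lt_or_eq with h | rfl
  · exact (hmono g _ _ h).le
  · exact le_refl _

include hmono in
theorem tr_Mge (k : G) (f : EE G I) (hf : f ∈ Mge ω w α) : tr k f ∈ Mge ω w (k • α) := by
  refine tr_closure (Age ω w α) (Mge ω w (k • α)) (isClosed_Mge ω w _) k ?_ f hf
  rintro _ ⟨h, i, hh, rfl⟩
  refine Submodule.le_topologicalClosure _ (Submodule.subset_span ⟨k * h, i, ?_, ?_⟩)
  · rw [mul_smul]
    exact mono_le hmono k _ _ hh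
  · rw [tr_tr]

include hmono in
theorem tr_Mgt (k : G) (f : EE G I) (hf : f ∈ Mgt ω w α) : tr k f ∈ Mgt ω w (k • α) := by
  refine tr_closure (Agt ω w α) (Mgt ω w (k • α)) (isClosed_Mgt ω w _) k ?_ f hf
  rintro _ ⟨h, i, hh, rfl⟩
  refine Submodule.le_topologicalClosure _ (Submodule.subset_span ⟨k * h, i, ?_, ?_⟩)
  · rw [mul_smul]
    exact hmono k _ _ hh
  · rw [tr_tr]

theorem Mge_le_Mgt (β : Ω) (h : α < β) : Mge ω w β ≤ Mgt ω w α := by
  apply Submodule.topologicalClosure_mono
  apply Submodule.span_mono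
  rintro _ ⟨k, i, hk, rfl⟩
  exact ⟨k, i, h.trans_le hk, rfl⟩

theorem Mgt_le_Mge : Mgt ω w α ≤ Mge ω w α := by
  apply Submodule.topologicalClosure_mono
  apply Submodule.span_mono
  rintro _ ⟨h, i, hh, rfl⟩
  exact ⟨h, i, hh.le, rfl⟩

include hmono in
theorem tr_NN (k : G) (f : EE G I) (hf : f ∈ NN ω w α) : tr k f ∈ NN ω w (k • α) := by
  refine ⟨tr_Mge ω w α hmono k f hf.1, (Submodule.mem_orthogonal _ _).2 ?_⟩
  intro u hu
  have h1 : ⟪u, tr k f⟫_ℂ = ⟪tr k⁻¹ u, f⟫_ℂ := by
    rw [inner_tr_left, inv_inv]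
  rw [h1]
  have h2 := tr_Mgt ω w (k • α) hmono k⁻¹ u hu
  rw [inv_smul_smul] at h2
  exact Submodule.inner_right_of_mem_orthogonal h2 hf.2

theorem NN_orth (β : Ω) (h : α ≠ β) (f f' : EE G I) (hf : f ∈ NN ω w α) (hf' : f' ∈ NN ω w β) :
    ⟪f, f'⟫_ℂ = 0 := by
  rcases lt_or_gt_of_ne h with h | h
  · exact Submodule.inner_left_of_mem_orthogonal (Mge_le_Mgt ω w α β h hf'.1) hf.2
  · exact Submodule.inner_right_of_mem_orthogonal (Mge_le_Mgt ω w β α h hf.1) hf'.2

include hmono in
theorem proj_tr (k : G) (v : EE G I) :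
    (NN ω w (k • α)).starProjection (tr k v) = tr k ((NN ω w α).starProjection v) := by
  apply Submodule.eq_starProjection_of_mem_orthogonal
  · exact tr_NN ω w α hmono k _ (Submodule.starProjection_apply_mem _ _)
  · rw [← tr_sub]
    refine (Submodule.mem_orthogonal _ _).2 ?_
    intro u hu
    have h1 : ∀ z : EE G I, ⟪u, tr k z⟫_ℂ = ⟪tr k⁻¹ u, z⟫_ℂ := by
      intro z
      rw [inner_tr_left, inv_inv]
    rw [h1]
    have h2 := tr_NN ω w (k • α) hmono k⁻¹ u hu
    rw [inv_smul_smul] at h2
    exact Submodule.inner_right_of_mem_orthogonal h2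
      (Submodule.sub_starProjection_mem_orthogonal v)

/-- A bound for pairwise orthogonal projections. -/
theorem sum_proj_le {E : Type} [NormedAddCommGroup E] [InnerProductSpace ℂ E] {κ : Type}
    (p : κ → E) (v : E) (s : Finset κ) (horth : ∀ a ∈ s, ∀ b ∈ s, a ≠ b → ⟪p a, p b⟫_ℂ = 0)
    (hp : ∀ a ∈ s, ⟪p a, v⟫_ℂ = ⟪p a, p a⟫_ℂ) : ∑ a ∈ s, ‖p a‖ ^ 2 ≤ ‖v‖ ^ 2 := by
  classical
  set P := ∑ a ∈ s, p a with hP
  have h1 : ⟪P, P⟫_ℂ = ((∑ a ∈ s, ‖p a‖ ^ 2 : ℝ) : ℂ) := by
    rw [hP, sum_inner]
    push_cast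
    refine Finset.sum_congr rfl fun a ha => ?_
    rw [inner_sum, Finset.sum_eq_single a]
    · rw [inner_self_eq_norm_sq_to_K]; norm_cast
    · intro b hb hba
      exact horth a ha b hb (Ne.symm hba)
    · intro h
      exact absurd ha h
  have h2 : ⟪P, v⟫_ℂ = ⟪P, P⟫_ℂ := by
    rw [h1, hP, sum_inner]
    push_cast
    refine Finset.sum_congr rfl fun a ha => ?_
    rw [hp a ha, inner_self_eq_norm_sq_to_K]; norm_cast
  have h3 : ‖P‖ ^ 2 = ∑ a ∈ s, ‖p a‖ ^ 2 := by
    rw [inner_self_eq_norm_sq_to_K] at h1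
    apply Complex.ofReal_injective
    rw [← h1]
    push_cast
    rfl
  have h4 : ‖P‖ ^ 2 ≤ ‖P‖ * ‖v‖ := by
    have h5 := norm_inner_le_norm (𝕜 := ℂ) P v
    rw [h2, inner_self_eq_norm_sq_to_K] at h5
    simpa using h5
  have h5 : ‖P‖ ≤ ‖v‖ := by
    by_contra h
    push Not at h
    have h6 : 0 < ‖P‖ := (norm_nonneg v).trans_lt h
    nlinarith
  rw [← h3]
  gcongr

/-- The projection onto the innovation space. -/
noncomputable def PN : EE G I →L[ℂ] EE G I := (NN ω w α).starProjection

/-- The innovation functional. -/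
noncomputable def SS (v : EE G I) (q : G × I) : ℂ := PN ω w (q.1 • ω q.2) v q

theorem SS_sum_le (v : EE G I) (s : Finset (G × I)) : ∑ q ∈ s, ‖SS ω w v q‖ ^ 2 ≤ ‖v‖ ^ 2 := by
  classical
  let κ : G × I → Ω := fun q => q.1 • ω q.2
  let p : Ω → EE G I := fun a => (NN ω w a).starProjection v
  have h2 := sum_proj_le p v (s.image κ) (by
    intro a ha b hb hab
    exact NN_orth ω w a b hab _ _ (Submodule.starProjection_apply_mem _ _)
      (Submodule.starProjection_apply_mem _ _)) (by
    intro a ha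
    change ⟪(NN ω w a).starProjection v, v⟫_ℂ = ⟪(NN ω w a).starProjection v,
      (NN ω w a).starProjection v⟫_ℂ
    rw [Submodule.inner_starProjection_left_eq_right, Submodule.inner_starProjection_left_eq_right,
      Submodule.starProjection_eq_self_iff.2 (Submodule.starProjection_apply_mem _ _)])
  refine le_trans ?_ h2
  rw [← Finset.sum_fiberwise_of_maps_to (s := s) (t := s.image κ) (g := κ)
    (fun q hq => Finset.mem_image_of_mem κ hq)]
  refine Finset.sum_le_sum fun a ha => ?_
  have h4 : ∀ q ∈ s.filter (fun q => κ q = a), ‖SS ω w v q‖ ^ 2 = ‖p a q‖ ^ 2 := by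
    intro q hq
    obtain ⟨hq1, hq2⟩ := Finset.mem_filter.1 hq
    change ‖PN ω w (κ q) v q‖ ^ 2 = _
    rw [hq2]
    rfl
  rw [Finset.sum_congr rfl h4, norm_sq_eq]
  exact ((memlp_two_iff _).1 (p a).2).sum_le_tsum _ (fun _ _ => by positivity)

theorem exists_SS : ∃ S : EE G I →L[ℂ] EE G I, ∀ v q, S v q = SS ω w v q := by
  have hmem : ∀ v : EE G I, Memℓp (SS ω w v) 2 := by
    intro v
    refine memℓp_gen' (C := ‖v‖ ^ 2) ?_
    intro s
    have := SS_sum_le ω w v s
    simpa using this
  let L : EE G I →ₗ[ℂ] EE G I :=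
    { toFun := fun v => ⟨SS ω w v, hmem v⟩
      map_add' := by
        intro u v
        ext q
        change PN ω w (q.1 • ω q.2) (u + v) q
          = PN ω w (q.1 • ω q.2) u q + PN ω w (q.1 • ω q.2) v q
        rw [map_add]
        rfl
      map_smul' := by
        intro c v
        ext q
        change PN ω w (q.1 • ω q.2) (c • v) q = c * PN ω w (q.1 • ω q.2) v q
        rw [map_smul]
        rfl }
  refine ⟨L.mkContinuous 1 ?_, fun v q => rfl⟩
  intro v
  rw [one_mul]
  refine lp.norm_le_of_forall_sum_le (by norm_num) (norm_nonneg _) ?_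
  intro s
  have h1 := SS_sum_le ω w v s
  have e : ∀ q, L v q = SS ω w v q := fun _ => rfl
  simp only [e]
  simpa using h1

include hmono in
/-- The main result of this file. -/
theorem eq_bot_of_leading (V : Submodule ℂ (EE G I)) (hVcl : IsClosed (V : Set (EE G I)))
    (hVi : Pool.Agent.TH714.L2.Inv V) (hw : ∀ i, w i ∈ Vᗮ) (p : I → EE G I)
    (hp0 : ∀ i g j, g • ω j ≠ ω i → p i (g, j) = 0)
    (hp : ∀ i g j, g • ω j ≤ ω i → w i (g, j) = p i (g, j))
    (hd : ∀ f : EE G I, (∀ g i, ⟪tr g (p i), f⟫_ℂ = 0) → f = 0) : V = ⊥ := by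
  classical
  have hVc : CompleteSpace V := hVcl.completeSpace_coe
  obtain ⟨S, hS⟩ := exists_SS ω w
  have hSe : Eqv S := by
    intro k f
    ext q
    rw [hS, tr_apply, hS]
    have h1 : PN ω w (k • (k⁻¹ * q.1) • ω q.2) (tr k f)
        = tr k (PN ω w ((k⁻¹ * q.1) • ω q.2) f) :=
      proj_tr ω w ((k⁻¹ * q.1) • ω q.2) hmono k f
    rw [← mul_smul, mul_inv_cancel_left] at h1
    unfold SS
    rw [h1, tr_apply]
  -- everything is orthogonal to `V`
  have hge : ∀ α, Mge ω w α ≤ Vᗮ := by
    intro α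
    apply Submodule.topologicalClosure_minimal _ _ (Submodule.isClosed_orthogonal _)
    rw [Submodule.span_le]
    rintro _ ⟨h, i, -, rfl⟩
    exact hVi.orth _ _ (hw i)
  -- `V` is in the kernel
  have hker : ∀ v ∈ V, S v = 0 := by
    intro v hv
    ext q
    rw [hS]
    unfold SS
    have h1 : PN ω w (q.1 • ω q.2) v = 0 := by
      unfold PN
      rw [Submodule.starProjection_apply_eq_zero_iff, Submodule.mem_orthogonal]
      intro u hu
      exact Submodule.inner_left_of_mem_orthogonal hv (hge _ hu.1)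
    rw [h1]
  -- coordinates of small level vanish on `Mgt`
  have hvan : ∀ (α : Ω) (g : G) (j : I), g • ω j ≤ α → ∀ f ∈ Mgt ω w α, f (g, j) = 0 := by
    intro α g j hg
    apply apply_closure
    rintro _ ⟨h, i, hh, rfl⟩
    rw [tr_apply]
    have h1 : (h⁻¹ * g) • ω j < ω i := by
      rw [mul_smul]
      have h2 := hmono h⁻¹ _ _ (hg.trans_lt hh)
      rwa [inv_smul_smul] at h2
    simp only
    exact (hp i _ _ h1.le).trans (hp0 i _ _ h1.ne)
  -- the innovations
  let ζ : I → EE G I := fun i => w i - (Mgt ω w (ω i)).starProjection (w i)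
  have hζN : ∀ i, ζ i ∈ NN ω w (ω i) := by
    intro i
    constructor
    · refine Submodule.sub_mem _ ?_ (Mgt_le_Mge ω w _ (Submodule.starProjection_apply_mem _ _))
      refine Submodule.le_topologicalClosure _ (Submodule.subset_span ⟨1, i, ?_, ?_⟩)
      · rw [one_smul]
      · rw [tr_one]
    · exact Submodule.sub_starProjection_mem_orthogonal _
  have hSζ : ∀ i, S (ζ i) = p i := by
    intro i
    ext ⟨g, j⟩
    rw [hS]
    unfold SS
    by_cases hg : g • ω j = ω i
    · simp only
      have h1 : PN ω w (ω i) (ζ i) = ζ i := Submodule.starProjection_eq_self_iff.2 (hζN i)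
      rw [hg, h1]
      change w i (g, j) - (Mgt ω w (ω i)).starProjection (w i) (g, j) = _
      rw [hvan (ω i) g j hg.le _ (Submodule.starProjection_apply_mem _ _), sub_zero,
        hp i _ _ hg.le]
    · rw [hp0 i _ _ hg]
      have h1 : PN ω w (g • ω j) (ζ i) = 0 := by
        unfold PN
        rw [Submodule.starProjection_apply_eq_zero_iff, Submodule.mem_orthogonal]
        intro u hu
        exact NN_orth ω w _ _ hg _ _ hu (hζN i)
      simp only
      rw [h1]
      rfl
  -- the adjoint
  have hinj : Function.Injective (ContinuousLinearMap.adjoint S) := by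
    rw [injective_iff_map_eq_zero]
    intro f hf
    apply hd
    intro g i
    rw [← hSζ i, ← hSe, ← ContinuousLinearMap.adjoint_inner_right, hf, inner_zero_right]
  have hcl := card_le_tau (ContinuousLinearMap.adjoint S) hSe.adjoint hinj _ rfl
  have hle : (LinearMap.range (ContinuousLinearMap.adjoint S : EE G I →ₗ[ℂ] EE G I)
      ).topologicalClosure ≤ Vᗮ := by
    apply Submodule.topologicalClosure_minimal _ _ (Submodule.isClosed_orthogonal _)
    rintro _ ⟨f, rfl⟩
    rw [Submodule.mem_orthogonal]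
    intro v hv
    change ⟪v, ContinuousLinearMap.adjoint S f⟫_ℂ = 0
    rw [ContinuousLinearMap.adjoint_inner_right, hker v hv, inner_zero_left]
  have h2 := tau_mono _ _ hle
  have h3 := tau_orth V
  by_contra hne
  obtain ⟨f, hf, hf0⟩ := (Submodule.ne_bot_iff V).1 hne
  have h4 := dm_pos V hVi f hf hf0
  rw [dm_eq_tau V hVcl] at h4
  linarith

end

end Run7.h952
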