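import Pool.Agent.Run7.h952.Ord
import Pool.Agent.Run7.h952.Rig3

/-!
A monotonicity theorem for the first L²-Betti number from an action on a totally ordered set.
-/

set_option autoImplicit false
set_option linter.unusedSectionVars false

open scoped InnerProductSpace InnerProduct ENNReal
open Filter Topology

namespace Run7.h952

open Pool.Agent.H919R3.L2 Pool.Agent.H919R3.Stmt Pool.Agent.TH714.L2

section
variable {Γ Ω : Type} [Group Γ] [LinearOrder Ω] [MulAction Γ Ω]

/-- The elementary steps beyond the height `α`: from `a` to `a k` with `k ∈ K`, and along an edge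
from `a` to `a t` with `t ∈ S` whose height `a • ω t` is larger than `α`. -/
def Step (K : Subgroup Γ) (S : Finset Γ) (ω : Γ → Ω) (α : Ω) (a b : Γ) : Prop :=
  a⁻¹ * b ∈ K ∨ (a⁻¹ * b ∈ S ∧ α < a • ω (a⁻¹ * b))

variable (K : Subgroup Γ) (X : Finset Γ) (S : Finset Γ) (ω : Γ → Ω) (α : Ω) [DecidableEq Γ]

/-- Gradients of functions which are right invariant under `X`. -/
noncomputable def VV : Submodule ℂ (EE Γ (X ∪ S : Finset Γ)) where
  carrier := {f | f ∈ (finCycles (X ∪ S))ᗮ ∧ ∀ (h : Γ) (x : (X ∪ S : Finset Γ)), (x : Γ) ∈ X →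
    f (h, x) = 0}
  add_mem' := by
    intro f g hf hg
    refine ⟨Submodule.add_mem _ hf.1 hg.1, ?_⟩
    intro h x hx
    change f (h, x) + g (h, x) = 0
    rw [hf.2 h x hx, hg.2 h x hx, add_zero]
  zero_mem' := ⟨Submodule.zero_mem _, fun _ _ _ => rfl⟩
  smul_mem' := by
    intro c f hf
    refine ⟨Submodule.smul_mem _ c hf.1, ?_⟩
    intro h x hx
    change c * f (h, x) = 0
    rw [hf.2 h x hx, mul_zero]

theorem VV_inv : Pool.Agent.TH714.L2.Inv (VV X S) := by
  intro k f hf
  refine ⟨(finCycles_inv (X ∪ S)).orth _ _ hf.1, ?_⟩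
  intro h x hx
  rw [tr_apply]
  exact hf.2 _ x hx

theorem isClosed_VV : IsClosed (VV X S : Set (EE Γ (X ∪ S : Finset Γ))) := by
  have h1 : (VV X S : Set (EE Γ (X ∪ S : Finset Γ))) = ((finCycles (X ∪ S))ᗮ : Set _) ∩
      ⋂ (q : Γ × (X ∪ S : Finset Γ)) (_ : (q.2 : Γ) ∈ X),
        (fun f : EE Γ (X ∪ S : Finset Γ) => f q) ⁻¹' {0} := by
    ext f
    simp only [Set.mem_inter_iff, Set.mem_iInter, Set.mem_preimage, Set.mem_singleton_iff,
      SetLike.mem_coe]
    constructor
    · rintro ⟨h1, h2⟩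
      exact ⟨h1, fun q hq => h2 q.1 q.2 hq⟩
    · rintro ⟨h1, h2⟩
      exact ⟨h1, fun h x hx => h2 (h, x) hx⟩
  rw [h1]
  refine (Submodule.isClosed_orthogonal _).inter ?_
  refine isClosed_iInter fun q => isClosed_iInter fun _ => ?_
  exact isClosed_singleton.preimage (continuous_eval q)

theorem exists_chain (hK : K ≤ Subgroup.closure (X : Set Γ)) (a b : Γ)
    (hab : Relation.EqvGen (Step K S ω α) a b) :
    ∃ z : EE Γ (X ∪ S : Finset Γ),
      (∀ g (j : (X ∪ S : Finset Γ)), g • ω j ≤ α → z (g, j) = 0) ∧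
      ∀ f ∈ VV X S, ∀ F : Γ → ℂ, IsGrad (X ∪ S) F f → ⟪z, f⟫_ℂ = F b - F a := by
  induction hab with
  | rel a b hab =>
    rcases hab with hab | ⟨hab, hlt⟩
    · refine ⟨0, fun _ _ _ => rfl, ?_⟩
      intro f hf F hF
      rw [inner_zero_left]
      have h2 : ∀ k, ∀ c ∈ Subgroup.closure (X : Set Γ),
          F (k * c) - F k = (fun _ => (0 : ℂ)) (k * c) - (fun _ => (0 : ℂ)) k := by
        refine grad_closure F (fun _ => (0 : ℂ)) _ ?_
        intro k s hs
        have h3 := hF k ⟨s, Finset.mem_union_left _ hs⟩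
        rw [hf.2 k _ hs] at h3
        simpa using h3.symm
      have h3 := h2 a (a⁻¹ * b) (hK hab)
      rw [mul_inv_cancel_left] at h3
      simpa using h3.symm
    · refine ⟨dl (a, ⟨a⁻¹ * b, Finset.mem_union_right _ hab⟩), ?_, ?_⟩
      · intro g j hg
        apply dl_apply_ne
        intro h
        have h1 : g = a := (Prod.ext_iff.1 h).1
        have h2 : j = ⟨a⁻¹ * b, Finset.mem_union_right _ hab⟩ := (Prod.ext_iff.1 h).2
        rw [h1, h2] at hg
        exact absurd hlt (not_lt.2 hg)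
      · intro f hf F hF
        rw [inner_dl_left, hF a ⟨a⁻¹ * b, Finset.mem_union_right _ hab⟩, mul_inv_cancel_left]
  | refl a =>
    refine ⟨0, fun _ _ _ => rfl, ?_⟩
    intro f hf F hF
    rw [inner_zero_left, sub_self]
  | symm a b _ ih =>
    obtain ⟨z, hz1, hz2⟩ := ih
    refine ⟨-z, ?_, ?_⟩
    · intro g j hg
      change -(z (g, j)) = 0
      rw [hz1 g j hg, neg_zero]
    · intro f hf F hF
      rw [inner_neg_left, hz2 f hf F hF, neg_sub]
  | trans a b c _ _ ih1 ih2 =>
    obtain ⟨z, hz1, hz2⟩ := ih1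
    obtain ⟨z', hz1', hz2'⟩ := ih2
    refine ⟨z + z', ?_, ?_⟩
    · intro g j hg
      change z (g, j) + z' (g, j) = 0
      rw [hz1 g j hg, hz1' g j hg, add_zero]
    · intro f hf F hF
      rw [inner_add_left, hz2 f hf F hF, hz2' f hf F hF]
      ring

theorem zero_of_right_inv' {I : Type} (c : Γ) (hc : ¬ IsOfFinOrder c) (f : EE Γ I) (i : I)
    (hf : ∀ h, f (h * c, i) = f (h, i)) (h : Γ) : f (h, i) = 0 := by
  have h1 : ∀ (n : ℕ) (h : Γ), f (h * c ^ n, i) = f (h, i) := by
    intro n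
    induction n with
    | zero => intro h; simp
    | succ n ih => intro h; rw [pow_succ, ← mul_assoc, hf, ih]
  have h4 : Tendsto (fun n : ℕ => f (h * c ^ n, i)) atTop (𝓝 0) := by
    refine tendsto_zero_of_inj (fun x => f x) f.2 (fun n : ℕ => (h * c ^ n, i)) ?_
    intro a b hab
    have h2 : h * c ^ a = h * c ^ b := (Prod.ext_iff.1 hab).1
    exact (injective_pow_iff_not_isOfFinOrder.2 hc) (mul_left_cancel h2)
  simp only [h1] at h4
  exact tendsto_nhds_unique tendsto_const_nhds h4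

/-- The main result of this file in terms of `dg`. -/
theorem dg_le_of_step (hmono : ∀ (g : Γ) (a b : Ω), a < b → g • a < g • b)
    (hK : K ≤ Subgroup.closure (X : Set Γ))
    (hS : Subgroup.closure ((X ∪ S : Finset Γ) : Set Γ) = ⊤)
    (h : ∀ s ∈ S, Relation.EqvGen (Step K S ω (ω s)) 1 s ∨
      ∃ c : Γ, ¬ IsOfFinOrder c ∧ c • ω s = ω s ∧
        Relation.EqvGen (Step K S ω (ω s)) 1 c ∧ Relation.EqvGen (Step K S ω (ω s)) s (c * s)) :
    dg (X ∪ S) ≤ dg X := by
  classical
  have key : ∀ i : (X ∪ S : Finset Γ), ∃ w p : EE Γ (X ∪ S : Finset Γ), w ∈ (VV X S)ᗮ ∧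
      (∀ g (j : (X ∪ S : Finset Γ)), g • ω j ≠ ω i → p (g, j) = 0) ∧
      (∀ g (j : (X ∪ S : Finset Γ)), g • ω j ≤ ω i → w (g, j) = p (g, j)) ∧
      (∀ f : EE Γ (X ∪ S : Finset Γ), (∀ g, ⟪tr g p, f⟫_ℂ = 0) → ∀ g, f (g, i) = 0) := by
    intro i
    have hd1 : ∀ (c : Γ), c • ω i = ω i → ∀ g (j : (X ∪ S : Finset Γ)), g • ω j ≠ ω i →
        (dl (c, i) : EE Γ (X ∪ S : Finset Γ)) (g, j) = 0 := by
      intro c hc g j hg
      apply dl_apply_ne
      intro h
      have h1 : g = c := (Prod.ext_iff.1 h).1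
      have h2 : j = i := (Prod.ext_iff.1 h).2
      exact hg (by rw [h1, h2, hc])
    have hd2 : ∀ f : EE Γ (X ∪ S : Finset Γ),
        (∀ g, ⟪tr g (dl ((1 : Γ), i) : EE Γ (X ∪ S : Finset Γ)), f⟫_ℂ = 0) →
        ∀ g, f (g, i) = 0 := by
      intro f hf g
      have := hf g
      rwa [tr_dl, mul_one, inner_dl_left] at this
    by_cases hiX : (i : Γ) ∈ X
    · refine ⟨dl (1, i), dl (1, i), ?_, hd1 1 (one_smul _ _), fun _ _ _ => rfl, hd2⟩
      rw [Submodule.mem_orthogonal']
      intro f hf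
      rw [inner_dl_left]
      exact hf.2 1 i hiX
    · have hiS : (i : Γ) ∈ S := (Finset.mem_union.1 i.2).resolve_left hiX
      rcases h i hiS with h1 | ⟨c, hc, hcω, h1, h2⟩
      · obtain ⟨z, hz1, hz2⟩ := exists_chain K X S ω _ hK _ _ h1
        refine ⟨dl (1, i) - z, dl (1, i), ?_, hd1 1 (one_smul _ _), ?_, hd2⟩
        · rw [Submodule.mem_orthogonal']
          intro f hf
          obtain ⟨F, hF⟩ := exists_potential _ f hf.1
          rw [inner_sub_left, hz2 f hf F hF, inner_dl_left, hF, one_mul, sub_self]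
        · intro g j hg
          change (dl (1, i) : EE Γ (X ∪ S : Finset Γ)) (g, j) - z (g, j) = _
          rw [hz1 g j hg, sub_zero]
      · obtain ⟨z, hz1, hz2⟩ := exists_chain K X S ω _ hK _ _ h1
        obtain ⟨z', hz1', hz2'⟩ := exists_chain K X S ω _ hK _ _ h2
        refine ⟨dl (1, i) - dl (c, i) + z' - z, dl (1, i) - dl (c, i), ?_, ?_, ?_, ?_⟩
        · rw [Submodule.mem_orthogonal']
          intro f hf
          obtain ⟨F, hF⟩ := exists_potential _ f hf.1
          rw [inner_sub_left, inner_add_left, inner_sub_left, hz2 f hf F hF, hz2' f hf F hF,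
            inner_dl_left, inner_dl_left, hF, hF, one_mul]
          ring
        · intro g j hg
          change (dl (1, i) : EE Γ (X ∪ S : Finset Γ)) (g, j)
            - (dl (c, i) : EE Γ (X ∪ S : Finset Γ)) (g, j) = 0
          rw [hd1 1 (one_smul _ _) g j hg, hd1 c hcω g j hg, sub_zero]
        · intro g j hg
          change (dl (1, i) : EE Γ (X ∪ S : Finset Γ)) (g, j)
            - (dl (c, i) : EE Γ (X ∪ S : Finset Γ)) (g, j) + z' (g, j) - z (g, j)
            = (dl (1, i) : EE Γ (X ∪ S : Finset Γ)) (g, j)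
            - (dl (c, i) : EE Γ (X ∪ S : Finset Γ)) (g, j)
          rw [hz1 g j hg, hz1' g j hg, add_zero, sub_zero]
        · intro f hf g
          apply zero_of_right_inv' c hc f i
          intro k
          have := hf k
          rw [tr_sub, tr_dl, tr_dl, mul_one, inner_sub_left, inner_dl_left, inner_dl_left,
            sub_eq_zero] at this
          exact this.symm
  choose w p hw hp0 hp hd using key
  have hbot := eq_bot_of_leading (fun i : (X ∪ S : Finset Γ) => ω i) w hmono (VV X S)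
    (isClosed_VV X S) (VV_inv X S) hw p hp0 hp
    (by
      intro f hf
      ext ⟨g, i⟩
      exact hd i f (fun k => hf k i) g)
  apply dg_le_of_inj (X ∪ S) X hS
  intro f F hF hFX
  have hfV : f ∈ VV X S := by
    refine ⟨grad_orth _ F f hF, ?_⟩
    intro k x hx
    rw [hF, hFX k x hx, sub_self]
  rw [hbot, Submodule.mem_bot] at hfV
  exact hfV

end

/-- Monotonicity of the first `L²`-Betti number. -/
theorem l2Betti_le_of_step (Γ Ω : Type) [Group Γ] [LinearOrder Ω] [MulAction Γ Ω]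
    (hmono : ∀ (g : Γ) (a b : Ω), a < b → g • a < g • b) (ω : Γ → Ω)
    (K : Subgroup Γ) [Infinite K] (X : Finset K) (hX : Subgroup.closure (X : Set K) = ⊤)
    (S : Finset Γ) (hS : K ⊔ Subgroup.closure (S : Set Γ) = ⊤)
    (h : ∀ s ∈ S, Relation.EqvGen (Step K S ω (ω s)) 1 s ∨
      ∃ c : Γ, ¬ IsOfFinOrder c ∧ c • ω s = ω s ∧
        Relation.EqvGen (Step K S ω (ω s)) 1 c ∧ Relation.EqvGen (Step K S ω (ω s)) s (c * s))
    (S' : Finset Γ) (hS' : Subgroup.closure (S' : Set Γ) = ⊤) : l2Betti S' ≤ l2Betti X := by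
  classical
  have hΓ : Infinite Γ := Infinite.of_injective K.subtype (Subgroup.subtype_injective K)
  have h3 : Subgroup.closure ((X.image K.subtype : Finset Γ) : Set Γ) = K := by
    rw [Finset.coe_image, ← MonoidHom.map_closure, hX, ← MonoidHom.range_eq_map,
      Subgroup.range_subtype]
  have htop : Subgroup.closure ((X.image K.subtype ∪ S : Finset Γ) : Set Γ) = ⊤ := by
    rw [Finset.coe_union, Subgroup.closure_union, h3, hS]
  rw [l2Betti_eq_dg S' hS', l2Betti_eq_dg X hX, ← dg_image K.subtype (Subgroup.subtype_injective K),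
    dg_congr S' (X.image K.subtype ∪ S) (by rw [hS', htop])]
  have := dg_le_of_step K (X.image K.subtype) S ω hmono h3.symm.le htop h
  linarith

end Run7.h952
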