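import Pool.Agent.Run7.h952.Ord2

/-!
Groups with a left order with coarsely connected positive cone have vanishing first L²-Betti
number.
-/

set_option autoImplicit false
set_option linter.unusedSectionVars false

open scoped InnerProductSpace InnerProduct ENNReal
open Filter Topology

namespace Run7.h952

open Pool.Agent.H919R3.L2 Pool.Agent.H919R3.Stmt Pool.Agent.TH714.L2

/-- If `Γ` has a left order, the positive cone of which is connected in the Cayley graph with
respect to some finite generating set, then `β₁(Γ) = 0`. -/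
theorem l2Betti_eq_zero_of_cone (Γ : Type) [Group Γ] [LinearOrder Γ] [Nontrivial Γ]
    (hinv : ∀ a b c : Γ, b < c → a * b < a * c) (T : Finset Γ)
    (hT : Subgroup.closure (T : Set Γ) = ⊤)
    (hconn : ∀ a b : Γ, 1 < a → 1 < b →
      Relation.EqvGen (fun a b : Γ => 1 < a ∧ 1 < b ∧ a⁻¹ * b ∈ T) a b)
    (S' : Finset Γ) (hS' : Subgroup.closure (S' : Set Γ) = ⊤) : l2Betti S' = 0 := by
  classical
  -- a positive element
  obtain ⟨x, hx⟩ : ∃ x : Γ, 1 < x := by
    obtain ⟨y, hy⟩ := exists_ne (1 : Γ)
    rcases lt_or_gt_of_ne hy with h | h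
    · refine ⟨y⁻¹, ?_⟩
      have := hinv y⁻¹ _ _ h
      rwa [inv_mul_cancel, mul_one] at this
    · exact ⟨y, h⟩
  have hpos : ∀ n : ℕ, 1 < x ^ (n + 1) := by
    intro n
    induction n with
    | zero => simpa using hx
    | succ n ih =>
      have h1 := hinv (x ^ (n + 1)) _ _ hx
      rw [mul_one, ← pow_succ] at h1
      exact ih.trans h1
  have hxo : ¬ IsOfFinOrder x := by
    intro h
    obtain ⟨n, hn, hn1⟩ := isOfFinOrder_iff_pow_eq_one.1 h
    obtain ⟨m, rfl⟩ : ∃ m, n = m + 1 := ⟨n - 1, by omega⟩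
    exact absurd (hpos m) (by rw [hn1]; exact lt_irrefl _)
  let K : Subgroup Γ := Subgroup.zpowers x
  have hKinf : Infinite K := Set.infinite_coe_iff.2 (infinite_zpowers.2 hxo)
  let X : Finset K := {⟨x, Subgroup.mem_zpowers x⟩}
  have hX : Subgroup.closure (X : Set K) = ⊤ := by
    rw [eq_top_iff]
    rintro ⟨y, hy⟩ -
    obtain ⟨n, rfl⟩ := Subgroup.mem_zpowers_iff.1 hy
    have h1 : (⟨x ^ n, hy⟩ : K) = (⟨x, Subgroup.mem_zpowers x⟩ : K) ^ n := by
      apply Subtype.ext
      simp
    rw [h1]
    exact Subgroup.zpow_mem _ (Subgroup.subset_closure (by simp [X])) n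
  let S : Finset Γ := (T ∪ T.image fun t => t⁻¹).filter fun t => 1 < t
  have hS : K ⊔ Subgroup.closure (S : Set Γ) = ⊤ := by
    rw [eq_top_iff, ← hT, Subgroup.closure_le]
    intro t ht
    refine (le_sup_right : _ ≤ K ⊔ Subgroup.closure (S : Set Γ)) ?_
    rcases lt_trichotomy t 1 with h | h | h
    · have h1 : t⁻¹ ∈ S := by
        refine Finset.mem_filter.2 ⟨Finset.mem_union_right _
          (Finset.mem_image_of_mem _ ht), ?_⟩
        have := hinv t⁻¹ _ _ h
        rwa [inv_mul_cancel, mul_one] at this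
      have h2 := inv_mem (Subgroup.subset_closure (Finset.mem_coe.2 h1) :
        t⁻¹ ∈ Subgroup.closure (S : Set Γ))
      rwa [inv_inv] at h2
    · rw [h]
      exact one_mem _
    · exact Subgroup.subset_closure (Finset.mem_coe.2
        (Finset.mem_filter.2 ⟨Finset.mem_union_left _ ht, h⟩))
  let _ : MulAction Γ Γ := Monoid.toMulAction Γ
  have hstep : ∀ a b : Γ, Relation.EqvGen (fun a b : Γ => 1 < a ∧ 1 < b ∧ a⁻¹ * b ∈ T) a b →
      Relation.EqvGen (Step K S (fun _ => (1 : Γ)) (1 : Γ)) a b := by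
    intro a b hab
    induction hab with
    | rel a b hab =>
      obtain ⟨ha, hb, ht⟩ := hab
      rcases lt_trichotomy (a⁻¹ * b) 1 with h | h | h
      · refine Relation.EqvGen.symm _ _ (Relation.EqvGen.rel _ _ (Or.inr ⟨?_, ?_⟩))
        · have e : b⁻¹ * a = (a⁻¹ * b)⁻¹ := by group
          rw [e]
          refine Finset.mem_filter.2 ⟨Finset.mem_union_right _
            (Finset.mem_image_of_mem _ ht), ?_⟩
          have := hinv (a⁻¹ * b)⁻¹ _ _ h
          rwa [inv_mul_cancel, mul_one] at this
        · change (1 : Γ) < b * 1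
          rwa [mul_one]
      · have e : a = b := inv_mul_eq_one.1 h
        rw [e]
        exact Relation.EqvGen.refl _
      · refine Relation.EqvGen.rel _ _ (Or.inr ⟨?_, ?_⟩)
        · exact Finset.mem_filter.2 ⟨Finset.mem_union_left _ ht, h⟩
        · change (1 : Γ) < a * 1
          rwa [mul_one]
    | refl a => exact Relation.EqvGen.refl _
    | symm a b _ ih => exact Relation.EqvGen.symm _ _ ih
    | trans a b c _ _ ih1 ih2 => exact Relation.EqvGen.trans _ _ _ ih1 ih2
  have h1 := l2Betti_le_of_step Γ Γ (fun g a b hab => hinv g a b hab) (fun _ => (1 : Γ)) K X hX S hS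
    (by
      intro s hs
      left
      refine Relation.EqvGen.trans _ x _ ?_ (hstep x s (hconn x s hx (Finset.mem_filter.1 hs).2))
      refine Relation.EqvGen.rel _ _ (Or.inl ?_)
      rw [inv_one, one_mul]
      exact Subgroup.mem_zpowers x) S' hS'
  have h2 : l2Betti X ≤ 0 := by
    rw [l2Betti_eq_dg X hX]
    have := dg_le_card X
    have h3 : X.card = 1 := Finset.card_singleton _
    rw [h3] at this
    push_cast at this
    linarith
  exact le_antisymm (h1.trans h2) (l2Betti_nonneg S')

end Run7.h952
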