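import Pool.Agent.Run7.h952.Push

/-!
The estimate over finite `p`-groups.
-/

set_option autoImplicit false
set_option linter.unusedSectionVars false

namespace Run7.h952

open Matrix

section
variable {X P : Type} [Group P] (U : Finset (FreeGroup X)) (ρ : FreeGroup X →* P)

/-- A bound of the squared norm. -/
noncomputable def Kc : ℝ := 1 + ∑ u : U, (∑ q ∈ (Dz (u : FreeGroup X)).support,
  ((Dz (u : FreeGroup X) q : ℤ) : ℝ) ^ 2) * ((Dz (u : FreeGroup X)).support.card : ℝ)

theorem one_le_Kc : 1 ≤ Kc U := by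
  unfold Kc
  have : 0 ≤ ∑ u : U, (∑ q ∈ (Dz (u : FreeGroup X)).support,
    ((Dz (u : FreeGroup X) q : ℤ) : ℝ) ^ 2) * ((Dz (u : FreeGroup X)).support.card : ℝ) := by
    positivity
  linarith

open Classical in
/-- The integer matrix of the rows. -/
noncomputable def bm : Matrix (P × X) (P × U) ℤ := fun y k =>
  (Dz (k.2 : FreeGroup X)).sum fun q c => if y = (k.1 * ρ q.1, q.2) then c else 0

theorem sum_bm [Fintype P] [Fintype X] {R : Type} [CommRing R] (f : P × X → R) (k : P × U) :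
    ∑ y, f y * ((bm U ρ y k : ℤ) : R) = rowf ρ (Dz (k.2 : FreeGroup X)) f k.1 := by
  classical
  unfold bm rowf Finsupp.sum
  push_cast
  simp only [Finset.mul_sum]
  rw [Finset.sum_comm]
  refine Finset.sum_congr rfl fun q _ => ?_
  rw [Finset.sum_eq_single (k.1 * ρ q.1, q.2)]
  · rw [if_pos rfl]
    ring
  · intro y _ hy
    rw [if_neg hy]
    simp
  · intro h
    exact absurd (Finset.mem_univ _) h

theorem vecMul_bm [Fintype P] [Fintype X] (f : P × X → ℤ) (k : P × U) :
    Matrix.vecMul f (bm U ρ) k = rowf ρ (Dz (k.2 : FreeGroup X)) f k.1 := by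
  rw [← sum_bm, Matrix.vecMul, dotProduct]
  simp

theorem bT_rv [Fintype P] [Fintype X] (L : (FreeGroup X × X) →₀ ℝ) :
    ((bm U ρ).map (Int.cast : ℤ → ℝ))ᵀ *ᵥ (rv ρ L) = rv ρ (opBs U L) := by
  funext k
  rw [show k = (k.1, k.2) from rfl, rv_opBs, ← sum_bm, Matrix.mulVec, dotProduct]
  refine Finset.sum_congr rfl fun y _ => ?_
  rw [Matrix.transpose_apply, Matrix.map_apply, mul_comm]

theorem b_rv [Fintype P] [Fintype X] (L : (FreeGroup X × U) →₀ ℝ) :
    ((bm U ρ).map (Int.cast : ℤ → ℝ)) *ᵥ (rv ρ L) = rv ρ (opB U L) := by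
  classical
  induction L using Finsupp.induction_linear with
  | zero => simp
  | add f g hf hg => rw [map_add, map_add, map_add, Matrix.mulVec_add, hf, hg]
  | single p a =>
    funext y
    rw [opB_single, map_smul, Pi.smul_apply, rv_ltr, rv_apply, Matrix.mulVec, dotProduct,
      Finset.sum_eq_single (ρ p.1, p.2)]
    · rw [rv_single, if_pos rfl, Matrix.map_apply, smul_eq_mul, mul_comm]
      congr 1
      unfold bm Dr
      rw [Finsupp.sum_mapRange_index (by simp), Finsupp.sum, Finsupp.sum]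
      push_cast
      refine Finset.sum_congr rfl fun q _ => ?_
      congr 1
      rw [Prod.ext_iff, Prod.ext_iff]
      simp only [eq_iff_iff]
      constructor
      · rintro ⟨h1, h2⟩
        exact ⟨by rw [h1, inv_mul_cancel_left], h2⟩
      · rintro ⟨h1, h2⟩
        exact ⟨by rw [← h1, mul_inv_cancel_left], h2⟩
    · intro k _ hk
      rw [rv_single, if_neg hk, mul_zero]
    · intro h
      exact absurd (Finset.mem_univ _) h

theorem m_rv [Fintype P] [Fintype X] [DecidableEq (P × X)] (K : ℝ)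
    (L : (FreeGroup X × X) →₀ ℝ) :
    ((1 : Matrix (P × X) (P × X) ℝ) - K⁻¹ • ((bm U ρ).map (Int.cast : ℤ → ℝ) *
      ((bm U ρ).map (Int.cast : ℤ → ℝ))ᵀ)) *ᵥ (rv ρ L) = rv ρ (opM U K L) := by
  rw [Matrix.sub_mulVec, Matrix.one_mulVec, Matrix.smul_mulVec, ← Matrix.mulVec_mulVec, bT_rv,
    b_rv]
  unfold opM
  rw [LinearMap.sub_apply, LinearMap.id_apply, LinearMap.smul_apply, LinearMap.comp_apply,
    map_sub, map_smul]

theorem mpow_rv [Fintype P] [Fintype X] [DecidableEq (P × X)] (K : ℝ) (j : ℕ)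
    (L : (FreeGroup X × X) →₀ ℝ) :
    (((1 : Matrix (P × X) (P × X) ℝ) - K⁻¹ • ((bm U ρ).map (Int.cast : ℤ → ℝ) *
      ((bm U ρ).map (Int.cast : ℤ → ℝ))ᵀ)) ^ j) *ᵥ (rv ρ L) = rv ρ (((opM U K) ^ j) L) := by
  induction j generalizing L with
  | zero => simp
  | succ j ih =>
    rw [pow_succ, ← Matrix.mulVec_mulVec, m_rv, ih, pow_succ, Module.End.mul_apply]

theorem bd_bm [Fintype P] [Fintype X] (f : P × X → ℝ) :
    ∑ k, (∑ y, f y * ((bm U ρ y k : ℤ) : ℝ)) ^ 2 ≤ Kc U * ∑ y, f y ^ 2 := by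
  classical
  simp only [sum_bm]
  rw [Fintype.sum_prod_type, Finset.sum_comm]
  have h1 : ∀ u : U, ∑ h : P, (rowf ρ (Dz (u : FreeGroup X)) f h) ^ 2 ≤
      ((∑ q ∈ (Dz (u : FreeGroup X)).support, ((Dz (u : FreeGroup X) q : ℤ) : ℝ) ^ 2) *
        ((Dz (u : FreeGroup X)).support.card : ℝ)) * ∑ y, f y ^ 2 := by
    intro u
    set D := Dz (u : FreeGroup X) with hD
    have h2 : ∀ h : P, (rowf ρ D f h) ^ 2 ≤ (∑ q ∈ D.support, ((D q : ℤ) : ℝ) ^ 2) *
        ∑ q ∈ D.support, f (h * ρ q.1, q.2) ^ 2 := by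
      intro h
      unfold rowf Finsupp.sum
      exact Finset.sum_mul_sq_le_sq_mul_sq _ _ _
    refine (Finset.sum_le_sum fun h _ => h2 h).trans ?_
    rw [← Finset.mul_sum, mul_assoc]
    refine mul_le_mul_of_nonneg_left ?_ (by positivity)
    rw [Finset.sum_comm, ← nsmul_eq_mul, ← Finset.sum_const]
    refine Finset.sum_le_sum fun q _ => ?_
    have h3 : ∑ h : P, f (h * ρ q.1, q.2) ^ 2 = ∑ h : P, f (h, q.2) ^ 2 :=
      Equiv.sum_comp (Equiv.mulRight (ρ q.1)) (fun h => f (h, q.2) ^ 2)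
    rw [h3, Fintype.sum_prod_type, Finset.sum_comm]
    exact Finset.single_le_sum (f := fun x => ∑ h : P, f (h, x) ^ 2)
      (fun x _ => by positivity) (Finset.mem_univ q.2)
  refine (Finset.sum_le_sum fun u _ => h1 u).trans ?_
  rw [← Finset.sum_mul]
  refine mul_le_mul_of_nonneg_right ?_ (by positivity)
  unfold Kc
  linarith

/-- The estimate over a finite `p`-group. -/
theorem est [Finite P] [Fintype X] (p : ℕ) [hp : Fact p.Prime] (hP : IsPGroup p P)
    (hρ : Function.Surjective ρ)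
    (hU : AddSubgroup.closure (abz '' (U : Set (FreeGroup X))) = ⊤) (j : ℕ) :
    (∑ x : X, nn ρ (((opM U (Kc U)) ^ j) (Finsupp.single (1, x) 1))) * hs (2 * j)
      ≤ Fintype.card X * Real.log (Kc U) := by
  classical
  have := Fintype.ofFinite P
  set B : Matrix (P × X) (P × U) ℝ := (bm U ρ).map (Int.cast : ℤ → ℝ) with hB
  set M : Matrix (P × X) (P × X) ℝ := 1 - (Kc U)⁻¹ • (B * Bᵀ) with hM
  have h1 := trace_bound (bm U ρ) (by
    intro f hf
    apply int_inj p hP ρ U hU
    intro h u hu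
    have h2 := congrFun hf (h, ⟨u, hu⟩)
    rw [vecMul_bm] at h2
    exact h2) (Kc U) (one_le_Kc U) (bd_bm U ρ) (2 * j)
  have hMt : Mᵀ = M := by
    rw [hM, transpose_sub, transpose_one, transpose_smul, transpose_mul, transpose_transpose]
  have htr : (M ^ (2 * j)).trace = ∑ y : P × X, ∑ z : P × X, ((M ^ j) *ᵥ Pi.single y 1) z ^ 2 := by
    rw [two_mul, pow_add, Matrix.trace]
    refine Finset.sum_congr rfl fun y _ => ?_
    rw [Matrix.diag_apply, Matrix.mul_apply]
    refine Finset.sum_congr rfl fun z _ => ?_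
    have h3 : (M ^ j) y z = (M ^ j) z y := by
      conv_lhs => rw [← hMt, ← Matrix.transpose_pow, Matrix.transpose_apply]
    rw [h3, Matrix.mulVec_single_one, pow_two]
    rfl
  have hval : ∀ y : P × X, ∑ z : P × X, ((M ^ j) *ᵥ Pi.single y 1) z ^ 2
      = nn ρ (((opM U (Kc U)) ^ j) (Finsupp.single (1, y.2) 1)) := by
    intro y
    obtain ⟨w, hw⟩ := hρ y.1
    have h4 : (Pi.single y 1 : P × X → ℝ) = rv ρ (Finsupp.single (w, y.2) 1) := by
      funext z
      rw [rv_single, Pi.single_apply, hw]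
    rw [h4, mpow_rv]
    have h5 : (Finsupp.single (w, y.2) (1 : ℝ)) = ltr w (Finsupp.single (1, y.2) 1) := by
      rw [ltr_single, mul_one]
    rw [h5, opM_pow_ltr, ← sum_sq_rv]
    simp only [rv_ltr]
    exact Equiv.sum_comp ((Equiv.mulLeft (ρ w)⁻¹).prodCongr (Equiv.refl X))
      (fun z => rv ρ (((opM U (Kc U)) ^ j) (Finsupp.single (1, y.2) 1)) z ^ 2)
  rw [htr] at h1
  simp only [hval] at h1
  rw [Fintype.sum_prod_type] at h1
  simp only [Finset.sum_const, Finset.card_univ, Fintype.card_prod, nsmul_eq_mul] at h1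
  push_cast at h1
  have hPpos : (0 : ℝ) < Fintype.card P := by
    have : 0 < Fintype.card P := Fintype.card_pos
    exact_mod_cast this
  have h6 : (Fintype.card P : ℝ) * ((∑ x : X, nn ρ (((opM U (Kc U)) ^ j)
      (Finsupp.single (1, x) 1))) * hs (2 * j))
      ≤ (Fintype.card P : ℝ) * (Fintype.card X * Real.log (Kc U)) := by
    calc _ = _ := by ring
      _ ≤ _ := h1
      _ = _ := by ring
  exact le_of_mul_le_mul_left h6 hPpos

end

end Run7.h952
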