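import Pool.Agent.Run7.h952.Fox

/-!
Rows over the group ring of a finite `p`-group whose exponent sums generate have trivial kernel.
-/

set_option autoImplicit false
set_option linter.unusedSectionVars false

namespace Run7.h952

section
variable {X P : Type} [Group P]

/-- The pairing of a function with the translates of a row. -/
noncomputable def rowf {R : Type} [CommRing R] (ρ : FreeGroup X →* P)
    (D : (FreeGroup X × X) →₀ ℤ) (f : P × X → R) (h : P) : R :=
  D.sum fun q c => (c : R) * f (h * ρ q.1, q.2)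

theorem rowf_add {R : Type} [CommRing R] (ρ : FreeGroup X →* P)
    (D : (FreeGroup X × X) →₀ ℤ) (f g : P × X → R) (h : P) :
    rowf ρ D (f + g) h = rowf ρ D f h + rowf ρ D g h := by
  unfold rowf
  rw [← Finsupp.sum_add]
  refine Finsupp.sum_congr fun q _ => ?_
  rw [Pi.add_apply, mul_add]

theorem rowf_smul {R : Type} [CommRing R] (ρ : FreeGroup X →* P)
    (D : (FreeGroup X × X) →₀ ℤ) (a : R) (f : P × X → R) (h : P) :
    rowf ρ D (fun y => a * f y) h = a * rowf ρ D f h := by
  unfold rowf
  rw [Finsupp.mul_sum]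
  refine Finsupp.sum_congr fun q _ => ?_
  ring

theorem rowf_const {R : Type} [CommRing R] [Fintype X] (ρ : FreeGroup X →* P) (u : FreeGroup X)
    (f : P × X → R) (c : X → R) (hf : ∀ y, f y = c y.2) (h : P) :
    rowf ρ (Dz u) f h = (abz u).sum fun x a => (a : R) * c x := by
  unfold rowf abz
  rw [Finsupp.sum_mapDomain_index (by intro b; simp) (by intro b m n; push_cast; ring)]
  refine Finsupp.sum_congr fun q _ => ?_
  rw [hf]

theorem modp [Finite P] [Fintype X] (p : ℕ) [hp : Fact p.Prime] (hP : IsPGroup p P)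
    (ρ : FreeGroup X →* P)
    (U : Finset (FreeGroup X)) (hU : AddSubgroup.closure (abz '' (U : Set (FreeGroup X))) = ⊤)
    (f : P × X → ZMod p) (hf : ∀ h, ∀ u ∈ U, rowf ρ (Dz u) f h = 0) : f = 0 := by
  classical
  have := Fintype.ofFinite P
  let V : AddSubgroup (P × X → ZMod p) :=
    { carrier := {f | ∀ h, ∀ u ∈ U, rowf ρ (Dz u) f h = 0}
      zero_mem' := by
        intro h u _
        unfold rowf
        simp
      add_mem' := by
        intro f g hf hg h u hu
        rw [rowf_add, hf h u hu, hg h u hu, add_zero]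
      neg_mem' := by
        intro f hf h u hu
        have h1 := rowf_smul ρ (Dz u) (-1) f h
        rw [hf h u hu, mul_zero] at h1
        rw [← h1]
        congr 1
        funext y
        simp }
  have hVmem : ∀ g : P × X → ZMod p, g ∈ V ↔ ∀ h, ∀ u ∈ U, rowf ρ (Dz u) g h = 0 := fun g => Iff.rfl
  let act : MulAction P V :=
    { smul := fun k g => ⟨fun y => g.1 (k⁻¹ * y.1, y.2), by
        rw [hVmem]
        intro h u hu
        have h1 := (hVmem _).1 g.2 (k⁻¹ * h) u hu
        rw [← h1]
        unfold rowf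
        refine Finsupp.sum_congr fun q _ => ?_
        simp only [mul_assoc]⟩
      one_smul := by
        intro g
        apply Subtype.ext
        funext y
        change g.1 (1⁻¹ * y.1, y.2) = g.1 y
        simp
      mul_smul := by
        intro a b g
        apply Subtype.ext
        funext y
        change g.1 ((a * b)⁻¹ * y.1, y.2) = g.1 (b⁻¹ * (a⁻¹ * y.1), y.2)
        rw [mul_inv_rev, mul_assoc] }
  by_contra hne
  have hfV : f ∈ V := hf
  have hcard : p ∣ Nat.card V := by
    have h1 : addOrderOf (⟨f, hfV⟩ : V) = p := by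
      apply addOrderOf_eq_prime
      · apply Subtype.ext
        funext y
        change (p • f) y = 0
        rw [Pi.smul_apply, nsmul_eq_mul]
        simp
      · intro h
        exact hne (congrArg Subtype.val h)
    have h2 := addOrderOf_dvd_natCard (⟨f, hfV⟩ : V)
    exact h1.symm.dvd.trans h2
  have h0 : (0 : V) ∈ MulAction.fixedPoints P V := by
    intro k
    apply Subtype.ext
    funext y
    rfl
  obtain ⟨g, hg, hg0⟩ := hP.exists_fixed_point_of_prime_dvd_card_of_fixed_point V hcard h0
  have hinv : ∀ y, g.1 y = g.1 (1, y.2) := by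
    intro y
    have h1 := congrArg Subtype.val (hg y.1)
    have h2 := congrFun h1 y
    change g.1 (y.1⁻¹ * y.1, y.2) = g.1 y at h2
    rw [inv_mul_cancel] at h2
    exact h2.symm
  let ψ : (X →₀ ℤ) →+ ZMod p := Finsupp.liftAddHom fun x =>
    { toFun := fun a => (a : ZMod p) * g.1 (1, x)
      map_zero' := by simp
      map_add' := by intro a b; push_cast; ring }
  have hψ : ∀ z, ψ z = z.sum fun x a => (a : ZMod p) * g.1 (1, x) := fun z => rfl
  have hψU : AddSubgroup.closure (abz '' (U : Set (FreeGroup X))) ≤ ψ.ker := by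
    rw [AddSubgroup.closure_le]
    rintro _ ⟨u, hu, rfl⟩
    change ψ (abz u) = 0
    rw [hψ, ← rowf_const ρ u g.1 (fun x => g.1 (1, x)) hinv 1]
    exact (hVmem _).1 g.2 1 u hu
  rw [hU] at hψU
  apply hg0
  apply Subtype.ext
  funext y
  have h1 : ψ (Finsupp.single y.2 1) = 0 := hψU (AddSubgroup.mem_top _)
  rw [hψ, Finsupp.sum_single_index (by simp)] at h1
  rw [hinv y]
  simpa using h1.symm

theorem int_inj [Finite P] [Fintype X] (p : ℕ) [hp : Fact p.Prime] (hP : IsPGroup p P)
    (ρ : FreeGroup X →* P)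
    (U : Finset (FreeGroup X)) (hU : AddSubgroup.closure (abz '' (U : Set (FreeGroup X))) = ⊤)
    (f : P × X → ℤ) (hf : ∀ h, ∀ u ∈ U, rowf ρ (Dz u) f h = 0) : f = 0 := by
  have key : ∀ n : ℕ, ∃ g : P × X → ℤ, (∀ y, f y = (p : ℤ) ^ n * g y) ∧
      ∀ h, ∀ u ∈ U, rowf ρ (Dz u) g h = 0 := by
    intro n
    induction n with
    | zero => exact ⟨f, by simp, hf⟩
    | succ n ih =>
      obtain ⟨g, hg, hgU⟩ := ih
      have h1 : (fun y => ((g y : ℤ) : ZMod p)) = 0 := by
        apply modp p hP ρ U hU
        intro h u hu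
        have h2 := congrArg (fun z : ℤ => (z : ZMod p)) (hgU h u hu)
        simp only [Int.cast_zero] at h2
        rw [← h2]
        unfold rowf Finsupp.sum
        push_cast
        rfl
      have h2 : ∀ y, ∃ b, g y = (p : ℤ) * b := by
        intro y
        have h3 := congrFun h1 y
        exact (ZMod.intCast_zmod_eq_zero_iff_dvd _ _).1 h3
      choose b hb using h2
      refine ⟨b, fun y => by rw [hg, hb, pow_succ, mul_assoc], ?_⟩
      intro h u hu
      have h3 := hgU h u hu
      have h4 : g = fun y => (p : ℤ) * b y := funext hb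
      rw [h4, rowf_smul] at h3
      rcases mul_eq_zero.1 h3 with h5 | h5
      · exact absurd (by exact_mod_cast h5) hp.out.ne_zero
      · exact h5
  funext y
  by_contra hne
  have hne' : f y ≠ 0 := hne
  obtain ⟨g, hg, -⟩ := key (f y).natAbs
  have h1 : (p : ℤ) ^ (f y).natAbs ∣ f y := ⟨g y, hg y⟩
  have h2 := Int.le_of_dvd (by positivity) ((dvd_abs _ _).2 h1)
  have h3 : (f y).natAbs < p ^ (f y).natAbs := Nat.lt_pow_self hp.out.one_lt
  have h4 : |f y| = ((f y).natAbs : ℤ) := Int.abs_eq_natAbs _
  rw [h4] at h2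
  have h5 : ((p ^ (f y).natAbs : ℕ) : ℤ) ≤ ((f y).natAbs : ℤ) := by
    push_cast
    rw [h4]
    exact_mod_cast h2
  have h6 : p ^ (f y).natAbs ≤ (f y).natAbs := by exact_mod_cast h5
  omega

end

end Run7.h952
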