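import Pool.Agent.TH714.L2.Jobs

/-!
Spaces of square-summable gradients `(finCycles S)ᗮ` for a finite subset `S` of a group which need
not generate it: potentials, transport between finite subsets, injective homomorphisms, and
the Mayer-Vietoris inequality.
-/

set_option autoImplicit false
set_option linter.unusedSectionVars false

open scoped InnerProductSpace InnerProduct ENNReal
open Filter Topology

namespace Run7.h952

open Pool.Agent.H919R3.L2 Pool.Agent.H919R3.Stmt Pool.Agent.TH714.L2

section
variable {H : Type} [Group H]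

/-- `f` is the gradient of `F` along `S`. -/
def IsGrad (S : Finset H) (F : H → ℂ) (f : EE H S) : Prop :=
  ∀ (h : H) (s : S), f (h, s) = F (h * s) - F h

theorem range_ph (S : Finset H) : (ph S (id : S → S)).range = Subgroup.closure (S : Set H) := by
  apply le_antisymm
  · rintro _ ⟨w, rfl⟩
    induction w using FreeGroup.induction_on with
    | C1 => rw [map_one]; exact one_mem _
    | of x => rw [ph_of]; exact Subgroup.subset_closure x.2
    | inv_of x hx => rw [map_inv]; exact inv_mem hx
    | mul u v hu hv => rw [map_mul]; exact mul_mem hu hv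
  · rw [Subgroup.closure_le]
    intro s hs
    exact ⟨FreeGroup.of (⟨s, hs⟩ : S), ph_of S id ⟨s, hs⟩⟩

/-- Elements orthogonal to the finite cycles have a potential. -/
theorem exists_potential (S : Finset H) (f : EE H S) (hf : f ∈ (finCycles S)ᗮ) :
    ∃ F : H → ℂ, IsGrad S F f := by
  classical
  set A := Subgroup.closure (S : Set H) with hA
  let r : H → H := fun h => (QuotientGroup.mk h : H ⧸ A).out
  have hr : ∀ h, (r h)⁻¹ * h ∈ (ph S (id : S → S)).range := by
    intro h
    rw [range_ph, ← QuotientGroup.eq]
    exact QuotientGroup.out_eq' _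
  have hrs : ∀ h (s : S), r (h * s) = r h := by
    intro h s
    have : (QuotientGroup.mk (h * (s : H)) : H ⧸ A) = QuotientGroup.mk h := by
      rw [QuotientGroup.eq]
      have h1 : (s : H) ∈ A := Subgroup.subset_closure s.2
      simpa using inv_mem h1
    simp only [r, this]
  choose w hw using hr
  have hker : ∀ (k : H) (u v : FreeGroup S), ph S id u = ph S id v →
      ⟪tr k (DD S id u), f⟫_ℂ = ⟪tr k (DD S id v), f⟫_ℂ := by
    intro k u v huv
    have h1 : DD S id v = DD S id u + tr (ph S id u) (DD S id (u⁻¹ * v)) := by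
      rw [← DD_mul, mul_inv_cancel_left]
    have h2 : ph S id (u⁻¹ * v) = 1 := by rw [map_mul, map_inv, huv, inv_mul_cancel]
    rw [h1, tr_add, inner_add_left, tr_tr]
    have h3 : ⟪tr (k * ph S id u) (DD S id (u⁻¹ * v)), f⟫_ℂ = 0 :=
      Submodule.inner_right_of_mem_orthogonal
        (finCycles_inv S _ _ (DD_mem_finCycles S id _ h2)) hf
    rw [h3, add_zero]
  refine ⟨fun h => ⟪tr (r h) (DD S id (w h)), f⟫_ℂ, ?_⟩
  intro h s
  have h1 : ph S id (w (h * s)) = ph S id (w h * FreeGroup.of s) := by
    rw [hw, map_mul, hw, ph_of, hrs, mul_assoc]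
    rfl
  have h2 := hker (r h) _ _ h1
  change f (h, s) = ⟪tr (r (h * s)) (DD S id (w (h * s))), f⟫_ℂ - ⟪tr (r h) (DD S id (w h)), f⟫_ℂ
  rw [hrs, h2, DD_mul, tr_add, inner_add_left, DD_of, tr_dl, tr_dl, inner_dl_left, hw]
  have h3 : r h * ((r h)⁻¹ * h * 1) = h := by group
  rw [h3]
  change f (h, s) = _ + f (h, s) - _
  ring

theorem mem_orth_iff (S : Finset H) (f : EE H S) :
    f ∈ (finCycles S)ᗮ ↔ ∃ F : H → ℂ, IsGrad S F f :=
  ⟨exists_potential S f, fun ⟨F, hF⟩ => grad_orth S F f hF⟩

/-- The dimension of the space of square-summable gradients. -/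
noncomputable def dg (S : Finset H) : ℝ := tau (finCycles S)ᗮ

theorem l2Betti_eq_dg [Infinite H] (S : Finset H) (hS : Subgroup.closure (S : Set H) = ⊤) :
    l2Betti S = dg S - 1 := by
  rw [l2Betti_eq, b1l2_eq S hS]
  rfl

theorem l2Betti_nonneg (S : Finset H) : 0 ≤ l2Betti S := by
  rw [l2Betti_eq]
  unfold b1l2 tau
  positivity

theorem dg_le_card (S : Finset H) : dg S ≤ S.card := by
  unfold dg
  rw [tau_finCycles_orth]
  have := dm_nonneg (finCycles S)
  linarith

/-- The operator which transports gradients from `S` to `S'`. -/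
theorem exists_transport' (S S' : Finset H)
    (hS : ∀ s ∈ S', s ∈ Subgroup.closure (S : Set H)) :
    ∃ T : EE H S →L[ℂ] EE H S', Eqv T ∧ ∀ (f : EE H S) (F : H → ℂ),
      IsGrad S F f → IsGrad S' F (T f) := by
  classical
  have hS2 : ∀ s' : S', ∃ w : FreeGroup S, ph S (id : S → S) w = (s' : H) := by
    intro s'
    have := hS s' s'.2
    rw [← range_ph] at this
    exact this
  choose w hw using hS2
  choose U hU hUd using fun s' : S' => exists_opv (H := H) (J := S) (DD S id (w s'))
    (DD_mem_FS S id _)
  choose V hV hVf _ using fun s' : S' => exists_rmul' (H := H) (J := S') 1 s'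
  refine ⟨∑ s' : S', (V s').comp (ContinuousLinearMap.adjoint (U s')), ?_, ?_⟩
  · intro k f
    have e : ∀ z : EE H S, (∑ s' : S', (V s').comp (ContinuousLinearMap.adjoint (U s'))) z
        = ∑ s' : S', V s' (ContinuousLinearMap.adjoint (U s') z) := by
      intro z
      rw [_root_.sum_apply]
      rfl
    rw [e, e]
    have e2 : ∀ (s : Finset S') (z : S' → EE H S'), tr k (∑ s' ∈ s, z s') = ∑ s' ∈ s, tr k (z s') := by
      intro s z
      induction s using Finset.induction_on with
      | empty => simp [tr_zero']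
      | insert a s ha ih => rw [Finset.sum_insert ha, Finset.sum_insert ha, tr_add, ih]
    rw [e2]
    refine Finset.sum_congr rfl fun s' _ => ?_
    rw [(hU s').adjoint, hV]
  · intro f F hF h s
    rw [_root_.sum_apply]
    simp only [lp.coeFn_sum, Finset.sum_apply]
    rw [Finset.sum_eq_single s]
    · change V s (ContinuousLinearMap.adjoint (U s) f) (h, s) = _
      rw [hVf, if_pos rfl, inv_one, mul_one, ← inner_dl_left,
        ContinuousLinearMap.adjoint_inner_right, hUd, inner_DD_of_pot S id f F hF, hw]
    · intro t _ ht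
      change V t (ContinuousLinearMap.adjoint (U t) f) (h, s) = _
      rw [hVf, if_neg ht.symm]
    · intro hh; exact absurd (Finset.mem_univ s) hh

/-- Re-indexing operators. -/
theorem exists_reidx {I J : Type} [Fintype I] [Fintype J] (σ : I → J) :
    ∃ T : EE H J →L[ℂ] EE H I, Eqv T ∧ ∀ f h i, T f (h, i) = f (h, σ i) := by
  obtain ⟨T, hT⟩ := exists_op (X := H × J) (Y := H × I)
    { toFun := fun f y => f (y.1, σ y.2)
      map_add' := by intro f g; ext y; rfl
      map_smul' := by intro c f; ext y; rfl }
    (by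
      intro y
      exact continuous_apply (y.1, σ y.2))
    (by
      intro f
      apply memlp_prod
      intro i
      exact memlp_comp_inj (fun h : H => (h, σ i)) (by intro a b hab; simpa using hab) _ f.2)
  refine ⟨T, ?_, fun f h i => hT f (h, i)⟩
  intro k f
  ext ⟨h, i⟩
  rw [tr_apply, hT, hT]
  rfl

/-- `dg` is monotone. -/
theorem dg_mono_of (S S' : Finset H) (h : Subgroup.closure (S : Set H) =
    Subgroup.closure (S' : Set H)) : dg S' ≤ dg S := by
  obtain ⟨T, hT, hTF⟩ := exists_transport' S S' (fun s hs => by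
    rw [h]; exact Subgroup.subset_closure hs)
  obtain ⟨T', -, hTF'⟩ := exists_transport' S' S (fun s hs => by
    rw [← h]; exact Subgroup.subset_closure hs)
  let R : EE H S →L[ℂ] EE H S' := T.comp (finCycles S)ᗮ.starProjection
  have hR : Eqv R := by
    intro k f
    change T ((finCycles S)ᗮ.starProjection (tr k f)) = _
    rw [(finCycles_inv S).orth.proj, hT]
    rfl
  have h1 := dm_range_le R hR (finCycles S)ᗮ (by
    intro x hx
    change T ((finCycles S)ᗮ.starProjection x) = 0
    rw [(Submodule.starProjection_apply_eq_zero_iff _).2 hx, map_zero])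
  refine le_trans (tau_mono _ _ ?_) h1
  refine le_trans ?_ (Submodule.le_topologicalClosure _)
  intro f hf
  obtain ⟨F, hF⟩ := exists_potential S' f hf
  have h2 := hTF' f F hF
  have h3 : T' f ∈ (finCycles S)ᗮ := grad_orth S F _ h2
  refine ⟨T' f, ?_⟩
  change T ((finCycles S)ᗮ.starProjection (T' f)) = f
  rw [Submodule.starProjection_eq_self_iff.2 h3]
  ext ⟨h, s⟩
  rw [hTF _ F h2, hF]

theorem dg_congr (S S' : Finset H) (h : Subgroup.closure (S : Set H) =
    Subgroup.closure (S' : Set H)) : dg S = dg S' :=
  le_antisymm (dg_mono_of S' S h.symm) (dg_mono_of S S' h)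

end

end Run7.h952
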