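import Pool.Agent.Run7.h952.PGrp
import Pool.Agent.Run7.h952.FinMat

/-!
Operators on finitely supported functions on a free group, their push-forwards, and the estimate
over finite `p`-groups.
-/

set_option autoImplicit false
set_option linter.unusedSectionVars false

namespace Run7.h952

open Matrix

section
variable {X : Type}

/-- The Fox derivatives with real coefficients. -/
noncomputable def Dr (u : FreeGroup X) : (FreeGroup X × X) →₀ ℝ :=
  Finsupp.mapRange (Int.cast : ℤ → ℝ) Int.cast_zero (Dz u)

variable (U : Finset (FreeGroup X))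

noncomputable def opB : ((FreeGroup X × U) →₀ ℝ) →ₗ[ℝ] ((FreeGroup X × X) →₀ ℝ) :=
  Finsupp.linearCombination ℝ fun p => ltr p.1 (Dr (p.2 : FreeGroup X))

open Classical in
noncomputable def opBs : ((FreeGroup X × X) →₀ ℝ) →ₗ[ℝ] ((FreeGroup X × U) →₀ ℝ) :=
  Finsupp.linearCombination ℝ fun p => ∑ u : U, (Dz (u : FreeGroup X)).sum fun q c =>
    if q.2 = p.2 then Finsupp.single (p.1 * q.1⁻¹, u) (c : ℝ) else 0

noncomputable def opM (K : ℝ) : ((FreeGroup X × X) →₀ ℝ) →ₗ[ℝ] ((FreeGroup X × X) →₀ ℝ) :=
  LinearMap.id - K⁻¹ • ((opB U).comp (opBs U))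

theorem opB_single (p : FreeGroup X × U) (a : ℝ) :
    opB U (Finsupp.single p a) = a • ltr p.1 (Dr (p.2 : FreeGroup X)) := by
  unfold opB
  rw [Finsupp.linearCombination_single]

open Classical in
theorem opBs_single (p : FreeGroup X × X) (a : ℝ) :
    opBs U (Finsupp.single p a) = a • ∑ u : U, (Dz (u : FreeGroup X)).sum fun q c =>
    if q.2 = p.2 then Finsupp.single (p.1 * q.1⁻¹, u) (c : ℝ) else 0 := by
  unfold opBs
  rw [Finsupp.linearCombination_single]

theorem opB_ltr (w : FreeGroup X) (L : (FreeGroup X × U) →₀ ℝ) :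
    opB U (ltr w L) = ltr w (opB U L) := by
  induction L using Finsupp.induction_linear with
  | zero => simp
  | add f g hf hg => rw [map_add, map_add, map_add, map_add, hf, hg]
  | single p a => rw [ltr_single, opB_single, opB_single, map_smul, ltr_mul]

theorem opBs_ltr (w : FreeGroup X) (L : (FreeGroup X × X) →₀ ℝ) :
    opBs U (ltr w L) = ltr w (opBs U L) := by
  classical
  induction L using Finsupp.induction_linear with
  | zero => simp
  | add f g hf hg => rw [map_add, map_add, map_add, map_add, hf, hg]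
  | single p a =>
    rw [ltr_single, opBs_single, opBs_single, map_smul, map_sum]
    congr 1
    refine Finset.sum_congr rfl fun u _ => ?_
    rw [Finsupp.sum, Finsupp.sum, map_sum]
    refine Finset.sum_congr rfl fun q _ => ?_
    by_cases h : q.2 = p.2
    · rw [if_pos h, if_pos h, ltr_single, mul_assoc]
    · rw [if_neg h, if_neg h, map_zero]

theorem opM_ltr (K : ℝ) (w : FreeGroup X) (L : (FreeGroup X × X) →₀ ℝ) :
    opM U K (ltr w L) = ltr w (opM U K L) := by
  unfold opM
  simp only [LinearMap.sub_apply, LinearMap.id_apply, LinearMap.smul_apply,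
    LinearMap.comp_apply, opBs_ltr, opB_ltr, map_sub, map_smul]

theorem opM_pow_ltr (K : ℝ) (w : FreeGroup X) (L : (FreeGroup X × X) →₀ ℝ) (j : ℕ) :
    ((opM U K) ^ j) (ltr w L) = ltr w (((opM U K) ^ j) L) := by
  induction j generalizing L with
  | zero => simp
  | succ j ih => rw [pow_succ, Module.End.mul_apply, Module.End.mul_apply, opM_ltr, ih]

end

section
variable {X : Type} {G Y : Type} [Group G]

open Classical in
/-- The values of the push-forward. -/
noncomputable def rv (ρ : FreeGroup X →* G) : ((FreeGroup X × Y) →₀ ℝ) →ₗ[ℝ] (G × Y → ℝ) :=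
  Finsupp.linearCombination ℝ fun p => Pi.single (ρ p.1, p.2) 1

open Classical in
theorem rv_single (ρ : FreeGroup X →* G) (p : FreeGroup X × Y) (a : ℝ) (y : G × Y) :
    rv ρ (Finsupp.single p a) y = if y = (ρ p.1, p.2) then a else 0 := by
  unfold rv
  rw [Finsupp.linearCombination_single, Pi.smul_apply, Pi.single_apply, smul_eq_mul]
  split_ifs <;> simp

open Classical in
theorem rv_apply (ρ : FreeGroup X →* G) (L : (FreeGroup X × Y) →₀ ℝ) (y : G × Y) :
    rv ρ L y = L.sum fun p a => if y = (ρ p.1, p.2) then a else 0 := by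
  induction L using Finsupp.induction_linear with
  | zero => simp
  | add f g hf hg =>
    rw [map_add, Pi.add_apply, hf, hg, Finsupp.sum_add_index' (by simp)]
    intro p a b
    split_ifs <;> simp
  | single p a => rw [rv_single, Finsupp.sum_single_index (by simp)]

theorem rv_ltr (ρ : FreeGroup X →* G) (w : FreeGroup X) (L : (FreeGroup X × Y) →₀ ℝ)
    (y : G × Y) : rv ρ (ltr w L) y = rv ρ L ((ρ w)⁻¹ * y.1, y.2) := by
  induction L using Finsupp.induction_linear with
  | zero => simp
  | add f g hf hg => rw [map_add, map_add, map_add, Pi.add_apply, Pi.add_apply, hf, hg]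
  | single p a =>
    rw [ltr_single, rv_single, rv_single]
    congr 1
    rw [map_mul, Prod.ext_iff, Prod.ext_iff]
    simp only [eq_iff_iff]
    constructor
    · rintro ⟨h1, h2⟩
      exact ⟨by rw [h1, inv_mul_cancel_left], h2⟩
    · rintro ⟨h1, h2⟩
      exact ⟨by rw [← h1, mul_inv_cancel_left], h2⟩

variable (U : Finset (FreeGroup X))

theorem rowf_rv_single (ρ : FreeGroup X →* G) (D : (FreeGroup X × X) →₀ ℤ)
    (p : FreeGroup X × X) (a : ℝ) (h : G) :
    rowf ρ D (rv ρ (Finsupp.single p a)) h
      = D.sum fun q c => (c : ℝ) * (rv ρ (Finsupp.single p a) (h * ρ q.1, q.2)) := rfl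

theorem rv_opBs (ρ : FreeGroup X →* G) (L : (FreeGroup X × X) →₀ ℝ) (h : G) (u : U) :
    rv ρ (opBs U L) (h, u) = rowf ρ (Dz (u : FreeGroup X)) (rv ρ L) h := by
  classical
  induction L using Finsupp.induction_linear with
  | zero => simp [rowf]
  | add f g hf hg => rw [map_add, map_add, map_add, Pi.add_apply, hf, hg, rowf_add]
  | single p a =>
    rw [opBs_single, map_smul, map_sum, Pi.smul_apply, Finset.sum_apply, smul_eq_mul]
    have h1 : ∀ u' : U, rv ρ ((Dz (u' : FreeGroup X)).sum fun q c =>
        if q.2 = p.2 then Finsupp.single (p.1 * q.1⁻¹, u') (c : ℝ) else 0) (h, u)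
        = if u = u' then (Dz (u' : FreeGroup X)).sum fun q c =>
          if (h * ρ q.1, q.2) = (ρ p.1, p.2) then (c : ℝ) else 0 else 0 := by
      intro u'
      rw [Finsupp.sum, map_sum, Finset.sum_apply]
      by_cases hu : u = u'
      · rw [if_pos hu, Finsupp.sum]
        refine Finset.sum_congr rfl fun q _ => ?_
        by_cases hq : q.2 = p.2
        · rw [if_pos hq, rv_single]
          congr 1
          rw [Prod.ext_iff, Prod.ext_iff, map_mul, map_inv]
          simp only [eq_iff_iff]
          constructor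
          · rintro ⟨h1, -⟩
            exact ⟨by rw [h1, inv_mul_cancel_right], hq⟩
          · rintro ⟨h1, -⟩
            exact ⟨by rw [← h1, mul_inv_cancel_right], hu⟩
        · rw [if_neg hq, map_zero, if_neg]
          · rfl
          · intro h2
            exact hq (Prod.ext_iff.1 h2).2
      · rw [if_neg hu]
        refine Finset.sum_eq_zero fun q _ => ?_
        by_cases hq : q.2 = p.2
        · rw [if_pos hq, rv_single, if_neg]
          intro h2
          exact hu (Prod.ext_iff.1 h2).2
        · rw [if_neg hq, map_zero]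
          rfl
    simp only [h1]
    rw [Finset.sum_ite_eq Finset.univ u, if_pos (Finset.mem_univ u)]
    unfold rowf
    rw [Finsupp.mul_sum]
    refine Finsupp.sum_congr fun q _ => ?_
    rw [rv_single]
    split_ifs <;> ring

open Classical in
/-- The squared norm of the push-forward. -/
noncomputable def nn (ρ : FreeGroup X →* G) (L : (FreeGroup X × Y) →₀ ℝ) : ℝ :=
  ∑ p ∈ L.support, ∑ q ∈ L.support, if (ρ p.1, p.2) = (ρ q.1, q.2) then L p * L q else 0

theorem nn_congr {G' : Type} [Group G'] (ρ : FreeGroup X →* G) (ρ' : FreeGroup X →* G')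
    (L : (FreeGroup X × Y) →₀ ℝ) (h : ∀ p ∈ L.support, ∀ q ∈ L.support,
      (ρ p.1 = ρ q.1 ↔ ρ' p.1 = ρ' q.1)) : nn ρ L = nn ρ' L := by
  classical
  unfold nn
  refine Finset.sum_congr rfl fun p hp => Finset.sum_congr rfl fun q hq => ?_
  congr 1
  rw [Prod.ext_iff, Prod.ext_iff]
  simp only [eq_iff_iff]
  rw [h p hp q hq]

theorem sum_sq_rv [Fintype G] [Fintype Y] (ρ : FreeGroup X →* G) (L : (FreeGroup X × Y) →₀ ℝ) :
    ∑ y : G × Y, rv ρ L y ^ 2 = nn ρ L := by
  classical
  unfold nn
  have h1 : ∀ y : G × Y, rv ρ L y ^ 2 = ∑ p ∈ L.support, ∑ q ∈ L.support,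
      (if y = (ρ p.1, p.2) then L p else 0) * (if y = (ρ q.1, q.2) then L q else 0) := by
    intro y
    rw [rv_apply, pow_two, Finsupp.sum, Finset.sum_mul_sum]
  simp only [h1]
  rw [Finset.sum_comm]
  refine Finset.sum_congr rfl fun p _ => ?_
  rw [Finset.sum_comm]
  refine Finset.sum_congr rfl fun q _ => ?_
  rw [Finset.sum_eq_single (ρ p.1, p.2)]
  · rw [if_pos rfl]
    split_ifs <;> simp
  · intro y _ hy
    rw [if_neg hy, zero_mul]
  · intro h
    exact absurd (Finset.mem_univ _) h

end

end Run7.h952
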