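import Pool.Agent.Run7.h952.Rig

/-!
The inequality of the question is equivalent to a rigidity property of normally generating
subgroups and to the monotonicity of the first L²-Betti number.
-/

set_option autoImplicit false
set_option linter.unusedSectionVars false

open scoped InnerProductSpace InnerProduct ENNReal
open Filter Topology

namespace Run7.h952

open Pool.Agent.H919R3.L2 Pool.Agent.H919R3.Stmt Pool.Agent.TH714.L2

/-- Rigidity of normally generating subgroups. -/
def Rigid : Prop :=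
  ∀ (Γ : Type) [Group Γ], (∀ g : Γ, g ≠ 1 → ¬ IsOfFinOrder g) →
    ∀ S : Finset Γ, Subgroup.closure (S : Set Γ) = ⊤ →
    ∀ C : Subgroup Γ, Subgroup.normalClosure (C : Set Γ) = ⊤ →
    ∀ F : Γ → ℂ, (∀ s ∈ S, Summable fun h => ‖F (h * s) - F h‖ ^ 2) →
      (∀ h, ∀ c ∈ C, F (h * c) = F h) → ∀ h, F h = F 1

/-- Monotonicity of the first `L²`-Betti number under normally generating subgroups. -/
def Monot : Prop :=
  ∀ (Γ : Type) [Group Γ] [Nontrivial Γ], (∀ g : Γ, g ≠ 1 → ¬ IsOfFinOrder g) →
    ∀ S : Finset Γ, Subgroup.closure (S : Set Γ) = ⊤ →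
    ∀ K : Subgroup Γ, Subgroup.normalClosure (K : Set Γ) = ⊤ →
    ∀ S' : Finset K, Subgroup.closure (S' : Set K) = ⊤ → l2Betti S ≤ l2Betti S'

theorem exists_finset_normalClosure {G : Type} [Group G] (C : Set G) (x : G)
    (hx : x ∈ Subgroup.normalClosure C) :
    ∃ T : Finset G, (T : Set G) ⊆ C ∧ x ∈ Subgroup.normalClosure (T : Set G) := by
  classical
  unfold Subgroup.normalClosure at hx
  induction hx using Subgroup.closure_induction with
  | mem y hy =>
    obtain ⟨a, ha, hay⟩ := Group.mem_conjugatesOfSet_iff.1 hy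
    refine ⟨{a}, by simpa using ha, ?_⟩
    have h1 : a ∈ Subgroup.normalClosure (({a} : Finset G) : Set G) :=
      Subgroup.subset_normalClosure (by simp)
    obtain ⟨c, hc⟩ := isConj_iff.1 hay
    rw [← hc]
    exact Subgroup.normalClosure_normal.conj_mem _ h1 c
  | one => exact ⟨∅, by simp, one_mem _⟩
  | mul y z _ _ hy hz =>
    obtain ⟨T, hT, hy⟩ := hy
    obtain ⟨T', hT', hz⟩ := hz
    refine ⟨T ∪ T', by rw [Finset.coe_union]; exact Set.union_subset hT hT', ?_⟩
    exact mul_mem (Subgroup.normalClosure_mono (by simp) hy)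
      (Subgroup.normalClosure_mono (by simp) hz)
  | inv y _ hy =>
    obtain ⟨T, hT, hy⟩ := hy
    exact ⟨T, hT, inv_mem hy⟩

theorem exists_finset_normalClosure' {G : Type} [Group G] (S : Finset G)
    (hS : Subgroup.closure (S : Set G) = ⊤) (C : Set G) (hC : Subgroup.normalClosure C = ⊤) :
    ∃ T : Finset G, (T : Set G) ⊆ C ∧ Subgroup.normalClosure (T : Set G) = ⊤ := by
  classical
  have h : ∀ x : G, ∃ T : Finset G, (T : Set G) ⊆ C ∧ x ∈ Subgroup.normalClosure (T : Set G) :=
    fun x => exists_finset_normalClosure C x (by rw [hC]; trivial)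
  choose T hT hx using h
  refine ⟨S.biUnion T, ?_, ?_⟩
  · intro y hy
    obtain ⟨s, _, hs⟩ := Finset.mem_biUnion.1 (Finset.mem_coe.1 hy)
    exact hT s hs
  · rw [eq_top_iff, ← hS, Subgroup.closure_le]
    intro s hs
    refine Subgroup.normalClosure_mono ?_ (hx s)
    intro y hy
    exact Finset.mem_coe.2 (Finset.mem_biUnion.2 ⟨s, hs, hy⟩)

theorem pow_ne_of_tf {G : Type} [Group G] (hG : TF G) {t : G} (ht : t ≠ 1) (n : ℤ)
    (hn : n ≠ 0) : t ^ n ≠ 1 := fun h => hG t ht (isOfFinOrder_iff_zpow_eq_one.2 ⟨n, hn, h⟩)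

open Classical in
/-- Extension by zero along an injective homomorphism. -/
noncomputable def ext0 {G G' : Type} [Group G] [Group G'] (i : G →* G') (F : G → ℂ) : G' → ℂ :=
  fun x => if h : ∃ g, i g = x then F h.choose else 0

theorem ext0_apply {G G' : Type} [Group G] [Group G'] (i : G →* G') (hi : Function.Injective i)
    (F : G → ℂ) (g : G) : ext0 i F (i g) = F g := by
  have h : ∃ g', i g' = i g := ⟨g, rfl⟩
  unfold ext0
  rw [dif_pos h]
  exact congrArg F (hi h.choose_spec)

theorem ext0_of_not {G G' : Type} [Group G] [Group G'] (i : G →* G') (F : G → ℂ) (x : G')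
    (hx : x ∉ Set.range i) : ext0 i F x = 0 := by
  unfold ext0
  exact dif_neg (fun h => hx h)

theorem ext0_grad {G G' : Type} [Group G] [Group G'] (i : G →* G') (hi : Function.Injective i)
    (F : G → ℂ) (s : G) (h : G') : ext0 i F (h * i s) - ext0 i F h
      = ext0 i (fun g => F (g * s) - F g) h := by
  by_cases hh : h ∈ Set.range i
  · obtain ⟨g, rfl⟩ := hh
    rw [← map_mul, ext0_apply i hi, ext0_apply i hi, ext0_apply i hi]
  · have h2 : h * i s ∉ Set.range i := by
      rintro ⟨g, hg⟩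
      exact hh ⟨g * s⁻¹, by rw [map_mul, map_inv, hg, mul_inv_cancel_right]⟩
    rw [ext0_of_not i F h hh, ext0_of_not i F _ h2, ext0_of_not i _ h hh, sub_zero]

theorem summable_ext0 {G G' : Type} [Group G] [Group G'] (i : G →* G')
    (hi : Function.Injective i) (F : G → ℂ) (hF : Summable fun g => ‖F g‖ ^ 2) :
    Summable fun x => ‖ext0 i F x‖ ^ 2 := by
  rw [← Function.Injective.summable_iff hi]
  · refine hF.congr fun g => ?_
    simp only [Function.comp]
    rw [ext0_apply i hi]
  · intro x hx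
    rw [ext0_of_not i F x hx]
    simp

/-- A function whose gradient is square-summable gives an element of the Hilbert space. -/
theorem exists_isGrad {G : Type} [Group G] (S : Finset G) (F : G → ℂ)
    (hF : ∀ s ∈ S, Summable fun h => ‖F (h * s) - F h‖ ^ 2) :
    ∃ f : EE G S, IsGrad S F f := by
  have h1 : Memℓp (fun x : G × S => F (x.1 * x.2) - F x.1) 2 := by
    apply memlp_prod
    intro s
    rw [memlp_two_iff]
    exact hF s s.2
  exact ⟨⟨fun x : G × S => F (x.1 * x.2) - F x.1, h1⟩, fun h s => rfl⟩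

theorem rigid_of_ineqD (h : IneqD) : Rigid := by
  classical
  intro Γ _ hΓ S hS C hC F hF hFC
  by_cases hsub : Subsingleton Γ
  · intro h; rw [Subsingleton.elim h 1]
  have hnt : Nontrivial Γ := not_subsingleton_iff_nontrivial.1 hsub
  obtain ⟨T, hTC, hT⟩ := exists_finset_normalClosure' S hS (C : Set Γ) hC
  obtain ⟨G', _, K, _, φ, ψ, i, j, t, rfl, hA, hψ, hG', -, hK, ⟨SK, hSK⟩, ht, hjt⟩ :=
    embed_over hΓ ⟨S, hS⟩ T hT
  have hnt' : Nontrivial G' := hA.inj_i.nontrivial
  set S' := S.image i ∪ SK.image j with hS'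
  have hS'top : Subgroup.closure (S' : Set G') = ⊤ := by
    rw [hS', Finset.coe_union, Finset.coe_image, Finset.coe_image, Subgroup.closure_union,
      ← MonoidHom.map_closure, ← MonoidHom.map_closure, hS, hSK, ← MonoidHom.range_eq_map,
      ← MonoidHom.range_eq_map, hA.gen]
  have hd : dg S' ≤ 1 := by
    have := h G' hG' S' hS'top {j t} (by rw [Finset.coe_singleton]; exact hjt)
    simpa using this
  have hjt1 : j t ≠ 1 := ne_one_of_normalClosure hjt
  obtain ⟨F₁, hF₁, hF₁'⟩ := hA.glue (ext0 i F) (fun _ => 0) (by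
    rintro h _ ⟨c, rfl⟩
    change ext0 i F (h * i c) - _ = _
    rw [ext0_grad i hA.inj_i]
    have hc : (c : Γ) ∈ C := by
      have h1 : Subgroup.closure (T : Set Γ) ≤ C := (Subgroup.closure_le _).2 hTC
      exact h1 c.2
    have h2 : (fun g => F (g * (c : Γ)) - F g) = fun _ => 0 := by
      funext g
      rw [hFC g c hc, sub_self]
    rw [h2]
    by_cases hh : h ∈ Set.range i
    · obtain ⟨g, rfl⟩ := hh
      rw [ext0_apply i hA.inj_i, sub_zero]
    · rw [ext0_of_not i _ h hh, sub_zero])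
  obtain ⟨f₁, hf₁⟩ := exists_isGrad S' F₁ (by
    intro s hs
    rw [hS', Finset.mem_union, Finset.mem_image, Finset.mem_image] at hs
    rcases hs with ⟨s, hs, rfl⟩ | ⟨s, hs, rfl⟩
    · have e : (fun h => ‖F₁ (h * i s) - F₁ h‖ ^ 2)
          = fun h => ‖ext0 i (fun g => F (g * s) - F g) h‖ ^ 2 := by
        funext h
        rw [hF₁ h (i s) ⟨s, rfl⟩, ext0_grad i hA.inj_i]
      rw [e]
      exact summable_ext0 i hA.inj_i _ (hF s hs)
    · have e : (fun h => ‖F₁ (h * j s) - F₁ h‖ ^ 2) = fun _ => 0 := by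
        funext h
        rw [hF₁' h (j s) ⟨s, rfl⟩]
        simp
      rw [e]
      exact summable_zero)
  have hconst := rigid S' hS'top hd (j t) (pow_ne_of_tf hG' hjt1) F₁ f₁ hf₁ (by
    intro h
    have := hF₁' h (j t) ⟨t, rfl⟩
    rw [sub_self] at this
    exact sub_eq_zero.1 this)
  intro x
  have h1 := hF₁ 1 (i x) ⟨x, rfl⟩
  rw [hconst, hconst 1, sub_self, ext0_grad i hA.inj_i] at h1
  have h2 := ext0_apply i hA.inj_i (fun g => F (g * x) - F g) 1
  rw [map_one] at h2
  rw [h2, one_mul] at h1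
  exact (sub_eq_zero.1 h1.symm)

end Run7.h952
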